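import Pool.Agent.T6.H19.DV.Det

/-!
Orders of determinants at a place, from functionals that are small on the rows, when the poles of
the rows have a common direction.
-/

set_option autoImplicit false

open FF Pool.Agent.W603.LV Matrix

namespace Pool.Agent.T6.H19.DW

variable {k L : Type} [Field k] [Field L] [Algebra k L]

/-- The order of a determinant with weighted rows and columns. -/
theorem ge_det_w (P : Place k L) {R : Type} [Fintype R] [DecidableEq R] (M : Matrix R R L)
    (a b : R → ℤ) (hM : ∀ i j, Ge P (-(a i) - b j) (M i j)) :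
    Ge P (-(∑ i, a i) - ∑ j, b j) M.det := by
  rw [Matrix.det_apply]
  refine Ge.sum _ _ fun σ _ => ?_
  have h1 : Ge P (-(∑ i, a i) - ∑ j, b j) (∏ i, M (σ i) i) := by
    have := Ge.prod (P := P) Finset.univ (fun i => M (σ i) i) (fun i => -(a (σ i)) - b i)
      fun i _ => hM _ _
    rw [Finset.sum_sub_distrib, Finset.sum_neg_distrib, Equiv.sum_comp σ a] at this
    exact this
  rcases Int.units_eq_one_or (Equiv.Perm.sign σ) with h | h
  · rw [h, one_smul]; exact h1
  · rw [h, Units.neg_smul, one_smul]; exact h1.neg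

/-- The order of a determinant whose rows are integral up to multiples of one vector `u`, and on
whose rows the functionals are integral up to the corresponding multiples of `w`, if the values of
the functionals at other vectors of this kind have large poles. -/
theorem det_lattice_dir (P : Place k L) {R Q : Type} [Fintype R] [DecidableEq R] [Fintype Q]
    [DecidableEq Q] (V : Matrix R R L) (Y U : Matrix Q R L) (A : Matrix Q Q L) (u c : R → L)
    (cu w : Q → L) {s e μ : ℤ} (hs : 0 ≤ s) (he : 0 ≤ e) (hμ : 0 ≤ μ)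
    (hu : ∀ j, Ge P 0 (u j)) (hc : ∀ i, Ge P (-e) (c i)) (hcu : ∀ q, Ge P (-e) (cu q))
    (hV : ∀ i j, Ge P (-s) (V i j - c i * u j)) (hU : ∀ i j, Ge P (-s) (U i j - cu i * u j))
    (hw : ∀ q, Ge P (-μ) (w q)) (hYV : ∀ q i, Ge P (-s) ((Y * Vᵀ) q i - c i * w q))
    (hYU : ∀ q q', Ge P (-s) (A q q' + (Y * Uᵀ) q q' - cu q' * w q))
    (hA : A.det ≠ 0) (hdet : V.det ≠ 0) :
    -(P.ord A.det) - (Fintype.card R + Fintype.card Q) * s - e - μ ≤ P.ord V.det := by
  obtain ⟨V', hV'⟩ : ∃ V' : Matrix (Unit ⊕ R) (Unit ⊕ R) L, V' =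
    fromBlocks 1 (Matrix.of fun _ j => -u j) (Matrix.of fun i _ => c i)
      (Matrix.of fun i j => V i j - c i * u j) := ⟨_, rfl⟩
  obtain ⟨Y', hY'⟩ : ∃ Y' : Matrix Q (Unit ⊕ R) L, Y' =
    Matrix.of fun q => Sum.elim (fun _ => ∑ j, Y q j * u j - w q) (Y q) := ⟨_, rfl⟩
  obtain ⟨U', hU'⟩ : ∃ U' : Matrix Q (Unit ⊕ R) L, U' =
    Matrix.of fun q => Sum.elim (fun _ => cu q) (fun j => U q j - cu q * u j) := ⟨_, rfl⟩
  have hdV : V'.det = V.det := by
    rw [hV', det_fromBlocks_one₁₁]
    congr 1
    ext i j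
    rw [Matrix.sub_apply, Matrix.mul_apply, Fintype.sum_unique]
    simp only [Matrix.of_apply]
    ring
  have hYV' : ∀ q κ, (Y' * V'ᵀ) q κ = Sum.elim (fun _ => - w q)
      (fun i => (Y * Vᵀ) q i - c i * w q) κ := by
    intro q κ
    rw [Matrix.mul_apply, Fintype.sum_sum_type, Fintype.sum_unique, hY', hV']
    rcases κ with κ | i
    · simp only [Matrix.of_apply, Sum.elim_inl, Sum.elim_inr, Matrix.transpose_apply,
        Matrix.fromBlocks_apply₁₁, Matrix.fromBlocks_apply₁₂, Matrix.one_apply, mul_neg,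
        Finset.sum_neg_distrib]
      have h0 : (if κ = default then (1 : L) else 0) = 1 := if_pos (Subsingleton.elim _ _)
      simp
      ring
    · simp only [Matrix.of_apply, Sum.elim_inl, Sum.elim_inr, Matrix.transpose_apply,
        Matrix.fromBlocks_apply₂₁, Matrix.fromBlocks_apply₂₂, Matrix.mul_apply, mul_sub,
        Finset.sum_sub_distrib, sub_mul, Finset.sum_mul]
      have h1 : ∑ j, Y q j * (c i * u j) = ∑ j, Y q j * u j * c i :=
        Finset.sum_congr rfl fun j _ => by ring
      rw [h1]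
      ring
  have hYU' : ∀ q q', (Y' * U'ᵀ) q q' = (Y * Uᵀ) q q' - cu q' * w q := by
    intro q q'
    rw [Matrix.mul_apply, Fintype.sum_sum_type, Fintype.sum_unique, hY', hU']
    simp only [Matrix.of_apply, Sum.elim_inl, Sum.elim_inr, Matrix.transpose_apply,
        Matrix.mul_apply, mul_sub, Finset.sum_sub_distrib, sub_mul, Finset.sum_mul]
    have h1 : ∑ j, Y q j * (cu q' * u j) = ∑ j, Y q j * u j * cu q' :=
      Finset.sum_congr rfl fun j _ => by ring
    rw [h1]
    ring
  have hdet' : V'.det ≠ 0 := by rw [hdV]; exact hdet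
  have h1 := Pool.Agent.T6.H19.DV.det_border V' Y' U' A (isUnit_iff_ne_zero.2 hdet')
  have h2 := ge_det_w P (fromBlocks V'ᵀ U'ᵀ (Y' * V'ᵀ) (A + Y' * U'ᵀ))
    (Sum.elim (Sum.elim (fun _ => e) fun _ => s) fun _ => s)
    (Sum.elim (Sum.elim (fun _ => μ) fun _ => 0) fun _ => 0) (by
    rintro ((i | i) | i) ((j | j) | j)
    · simp only [Matrix.fromBlocks_apply₁₁, Matrix.transpose_apply, Sum.elim_inl]
      rw [hV', Matrix.fromBlocks_apply₁₁, Matrix.one_apply, if_pos (Subsingleton.elim _ _)]
      exact Ge.one.mono (by omega)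
    · simp only [Matrix.fromBlocks_apply₁₁, Matrix.transpose_apply, Sum.elim_inl, Sum.elim_inr]
      rw [hV', Matrix.fromBlocks_apply₂₁, Matrix.of_apply]
      exact (hc j).mono (by omega)
    · simp only [Matrix.fromBlocks_apply₁₂, Matrix.transpose_apply, Sum.elim_inl, Sum.elim_inr]
      rw [hU', Matrix.of_apply, Sum.elim_inl]
      exact (hcu j).mono (by omega)
    · simp only [Matrix.fromBlocks_apply₁₁, Matrix.transpose_apply, Sum.elim_inl, Sum.elim_inr]
      rw [hV', Matrix.fromBlocks_apply₁₂, Matrix.of_apply]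
      exact (hu i).neg.mono (by omega)
    · simp only [Matrix.fromBlocks_apply₁₁, Matrix.transpose_apply, Sum.elim_inl, Sum.elim_inr]
      rw [hV', Matrix.fromBlocks_apply₂₂, Matrix.of_apply]
      exact (hV j i).mono (by omega)
    · simp only [Matrix.fromBlocks_apply₁₂, Matrix.transpose_apply, Sum.elim_inl, Sum.elim_inr]
      rw [hU', Matrix.of_apply, Sum.elim_inr]
      exact (hU j i).mono (by omega)
    · simp only [Matrix.fromBlocks_apply₂₁, Sum.elim_inl, Sum.elim_inr]
      rw [hYV', Sum.elim_inl]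
      exact (hw i).neg.mono (by omega)
    · simp only [Matrix.fromBlocks_apply₂₁, Sum.elim_inl, Sum.elim_inr]
      rw [hYV', Sum.elim_inr]
      exact (hYV i j).mono (by omega)
    · simp only [Matrix.fromBlocks_apply₂₂, Sum.elim_inr]
      rw [Matrix.add_apply, hYU']
      have h3 : A i j + ((Y * Uᵀ) i j - cu j * w i) = A i j + (Y * Uᵀ) i j - cu j * w i := by ring
      rw [h3]
      exact (hYU i j).mono (by omega))
  rw [← h1, hdV] at h2
  have h3 := h2.resolve_left (mul_ne_zero hdet hA)
  rw [P.ord_mul hdet hA] at h3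
  simp only [Fintype.sum_sum_type, Sum.elim_inl, Sum.elim_inr, Finset.sum_const,
    Finset.card_univ, Fintype.card_unit, one_smul, nsmul_eq_mul, mul_zero, add_zero] at h3
  linarith

end Pool.Agent.T6.H19.DW
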