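import Pool.Agent.T6.H19.DV.Scl
import Pool.Agent.T6.H19.DW.Lat

/-!
The determinants of vector fields: choice of rows, change of the frame, and scaling.
-/

set_option autoImplicit false

open MvPolynomial Pool.Agent.TH145.GH FF Pool.Agent.W603.LV
open Pool.Agent.TH145.GC (Ev Ti tv wv Ev_mod)
open Pool.Agent.T6.H19.DV (ev ev_scale)

namespace Pool.Agent.T6.H19.DW

variable {K : Type} [Field K] {n : ℕ} {ι W J : Type} {dg : ι → ℕ}
  {D : ι → (Fin (n + 1) →₀ ℕ) → Derivation ℤ K K} {E : W → Derivation ℤ K K}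

/-- The indices of the vector fields. -/
abbrev Gx (n : ℕ) (ι W : Type) := Option (W ⊕ Ti n ι)

/-- The position vector, the vector fields `E`, and the tangent vector fields. -/
noncomputable def genA (dg : ι → ℕ) (D : ι → (Fin (n + 1) →₀ ℕ) → Derivation ℤ K K)
    (E : W → Derivation ℤ K K) (x : Fin (n + 1) → K) : Gx n ι W → Fin (n + 1) → K
  | none => x
  | some (Sum.inl ξ) => ev (E ξ) x
  | some (Sum.inr t) => tv dg D x t

/-- The span of these vector fields. -/
noncomputable def SpA (dg : ι → ℕ) (D : ι → (Fin (n + 1) →₀ ℕ) → Derivation ℤ K K)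
    (E : W → Derivation ℤ K K) (x : Fin (n + 1) → K) : Submodule K (Fin (n + 1) → K) :=
  Submodule.span K (Set.range (genA dg D E x))

/-- The span of all the vector fields. -/
noncomputable def FuA (dg : ι → ℕ) (D : ι → (Fin (n + 1) →₀ ℕ) → Derivation ℤ K K)
    (E : W → Derivation ℤ K K) (x : Fin (n + 1) → K) : Submodule K (Fin (n + 1) → K) :=
  Submodule.span K (Set.range (genA dg D E x) ∪
    {v | ∃ p I, I.degree = dg p ∧ v = Ev D x p I})

theorem gen_memA (x : Fin (n + 1) → K) (o : Gx n ι W) : genA dg D E x o ∈ SpA dg D E x :=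
  Submodule.subset_span ⟨o, rfl⟩

theorem Sp_le_FuA (x : Fin (n + 1) → K) : SpA dg D E x ≤ FuA dg D E x :=
  Submodule.span_mono Set.subset_union_left

theorem Ev_mem_FuA (x : Fin (n + 1) → K) (p : ι) {I : Fin (n + 1) →₀ ℕ} (hI : I.degree = dg p) :
    Ev D x p I ∈ FuA dg D E x := Submodule.subset_span (Or.inr ⟨p, I, hI, rfl⟩)

theorem Ev_modA (x : Fin (n + 1) → K) {e : Fin (n + 1)} (he : x e ≠ 0) (p : ι)
    {I : Fin (n + 1) →₀ ℕ} (hI : I.degree = dg p) :
    Ev D x p I - (mon x I / x e ^ dg p) • Ev D x p (Finsupp.single e (dg p)) ∈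
      SpA dg D E x := by
  have h1 := Ev_mod dg D x e he p _ I hI rfl
  refine (Submodule.span_le.2 ?_) h1
  rintro _ ⟨o, rfl⟩
  rcases o with _ | t
  · exact gen_memA (dg := dg) (D := D) (E := E) x none
  · exact gen_memA (dg := dg) (D := D) (E := E) x (some (Sum.inr t))

/-- The rows. -/
noncomputable def rvA (dg : ι → ℕ) (D : ι → (Fin (n + 1) →₀ ℕ) → Derivation ℤ K K)
    (E : W → Derivation ℤ K K) (x : Fin (n + 1) → K) (e : Fin (n + 1)) (κ : J → ι) :
    Gx n ι W ⊕ J → Fin (n + 1) → K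
  | Sum.inl o => genA dg D E x o
  | Sum.inr j => Ev D x (κ j) (Finsupp.single e (dg (κ j)))

/-- The index of a row. -/
def riA {b : Finset (Gx n ι W)} (i : b ⊕ J) : Gx n ι W ⊕ J := Sum.map Subtype.val id i

theorem rv_mem_FuA (x : Fin (n + 1) → K) (e : Fin (n + 1)) (κ : J → ι) (i : Gx n ι W ⊕ J) :
    rvA dg D E x e κ i ∈ FuA dg D E x := by
  rcases i with o | j
  · exact Sp_le_FuA x (gen_memA x o)
  · exact Ev_mem_FuA x _ (Finsupp.degree_single _ _)

/-- `κ` is a frame at `x`: the derivatives `κ j` are a basis of all the derivatives modulo the span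
`SpA`. -/
structure Frame (dg : ι → ℕ) (D : ι → (Fin (n + 1) →₀ ℕ) → Derivation ℤ K K)
    (E : W → Derivation ℤ K K) (x : Fin (n + 1) → K) (e : Fin (n + 1)) (κ : J → ι) : Prop where
  span : ∀ p, Ev D x p (Finsupp.single e (dg p)) ∈ SpA dg D E x ⊔
    Submodule.span K (Set.range fun j => Ev D x (κ j) (Finsupp.single e (dg (κ j))))
  indep : ∃ Φ : (Fin (n + 1) → K) →ₗ[K] (J → K), (∀ z ∈ SpA dg D E x, Φ z = 0) ∧
    LinearIndependent K fun j => Φ (Ev D x (κ j) (Finsupp.single e (dg (κ j))))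

/-- The choice of the rows. -/
theorem exists_rowsA [Fintype J] {x : Fin (n + 1) → K} {e : Fin (n + 1)} (he : x e ≠ 0)
    {κ : J → ι} (hκ : Frame dg D E x e κ) :
    ∃ b : Finset (Gx n ι W), none ∈ b ∧
      LinearIndependent K (fun i : b ⊕ J => rvA dg D E x e κ (riA i)) ∧
      SpA dg D E x ≤ Submodule.span K (genA dg D E x '' b) ∧
      Module.finrank K (FuA dg D E x) = b.card + Fintype.card J := by
  classical
  have hc : LinearIndepOn K (genA dg D E x) {none} := by
    rw [linearIndepOn_singleton_iff]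
    intro h
    exact he (congrFun h e)
  obtain ⟨b0, -, hcb, hspan0, hb0⟩ := exists_linearIndepOn_extension hc (Set.subset_univ _)
  have hb0' : LinearIndependent K (fun i : b0 => genA dg D E x i) := hb0
  have hfin : b0.Finite := by
    have := hb0'.finite
    exact Set.toFinite b0
  obtain ⟨b, hb⟩ : ∃ b : Finset (Gx n ι W), (b : Set _) = b0 :=
    ⟨hfin.toFinset, hfin.coe_toFinset⟩
  rw [← hb] at hcb hspan0 hb0
  have hbi : LinearIndependent K (fun i : b => genA dg D E x i) := hb0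
  have hspan : SpA dg D E x ≤ Submodule.span K (genA dg D E x '' b) := by
    unfold SpA
    rw [Submodule.span_le]
    rintro _ ⟨o, rfl⟩
    exact hspan0 ⟨o, Set.mem_univ _, rfl⟩
  obtain ⟨T, hT⟩ : ∃ T : J → Fin (n + 1) → K, ∀ j, T j =
    Ev D x (κ j) (Finsupp.single e (dg (κ j))) := ⟨_, fun _ => rfl⟩
  obtain ⟨Φ, hΦ0, hΦi⟩ := hκ.indep
  have hΦi' : LinearIndependent K fun j => Φ (T j) := by
    simp only [hT]
    exact hΦi
  have hTi : LinearIndependent K T := LinearIndependent.of_comp Φ hΦi'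
  have hdisj : Disjoint (Submodule.span K (Set.range fun i : b => genA dg D E x i))
      (Submodule.span K (Set.range T)) := by
    rw [Submodule.disjoint_def]
    intro z hz1 hz2
    have h1 : z ∈ SpA dg D E x := by
      refine Submodule.span_mono ?_ hz1
      rintro _ ⟨i, rfl⟩
      exact ⟨i, rfl⟩
    have h2 := hΦ0 z h1
    rw [Submodule.mem_span_range_iff_exists_fun] at hz2
    obtain ⟨c, rfl⟩ := hz2
    rw [map_sum] at h2
    simp only [map_smul] at h2
    have h3 := Fintype.linearIndependent_iff.1 hΦi' c h2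
    exact Finset.sum_eq_zero fun q _ => by rw [h3, zero_smul]
  have hli : LinearIndependent K (fun i : b ⊕ J => rvA dg D E x e κ (riA i)) := by
    have h1 := hbi.sum_type hTi hdisj
    have h2 : (fun i : b ⊕ J => rvA dg D E x e κ (riA i)) =
        Sum.elim (fun i : b => genA dg D E x i) T := by
      funext i
      rcases i with i | p
      · rfl
      · exact (hT p).symm
    rw [h2]
    exact h1
  refine ⟨b, hcb rfl, hli, hspan, ?_⟩
  have h1 : FuA dg D E x = Submodule.span K
      (Set.range fun i : b ⊕ J => rvA dg D E x e κ (riA i)) := by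
    apply le_antisymm
    · have h2 : SpA dg D E x ≤ Submodule.span K
          (Set.range fun i : b ⊕ J => rvA dg D E x e κ (riA i)) := by
        refine hspan.trans (Submodule.span_mono ?_)
        rintro _ ⟨o, ho, rfl⟩
        exact ⟨Sum.inl ⟨o, ho⟩, rfl⟩
      have h5 : SpA dg D E x ⊔ Submodule.span K (Set.range fun j =>
          Ev D x (κ j) (Finsupp.single e (dg (κ j)))) ≤ Submodule.span K
          (Set.range fun i : b ⊕ J => rvA dg D E x e κ (riA i)) := by
        refine sup_le h2 (Submodule.span_mono ?_)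
        rintro _ ⟨j, rfl⟩
        exact ⟨Sum.inr j, rfl⟩
      unfold FuA
      rw [Submodule.span_le]
      rintro _ (⟨o, rfl⟩ | ⟨p, I, hI, rfl⟩)
      · exact h2 (gen_memA x o)
      · have h3 := h2 (Ev_modA (dg := dg) (D := D) (E := E) x he p hI)
        have h4 := add_mem h3 (Submodule.smul_mem _ (mon x I / x e ^ dg p) (h5 (hκ.span p)))
        rwa [sub_add_cancel] at h4
    · rw [Submodule.span_le]
      rintro _ ⟨i, rfl⟩
      exact rv_mem_FuA x e _ _
  rw [h1, finrank_span_eq_card hli, Fintype.card_sum, Fintype.card_coe]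

/-- The matrix of the rows. -/
noncomputable def mtA (dg : ι → ℕ) (D : ι → (Fin (n + 1) →₀ ℕ) → Derivation ℤ K K)
    (E : W → Derivation ℤ K K) (x : Fin (n + 1) → K) (e : Fin (n + 1)) (κ : J → ι)
    (b : Finset (Gx n ι W)) (σ : b ⊕ J → Fin (n + 1)) : Matrix (b ⊕ J) (b ⊕ J) K :=
  Matrix.of fun i j => rvA dg D E x e κ (riA i) (σ j)

open scoped Classical in
/-- The change of the frame. -/
theorem det_changeA [Fintype J] {x : Fin (n + 1) → K} {e0 e1 : Fin (n + 1)} {κ0 κ1 : J → ι}
    {b : Finset (Gx n ι W)} (σ : b ⊕ J → Fin (n + 1))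
    (hspan : SpA dg D E x ≤ Submodule.span K (genA dg D E x '' b)) (C : Matrix J J K)
    (hC : ∀ i, Ev D x (κ0 i) (Finsupp.single e0 (dg (κ0 i))) -
      ∑ j, C i j • Ev D x (κ1 j) (Finsupp.single e1 (dg (κ1 j))) ∈ SpA dg D E x) :
    (mtA dg D E x e0 κ0 b σ).det = C.det * (mtA dg D E x e1 κ1 b σ).det := by
  have h1 : ∀ i, ∃ G : b → K, rvA dg D E x e0 κ0 (Sum.inr i) =
      ∑ o : b, G o • genA dg D E x o + ∑ j, C i j • rvA dg D E x e1 κ1 (Sum.inr j) := by
    intro i
    have h2 := hspan (hC i)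
    have h3 : genA dg D E x '' b = Set.range fun o : b => genA dg D E x o := by
      rw [Set.image_eq_range]
      rfl
    rw [h3, Submodule.mem_span_range_iff_exists_fun] at h2
    obtain ⟨G, hG⟩ := h2
    refine ⟨G, ?_⟩
    rw [hG]
    simp only [rvA]
    rw [sub_add_cancel]
  choose G hG using h1
  have hmt : mtA dg D E x e0 κ0 b σ =
      Matrix.fromBlocks 1 0 (Matrix.of G) C * mtA dg D E x e1 κ1 b σ := by
    ext i j
    rw [Matrix.mul_apply, Fintype.sum_sum_type]
    rcases i with o | p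
    · rw [Finset.sum_eq_single o, Finset.sum_eq_zero, add_zero, Matrix.fromBlocks_apply₁₁,
        Matrix.one_apply, if_pos rfl, one_mul]
      · rfl
      · intro q _
        rw [Matrix.fromBlocks_apply₁₂, Matrix.zero_apply, zero_mul]
      · intro o' _ ho
        rw [Matrix.fromBlocks_apply₁₁, Matrix.one_apply, if_neg ho.symm, zero_mul]
      · intro h; exact absurd (Finset.mem_univ _) h
    · have h2 : mtA dg D E x e0 κ0 b σ (Sum.inr p) j =
        rvA dg D E x e0 κ0 (Sum.inr p) (σ j) := rfl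
      rw [h2, hG, Pi.add_apply, Finset.sum_apply, Finset.sum_apply]
      congr 1
  rw [hmt, Matrix.det_mul, Matrix.det_fromBlocks_zero₁₂, Matrix.det_one, one_mul]

/-- The degrees of the rows. -/
def wtA : Gx n ι W ⊕ J → ℕ
  | Sum.inl none => 1
  | Sum.inl (some (Sum.inl _)) => 1
  | Sum.inl (some (Sum.inr _)) => 2
  | Sum.inr _ => 1

theorem rv_scaleA (x : Fin (n + 1) → K) (lam : K) (e : Fin (n + 1)) (κ : J → ι) :
    ∃ s : Gx n ι W ⊕ J → K, s (Sum.inl none) = 0 ∧
      ∀ i, rvA dg D E (lam • x) e κ i = lam ^ wtA i • rvA dg D E x e κ i + s i • x := by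
  refine ⟨fun i => match i with
    | Sum.inl none => 0
    | Sum.inl (some (Sum.inl ξ)) => E ξ lam
    | Sum.inl (some (Sum.inr t)) => if t.2.1.degree + 1 = dg t.1 then
        lam * (x t.2.2.2 * D t.1 (t.2.1 + Finsupp.single t.2.2.1 1) lam -
          x t.2.2.1 * D t.1 (t.2.1 + Finsupp.single t.2.2.2 1) lam) else 0
    | Sum.inr j => D (κ j) (Finsupp.single e (dg (κ j))) lam, rfl, ?_⟩
  rintro ((_ | ξ | t) | p)
  · simp [rvA, genA, wtA]
  · simp only [rvA, genA, wtA, pow_one]
    exact ev_scale _ x lam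
  · simp only [rvA, genA, wtA, tv]
    split_ifs
    · have hE : ∀ a J, Ev D (lam • x) a J = lam • Ev D x a J + D a J lam • x := fun a J =>
        ev_scale (D a J) x lam
      rw [hE, hE]
      funext l
      simp only [Pi.add_apply, Pi.sub_apply, Pi.smul_apply, smul_eq_mul]
      ring
    · simp
  · simp only [rvA, wtA, pow_one]
    exact ev_scale _ x lam

/-- The sum of the degrees of the rows. -/
def swA (J : Type) [Fintype J] (b : Finset (Gx n ι W)) : ℕ := ∑ i : b ⊕ J, wtA (riA i)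

open scoped Classical in
theorem det_lamA [Fintype J] (x : Fin (n + 1) → K) (lam : K) (e : Fin (n + 1)) (κ : J → ι)
    {b : Finset (Gx n ι W)} (hb : none ∈ b) (σ : b ⊕ J → Fin (n + 1)) :
    (mtA dg D E (lam • x) e κ b σ).det = lam ^ swA J b * (mtA dg D E x e κ b σ).det := by
  obtain ⟨s, hs0, hs⟩ := rv_scaleA (dg := dg) (D := D) (E := E) x lam e κ
  have h1 := Pool.Agent.TH145.GC.det_scale_gen
    (fun (i j : b ⊕ J) => rvA dg D E (lam • x) e κ (riA i) (σ j))
    (fun (i j : b ⊕ J) => rvA dg D E x e κ (riA i) (σ j))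
    (fun i => lam ^ wtA (riA i)) (fun i => s (riA i)) (Sum.inl ⟨none, hb⟩) hs0 (fun i => by
      funext j
      rw [hs]
      rfl)
  rw [Finset.prod_pow_eq_pow_sum] at h1
  exact h1

theorem sw_leA (J : Type) [Fintype J] {b : Finset (Gx n ι W)} (hb : none ∈ b) :
    swA J b + 1 ≤ 2 * b.card + Fintype.card J := by
  classical
  unfold swA
  rw [Fintype.sum_sum_type]
  have h1 : ∑ q : J, wtA (n := n) (ι := ι) (W := W) (riA (b := b) (Sum.inr q)) =
      Fintype.card J := by
    have h2 : ∀ q : J, wtA (n := n) (ι := ι) (W := W) (riA (b := b) (Sum.inr q)) = 1 := fun _ => rfl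
    simp only [h2]
    rw [Finset.sum_const, Finset.card_univ, smul_eq_mul, mul_one]
  rw [h1]
  have h3 : ∑ o : b, wtA (J := J) (riA (Sum.inl o)) + 1 ≤ 2 * b.card := by
    have h4 : ∀ o : b, wtA (J := J) (riA (Sum.inl o)) ≤ 2 := by
      rintro ⟨(_ | _ | _), _⟩
      · exact one_le_two
      · exact one_le_two
      · exact le_rfl
    rw [← Finset.add_sum_erase Finset.univ _ (Finset.mem_univ (⟨none, hb⟩ : b))]
    have h5 : wtA (J := J) (riA (Sum.inl (⟨none, hb⟩ : b))) = 1 := rfl
    have h6 : ∑ o ∈ Finset.univ.erase (⟨none, hb⟩ : b), wtA (J := J) (riA (Sum.inl o)) ≤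
        ∑ o ∈ Finset.univ.erase (⟨none, hb⟩ : b), 2 := Finset.sum_le_sum fun o _ => h4 o
    rw [Finset.sum_const, Finset.card_erase_of_mem (Finset.mem_univ _), Finset.card_univ,
      Fintype.card_coe, smul_eq_mul] at h6
    have h7 : 1 ≤ b.card := Finset.card_pos.2 ⟨_, hb⟩
    rw [h5]
    omega
  omega

theorem Fu_scale_leA (x : Fin (n + 1) → K) (lam : K) :
    FuA dg D E (lam • x) ≤ FuA dg D E x := by
  have hx : x ∈ FuA dg D E x := Submodule.subset_span (Or.inl ⟨none, rfl⟩)
  have hE : ∀ D' : Derivation ℤ K K, ev D' x ∈ FuA dg D E x → ev D' (lam • x) ∈ FuA dg D E x := by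
    intro D' h
    rw [ev_scale]
    exact add_mem (Submodule.smul_mem _ _ h) (Submodule.smul_mem _ _ hx)
  have hg : ∀ o, genA dg D E x o ∈ FuA dg D E x := fun o =>
    Submodule.subset_span (Or.inl ⟨o, rfl⟩)
  unfold FuA
  rw [Submodule.span_le]
  rintro _ (⟨o, rfl⟩ | ⟨p, I, hI, rfl⟩)
  · rcases o with _ | ξ | t
    · exact Submodule.smul_mem _ _ hx
    · exact hE _ (hg (some (Sum.inl ξ)))
    · by_cases ht : t.2.1.degree + 1 = dg t.1
      · have h1 : ∀ l, Ev D (lam • x) t.1 (t.2.1 + Finsupp.single l 1) ∈ FuA dg D E x := fun l =>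
          hE _ (Submodule.subset_span (Or.inr ⟨t.1, _, by
            rw [map_add, Finsupp.degree_single, ht], rfl⟩))
        simp only [genA, tv]
        rw [if_pos ht]
        exact sub_mem (Submodule.smul_mem _ _ (h1 _)) (Submodule.smul_mem _ _ (h1 _))
      · simp only [genA, tv]
        rw [if_neg ht]
        exact zero_mem _
  · exact hE _ (Submodule.subset_span (Or.inr ⟨p, I, hI, rfl⟩))

theorem Fu_scale_eqA (x : Fin (n + 1) → K) {lam : K} (hl : lam ≠ 0) :
    FuA dg D E (lam • x) = FuA dg D E x := by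
  apply le_antisymm (Fu_scale_leA x lam)
  have h1 := Fu_scale_leA (dg := dg) (D := D) (E := E) (lam • x) lam⁻¹
  rwa [smul_smul, inv_mul_cancel₀ hl, one_smul] at h1

open scoped Classical in
/-- A linear functional on the vector fields in terms of the chosen coordinates. -/
theorem exists_coordA [Fintype J] {x : Fin (n + 1) → K} {e1 : Fin (n + 1)} {κ : J → ι}
    {b : Finset (Gx n ι W)} (σ : b ⊕ J → Fin (n + 1))
    (hcard : Module.finrank K (FuA dg D E x) = b.card + Fintype.card J)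
    (hdet : (mtA dg D E x e1 κ b σ).det ≠ 0) (φ : (Fin (n + 1) → K) →ₗ[K] K) :
    ∃ y : b ⊕ J → K, ∀ z ∈ FuA dg D E x, ∑ j, y j * z (σ j) = φ z := by
  obtain ⟨M, hM⟩ : ∃ M, M = mtA dg D E x e1 κ b σ := ⟨_, rfl⟩
  rw [← hM] at hdet
  have hMu : IsUnit M.det := isUnit_iff_ne_zero.2 hdet
  obtain ⟨v, hv⟩ : ∃ v : b ⊕ J → Fin (n + 1) → K,
    ∀ i, v i = rvA dg D E x e1 κ (riA i) := ⟨_, fun _ => rfl⟩
  have hMv : ∀ i j, M i j = v i (σ j) := fun i j => by rw [hM, hv]; rfl
  obtain ⟨y, hy⟩ : ∃ y, y = M⁻¹.mulVec (fun i => φ (v i)) := ⟨_, rfl⟩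
  have hMy : M.mulVec y = fun i => φ (v i) := by
    rw [hy, Matrix.mulVec_mulVec, Matrix.mul_nonsing_inv _ hMu, Matrix.one_mulVec]
  refine ⟨y, ?_⟩
  have hli : LinearIndependent K v := by
    rw [Fintype.linearIndependent_iff]
    intro g hg
    have h1 : M.vecMul g = 0 := by
      funext j
      have h2 := congrFun hg (σ j)
      rw [Finset.sum_apply, Pi.zero_apply] at h2
      rw [Matrix.vecMul, dotProduct, Pi.zero_apply, ← h2]
      refine Finset.sum_congr rfl fun i _ => ?_
      rw [hMv]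
      rfl
    have h2 : g = 0 := Matrix.eq_zero_of_vecMul_eq_zero hdet h1
    intro i
    rw [h2, Pi.zero_apply]
  have hle : Submodule.span K (Set.range v) ≤ FuA dg D E x := by
    rw [Submodule.span_le]
    rintro _ ⟨i, rfl⟩
    rw [hv]
    exact rv_mem_FuA x _ _ _
  have hspan : Submodule.span K (Set.range v) = FuA dg D E x := by
    apply Submodule.eq_of_le_of_finrank_eq hle
    rw [finrank_span_eq_card hli, hcard, Fintype.card_sum, Fintype.card_coe]
  intro z hz
  rw [← hspan, Submodule.mem_span_range_iff_exists_fun] at hz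
  obtain ⟨c, rfl⟩ := hz
  rw [map_sum]
  have h2 : ∀ i, φ (v i) = ∑ j, v i (σ j) * y j := by
    intro i
    rw [← congrFun hMy i, Matrix.mulVec, dotProduct]
    exact Finset.sum_congr rfl fun j _ => by rw [hMv]
  simp only [map_smul, h2, Finset.sum_apply, Pi.smul_apply, smul_eq_mul, Finset.mul_sum]
  rw [Finset.sum_comm]
  refine Finset.sum_congr rfl fun i _ => Finset.sum_congr rfl fun j _ => by ring

end Pool.Agent.T6.H19.DW
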