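import Pool.Agent.T6.H19.DW.Blk

/-!
The frame of the derivatives for families of matrices of forms, and the change of the frame.
-/

set_option autoImplicit false

open MvPolynomial Pool.Agent.TH145.GH FF Pool.Agent.W603.LV Pool.Agent.W603.PV
open scoped Matrix
open Pool.Agent.TH145.GC (Ev Ti tv wv)
open Pool.Agent.T6.H19.DV (ev mnr mna Van Mini wa va wva_der mul_va wa_mul single_both mod_both
  single_mul_entry mul_single_entry wa_inr va_inr pa qa det_wa det_va mna_eq)

namespace Pool.Agent.T6.H19.DW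

variable {A : Type} {R S : A → Type} {K : Type} [Field K] {n : ℕ}
  [Fintype A] [∀ a, Fintype (R a)] [∀ a, Fintype (S a)] [∀ a, DecidableEq (R a)]
  [∀ a, DecidableEq (S a)] {ρ r' s' : A → ℕ}
  {F : Ib R S → MvPolynomial (Fin (n + 1)) K} {d : A → ℕ}
  {D : Ib R S → (Fin (n + 1) →₀ ℕ) → Derivation ℤ K K}

/-- The matrices of the values. -/
noncomputable def Nb (F : Ib R S → MvPolynomial (Fin (n + 1)) K) (x : Fin (n + 1) → K) (a : A) :
    Matrix (R a) (S a) K := prb a (zv F x)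

/-- The degrees of the entries. -/
def db (R S : A → Type) (d : A → ℕ) (p : Ib R S) : ℕ := d p.1

/-- The derivations of the operations. -/
noncomputable def Eb (F : Ib R S → MvPolynomial (Fin (n + 1)) K)
    (D : Ib R S → (Fin (n + 1) →₀ ℕ) → Derivation ℤ K K) (ξ : Wb R S) : Derivation ℤ K K :=
  Op F D (aop ξ)

/-- The indices of the frame. -/
abbrev Jb (r' s' : A → ℕ) : Type := (a : A) × (Fin (r' a) × Fin (s' a))

/-- The frame. -/
def κb (α : ∀ a, Fin (ρ a) ⊕ Fin (r' a) ≃ R a) (β : ∀ a, Fin (ρ a) ⊕ Fin (s' a) ≃ S a)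
    (j : Jb r' s') : Ib R S :=
  ⟨j.1, (α j.1 (Sum.inr j.2.1), β j.1 (Sum.inr j.2.2))⟩

variable {α : ∀ a, Fin (ρ a) ⊕ Fin (r' a) ≃ R a} {β : ∀ a, Fin (ρ a) ⊕ Fin (s' a) ≃ S a}
  {x : Fin (n + 1) → K}

theorem vn_b (e : Fin (n + 1)) (a : A) (i : R a) (j : S a) :
    vn (db R S d) D x e ⟨a, (i, j)⟩ =
      (x e ^ d a)⁻¹ • Ev D x ⟨a, (i, j)⟩ (Finsupp.single e (d a)) := rfl

omit [Fintype A] [∀ a, Fintype (R a)] [∀ a, Fintype (S a)] [∀ a, DecidableEq (R a)]
  [∀ a, DecidableEq (S a)] in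
theorem had_b (ξ : Wb R S) (p p' : Ib R S) (h : db R S d p ≠ db R S d p') :
    (aop ξ p p' : K) = 0 := aop_deg ξ p p' h

theorem gen_b (ξ : Wb R S) : ev (Op F D (aop ξ)) x ∈ SpA (db R S d) D (Eb F D) x :=
  gen_memA (dg := db R S d) (D := D) (E := Eb F D) x (some (Sum.inl ξ))

/-- The relations between the derivatives. -/
theorem rel_b (hF : SysG F (db R S d) Gd D) {e : Fin (n + 1)} (he : x e ≠ 0) (ξ : Wb R S)
    {C : Ib R S → K} (hC : (fun p => ∑ p', aop ξ p p' * zv F x p') = C) :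
    ∑ p, C p • vn (db R S d) D x e p ∈ SpA (db R S d) D (Eb F D) x := by
  have h1 := rel_Op (E := Eb F D) hF (a := aop ξ) (fun p p' h => had_b ξ p p' h) x he (gen_b ξ)
  rw [← hC]
  exact h1

/-- The derivatives in terms of the chosen ones. -/
theorem Ev_modB (hF : SysG F (db R S d) Gd D) {e : Fin (n + 1)} (he : x e ≠ 0) {a : A}
    (hm : mna (Nb F x a) (α a) (β a) ≠ 0) (i : R a) (j : S a) {I : Fin (n + 1) →₀ ℕ}
    (hI : I.degree = d a) :
    Ev D x ⟨a, (i, j)⟩ I - (mon x I / x e ^ d a) • ∑ i1, ∑ j1,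
      (wa (Nb F x a) (α a) (β a) i1 i * va (Nb F x a) (α a) (β a) j j1) •
        Ev D x (⟨a, (α a (Sum.inr i1), β a (Sum.inr j1))⟩ : Ib R S) (Finsupp.single e (d a)) ∈
      SpA (db R S d) D (Eb F D) x := by
  have hrow : ∀ i i', ∑ j, Nb F x a i' j • vn (db R S d) D x e ⟨a, (i, j)⟩ ∈
      SpA (db R S d) D (Eb F D) x := by
    intro i i'
    have h1 := rel_b hF he ⟨a, Sum.inl (i, i')⟩ (aop_left a i i' (zv F x))
    rw [sum_bkb, Finset.sum_eq_single i] at h1
    · simp only [single_mul_entry, if_true] at h1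
      exact h1
    · intro i1 _ hi
      refine Finset.sum_eq_zero fun j _ => ?_
      rw [single_mul_entry, if_neg hi.symm, zero_smul]
    · intro h; exact absurd (Finset.mem_univ _) h
  have hcol : ∀ j j', ∑ i, Nb F x a i j' • vn (db R S d) D x e ⟨a, (i, j)⟩ ∈
      SpA (db R S d) D (Eb F D) x := by
    intro j j'
    have h1 := rel_b hF he ⟨a, Sum.inr (j, j')⟩ (aop_right a j j' (zv F x))
    rw [sum_bkb] at h1
    convert h1 using 1
    refine Finset.sum_congr rfl fun i _ => ?_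
    rw [Finset.sum_eq_single j]
    · rw [mul_single_entry, if_pos rfl]
      rfl
    · intro j1 _ hj
      rw [mul_single_entry, if_neg hj.symm, zero_smul]
    · intro h; exact absurd (Finset.mem_univ _) h
  have h1 := Ev_vn (dg := db R S d) (D := D) (E := Eb F D) x he ⟨a, (i, j)⟩ (I := I) hI
  have h2 := mod_both (α a) (β a) hm (SpA (db R S d) D (Eb F D) x)
    (fun i j => vn (db R S d) D x e ⟨a, (i, j)⟩) (fun i i' => hrow i i')
    (fun j j' => hcol j j') i j
  have h3 := add_mem h1 (Submodule.smul_mem _ (mon x I) h2)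
  convert h3 using 1
  rw [smul_sub, ← add_sub_assoc, sub_add_cancel]
  congr 1
  simp only [vn_b, Finset.smul_sum, smul_smul]
  refine Finset.sum_congr rfl fun i1 _ => Finset.sum_congr rfl fun j1 _ => ?_
  congr 1
  unfold wa va
  ring

/-- The functional that detects the normal directions of the matrix number `a`. -/
noncomputable def Phb (F : Ib R S → MvPolynomial (Fin (n + 1)) K) (x : Fin (n + 1) → K)
    (α : ∀ a, Fin (ρ a) ⊕ Fin (r' a) ≃ R a) (β : ∀ a, Fin (ρ a) ⊕ Fin (s' a) ≃ S a) (a : A) :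
    (Fin (n + 1) → K) →ₗ[K] Matrix (Fin (r' a)) (Fin (s' a)) K where
  toFun z := wa (Nb F x a) (α a) (β a) * prb a (dV F x z) * va (Nb F x a) (α a) (β a)
  map_add' y z := by rw [map_add, map_add, Matrix.mul_add, Matrix.add_mul]
  map_smul' c z := by rw [map_smul, map_smul, Matrix.mul_smul, Matrix.smul_mul]; rfl

theorem Phb_apply (a : A) (z : Fin (n + 1) → K) : Phb F x α β a z =
    wa (Nb F x a) (α a) (β a) * prb a (dV F x z) * va (Nb F x a) (α a) (β a) := rfl

theorem prb_der (a : A) (Δ : Derivation ℤ K K) :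
    prb a (fun p => Δ (zv F x p)) = (Nb F x a).map Δ := rfl

theorem Phb_gen (hF : SysG F (db R S d) Gd D) {a : A} (hv : Van (Nb F x a) (ρ a + 1))
    (hm : mna (Nb F x a) (α a) (β a) ≠ 0) (o : Gx n (Ib R S) (Wb R S)) :
    Phb F x α β a (genA (db R S d) D (Eb F D) x o) = 0 := by
  have hder : ∀ Δ : Derivation ℤ K K, wa (Nb F x a) (α a) (β a) * (Nb F x a).map Δ *
      va (Nb F x a) (α a) (β a) = 0 := wva_der hv hm
  rw [Phb_apply]
  rcases o with _ | ⟨a', ⟨i, i'⟩ | ⟨j, j'⟩⟩ | t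
  · simp only [genA]
    rw [dV_self hF]
    have h1 : prb a (fun p => ((db R S d p : ℕ) : K) * zv F x p) = (d a : K) • Nb F x a := rfl
    rw [h1, Matrix.mul_smul, wa_mul hv hm, smul_zero, Matrix.zero_mul]
  · simp only [genA, Eb]
    rw [dV_ev, mcv_Op hF (fun p p' h => had_b _ p p' h), sum_Gd, aop_left, map_sub, prb_der, Matrix.mul_sub,
      Matrix.sub_mul, hder, zero_sub, neg_eq_zero]
    by_cases h : a = a'
    · subst h
      rw [prb_bkb]
      change wa (Nb F x a) (α a) (β a) * ((Matrix.single i i' (1 : K) : Matrix (R a) (R a) K) *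
        Nb F x a) * va (Nb F x a) (α a) (β a) = 0
      rw [Matrix.mul_assoc, Matrix.mul_assoc, mul_va hv hm, Matrix.mul_zero, Matrix.mul_zero]
    · rw [prb_bkb_ne h, Matrix.mul_zero, Matrix.zero_mul]
  · simp only [genA, Eb]
    rw [dV_ev, mcv_Op hF (fun p p' h => had_b _ p p' h), sum_Gd, aop_right, map_sub, prb_der, Matrix.mul_sub,
      Matrix.sub_mul, hder, zero_sub, neg_eq_zero]
    by_cases h : a = a'
    · subst h
      rw [prb_bkb]
      change wa (Nb F x a) (α a) (β a) * (Nb F x a *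
        (Matrix.single j' j (1 : K) : Matrix (S a) (S a) K)) * va (Nb F x a) (α a) (β a) = 0
      rw [← Matrix.mul_assoc, wa_mul hv hm, Matrix.zero_mul, Matrix.zero_mul]
    · rw [prb_bkb_ne h, Matrix.mul_zero, Matrix.zero_mul]
  · simp only [genA]
    rw [dV_tv hF]
    split_ifs with ht
    · rw [map_sub, map_smul, map_smul, prb_der, prb_der, Matrix.mul_sub, Matrix.sub_mul,
        Matrix.mul_smul, Matrix.mul_smul, Matrix.smul_mul, Matrix.smul_mul, hder, hder, smul_zero,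
        smul_zero, sub_zero]
    · rw [map_zero, Matrix.mul_zero, Matrix.zero_mul]

theorem Phb_Sp (hF : SysG F (db R S d) Gd D) {a : A} (hv : Van (Nb F x a) (ρ a + 1))
    (hm : mna (Nb F x a) (α a) (β a) ≠ 0) {z : Fin (n + 1) → K}
    (hz : z ∈ SpA (db R S d) D (Eb F D) x) : Phb F x α β a z = 0 := by
  have h1 : SpA (db R S d) D (Eb F D) x ≤ LinearMap.ker (Phb F x α β a) := by
    unfold SpA
    rw [Submodule.span_le]
    rintro _ ⟨o, rfl⟩
    exact Phb_gen hF hv hm o
  exact h1 hz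

theorem Phb_Ev (hF : SysG F (db R S d) Gd D) {a : A} (hv : Van (Nb F x a) (ρ a + 1))
    (hm : mna (Nb F x a) (α a) (β a) ≠ 0) (i : R a) (j : S a)
    {I : Fin (n + 1) →₀ ℕ} (hI : I.degree = d a) (i1 : Fin (r' a)) (j1 : Fin (s' a)) :
    Phb F x α β a (Ev D x ⟨a, (i, j)⟩ I) i1 j1 =
      -(mon x I * (wa (Nb F x a) (α a) (β a) i1 i * va (Nb F x a) (α a) (β a) j j1)) := by
  rw [Phb_apply, dV_Ev hF x _ hI, map_sub, map_smul, prb_der, prb_Gd, Matrix.mul_sub,
    Matrix.sub_mul, wva_der hv hm, zero_sub, Matrix.mul_smul, Matrix.smul_mul, Matrix.neg_apply,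
    Matrix.smul_apply, single_both, smul_eq_mul]

theorem Phb_Ev_ne (hF : SysG F (db R S d) Gd D) {a a' : A} (h : a ≠ a')
    (hv : Van (Nb F x a) (ρ a + 1))
    (hm : mna (Nb F x a) (α a) (β a) ≠ 0) (q : R a' × S a')
    {I : Fin (n + 1) →₀ ℕ} (hI : I.degree = d a') :
    Phb F x α β a (Ev D x ⟨a', q⟩ I) = 0 := by
  rw [Phb_apply, dV_Ev hF x _ hI, map_sub, map_smul, prb_der, prb_Gd_ne h, Matrix.mul_sub,
    Matrix.sub_mul, wva_der hv hm, smul_zero, Matrix.mul_zero, Matrix.zero_mul, sub_zero]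

theorem frameB (hF : SysG F (db R S d) Gd D) {e : Fin (n + 1)} (he : x e ≠ 0)
    (hv : ∀ a, Van (Nb F x a) (ρ a + 1)) (hm : ∀ a, mna (Nb F x a) (α a) (β a) ≠ 0) :
    Frame (db R S d) D (Eb F D) x e (κb α β) := by
  classical
  refine ⟨?_, ?_⟩
  · rintro ⟨a, i, j⟩
    have h1 := Ev_modB (D := D) hF he (hm a) i j (I := Finsupp.single e (d a))
      (Finsupp.degree_single _ _)
    obtain ⟨z, hz⟩ : ∃ z, z = (mon x (Finsupp.single e (d a)) / x e ^ d a) • ∑ i1, ∑ j1,
      (wa (Nb F x a) (α a) (β a) i1 i * va (Nb F x a) (α a) (β a) j j1) •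
        Ev D x (⟨a, (α a (Sum.inr i1), β a (Sum.inr j1))⟩ : Ib R S)
          (Finsupp.single e (d a)) := ⟨_, rfl⟩
    rw [← hz] at h1
    have h2 : Ev D x ⟨a, (i, j)⟩ (Finsupp.single e (d a)) =
        (Ev D x ⟨a, (i, j)⟩ (Finsupp.single e (d a)) - z) + z := (sub_add_cancel _ _).symm
    change Ev D x ⟨a, (i, j)⟩ (Finsupp.single e (d a)) ∈ _
    rw [h2]
    refine Submodule.add_mem_sup h1 ?_
    rw [hz]
    refine Submodule.smul_mem _ _ (sum_mem fun i1 _ => sum_mem fun j1 _ =>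
      Submodule.smul_mem _ _ (Submodule.subset_span ⟨⟨a, (i1, j1)⟩, rfl⟩))
  · obtain ⟨Φ, hΦ⟩ : ∃ Φ : (Fin (n + 1) → K) →ₗ[K] (Jb r' s' → K), ∀ z j,
        Φ z j = Phb F x α β j.1 z j.2.1 j.2.2 := by
      refine ⟨{ toFun := fun z j => Phb F x α β j.1 z j.2.1 j.2.2
                map_add' := fun y z => ?_
                map_smul' := fun c z => ?_ }, fun _ _ => rfl⟩
      · funext j
        rw [map_add]
        rfl
      · funext j
        rw [map_smul]
        rfl
    refine ⟨Φ, fun z hz => ?_, ?_⟩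
    · funext j
      rw [hΦ, Phb_Sp hF (hv _) (hm _) hz]
      rfl
    · rw [Fintype.linearIndependent_iff]
      intro c hc j0
      have h1 := congrFun hc j0
      rw [Finset.sum_apply, Finset.sum_eq_single j0] at h1
      · rw [Pi.smul_apply, hΦ, Pi.zero_apply] at h1
        have h2 : Phb F x α β j0.1 (Ev D x (κb α β j0)
            (Finsupp.single e (db R S d (κb α β j0)))) j0.2.1 j0.2.2 = -(x e ^ d j0.1) := by
          have h3 := Phb_Ev (D := D) hF (hv j0.1) (hm j0.1) (α j0.1 (Sum.inr j0.2.1))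
            (β j0.1 (Sum.inr j0.2.2)) (I := Finsupp.single e (d j0.1))
            (Finsupp.degree_single _ _) j0.2.1 j0.2.2
          rw [wa_inr, va_inr, if_pos rfl, if_pos rfl, mul_one, mul_one, mon_single] at h3
          exact h3
        rw [h2, smul_eq_mul] at h1
        exact (mul_eq_zero.1 h1).resolve_right (neg_ne_zero.2 (pow_ne_zero _ he))
      · rintro ⟨a, i, j⟩ _ hne
        rw [Pi.smul_apply, hΦ]
        by_cases ha : j0.1 = a
        · subst ha
          have h3 := Phb_Ev (D := D) hF (hv j0.1) (hm j0.1) (α j0.1 (Sum.inr i))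
            (β j0.1 (Sum.inr j)) (I := Finsupp.single e (d j0.1))
            (Finsupp.degree_single _ _) j0.2.1 j0.2.2
          rw [wa_inr, va_inr] at h3
          have h4 : (if j0.2.1 = i then (1 : K) else 0) * (if j = j0.2.2 then 1 else 0) = 0 := by
            by_cases h5 : j0.2.1 = i
            · by_cases h6 : j = j0.2.2
              · exfalso
                apply hne
                rw [← h5, h6]
              · rw [if_neg h6, mul_zero]
            · rw [if_neg h5, zero_mul]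
          rw [h4, mul_zero, neg_zero] at h3
          change c ⟨j0.1, (i, j)⟩ • Phb F x α β j0.1 (Ev D x (⟨j0.1, (α j0.1 (Sum.inr i),
            β j0.1 (Sum.inr j))⟩ : Ib R S) (Finsupp.single e (d j0.1))) j0.2.1 j0.2.2 = 0
          rw [h3, smul_zero]
        · have h3 := Phb_Ev_ne (D := D) hF ha (hv j0.1) (hm j0.1)
            (α a (Sum.inr i), β a (Sum.inr j)) (I := Finsupp.single e (d a))
            (Finsupp.degree_single _ _)
          change c ⟨a, (i, j)⟩ • Phb F x α β j0.1 (Ev D x (⟨a, (α a (Sum.inr i),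
            β a (Sum.inr j))⟩ : Ib R S) (Finsupp.single e (d a))) j0.2.1 j0.2.2 = 0
          rw [h3, Matrix.zero_apply, smul_zero]
      · intro h; exact absurd (Finset.mem_univ _) h

variable {α0 α1 : ∀ a, Fin (ρ a) ⊕ Fin (r' a) ≃ R a} {β0 β1 : ∀ a, Fin (ρ a) ⊕ Fin (s' a) ≃ S a}

open scoped Classical in
theorem det_changeB (hF : SysG F (db R S d) Gd D) (e0 : Fin (n + 1)) {e1 : Fin (n + 1)}
    (he1 : x e1 ≠ 0) (hm1 : ∀ a, mna (Nb F x a) (α1 a) (β1 a) ≠ 0)
    {b : Finset (Gx n (Ib R S) (Wb R S))} (σ : b ⊕ Jb r' s' → Fin (n + 1))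
    (hspan : SpA (db R S d) D (Eb F D) x ≤
      Submodule.span K (genA (db R S d) D (Eb F D) x '' b)) :
    ∃ ε : A → K, (∀ a, ε a = 1 ∨ ε a = -1) ∧
      (mtA (db R S d) D (Eb F D) x e0 (κb α0 β0) b σ).det =
      (∏ a, (ε a * ((x e0 ^ d a / x e1 ^ d a) ^ (r' a * s' a) *
        (((pa (Nb F x a) (α1 a) (β1 a)).submatrix (α0 a ∘ Sum.inl) id).det ^ s' a *
        ((qa (Nb F x a) (α1 a) (β1 a)).submatrix id (β0 a ∘ Sum.inl)).det ^ r' a)))) *
        (mtA (db R S d) D (Eb F D) x e1 (κb α1 β1) b σ).det := by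
  obtain ⟨B, hB⟩ : ∃ B : ∀ a, Matrix (Fin (r' a) × Fin (s' a)) (Fin (r' a) × Fin (s' a)) K,
      ∀ a, B a = (x e0 ^ d a / x e1 ^ d a) • Matrix.kroneckerMap (· * ·)
        ((wa (Nb F x a) (α1 a) (β1 a)).submatrix id (α0 a ∘ Sum.inr))ᵀ
        ((va (Nb F x a) (α1 a) (β1 a)).submatrix (β0 a ∘ Sum.inr) id) := ⟨_, fun _ => rfl⟩
  have h0 := det_changeA (dg := db R S d) (D := D) (E := Eb F D) (x := x) (e0 := e0) (e1 := e1)
    (κ0 := κb α0 β0) (κ1 := κb α1 β1) σ hspan (Matrix.blockDiagonal' B) (by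
      rintro ⟨a, i, j⟩
      have h1 := Ev_modB (D := D) hF he1 (hm1 a) (α0 a (Sum.inr i)) (β0 a (Sum.inr j))
        (I := Finsupp.single e0 (d a)) (Finsupp.degree_single _ _)
      have e2 : ∀ u u' v : Fin (n + 1) → K, u = u' →
          v - u' ∈ SpA (db R S d) D (Eb F D) x → v - u ∈ SpA (db R S d) D (Eb F D) x := by
        rintro u u' v rfl h
        exact h
      refine e2 _ _ _ ?_ h1
      rw [Fintype.sum_sigma, Finset.sum_eq_single a]
      · rw [Fintype.sum_prod_type, Finset.smul_sum]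
        refine Finset.sum_congr rfl fun i1 _ => ?_
        rw [Finset.smul_sum]
        refine Finset.sum_congr rfl fun j1 _ => ?_
        rw [Matrix.blockDiagonal'_apply_eq, hB, smul_smul, mon_single]
        rfl
      · intro a' _ ha'
        refine Finset.sum_eq_zero fun q _ => ?_
        rw [Matrix.blockDiagonal'_apply_ne _ _ _ ha'.symm, zero_smul]
      · intro h; exact absurd (Finset.mem_univ _) h)
  have h1 : (Matrix.blockDiagonal' B).det = ∏ a, (B a).det :=
    det_blk _ _ (fun a i j => Matrix.blockDiagonal'_apply_eq _ _ _ _)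
      fun a a' i j h => Matrix.blockDiagonal'_apply_ne _ _ _ h
  choose ε1 hε1 h2 using fun a => det_wa (α0 := α0 a) (hm1 a)
  choose ε2 hε2 h3 using fun a => det_va (β0 := β0 a) (hm1 a)
  have h4 : ∀ a, (B a).det = (x e0 ^ d a / x e1 ^ d a) ^ (r' a * s' a) *
      ((ε1 a * ((pa (Nb F x a) (α1 a) (β1 a)).submatrix (α0 a ∘ Sum.inl) id).det) ^ s' a *
      (ε2 a * ((qa (Nb F x a) (α1 a) (β1 a)).submatrix id (β0 a ∘ Sum.inl)).det) ^ r' a) := by
    intro a
    rw [hB, Matrix.det_smul, Fintype.card_prod, Fintype.card_fin, Fintype.card_fin]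
    have h5 := Matrix.det_kronecker
        ((wa (Nb F x a) (α1 a) (β1 a)).submatrix id (α0 a ∘ Sum.inr))ᵀ
        ((va (Nb F x a) (α1 a) (β1 a)).submatrix (β0 a ∘ Sum.inr) id)
    rw [Fintype.card_fin, Fintype.card_fin, Matrix.det_transpose, h2, h3] at h5
    rw [← h5]
  refine ⟨fun a => ε1 a ^ s' a * ε2 a ^ r' a, fun a => ?_, ?_⟩
  · have h5 : ∀ (ε : K) (m : ℕ), (ε = 1 ∨ ε = -1) → (ε ^ m = 1 ∨ ε ^ m = -1) := by
      rintro ε m (rfl | rfl)
      · left; rw [one_pow]
      · exact neg_one_pow_eq_or K m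
    dsimp only
    rcases h5 (ε1 a) (s' a) (hε1 a) with h | h <;>
      rcases h5 (ε2 a) (r' a) (hε2 a) with h' | h' <;> rw [h, h'] <;> simp
  · have h5 : (Matrix.blockDiagonal' B).det = ∏ a, (ε1 a ^ s' a * ε2 a ^ r' a *
        ((x e0 ^ d a / x e1 ^ d a) ^ (r' a * s' a) *
        (((pa (Nb F x a) (α1 a) (β1 a)).submatrix (α0 a ∘ Sum.inl) id).det ^ s' a *
        ((qa (Nb F x a) (α1 a) (β1 a)).submatrix id (β0 a ∘ Sum.inl)).det ^ r' a))) := by
      rw [h1]
      refine Finset.prod_congr rfl fun a _ => ?_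
      rw [h4, mul_pow, mul_pow]
      ring
    rw [← h5]
    exact (det_inst _ _ _).trans (h0.trans
      (congrArg₂ (· * ·) (det_inst _ _ _) (det_inst _ _ _)))

end Pool.Agent.T6.H19.DW
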