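import Pool.Agent.T6.H19.DW.BLoc
import Pool.Agent.TH812.GV.Dim

/-!
The height inequality for families of matrices of forms.
-/

set_option autoImplicit false

open MvPolynomial Pool.Agent.TH145.GH FF Pool.Agent.W603.LV Pool.Agent.W603.PV
open Pool.Agent.TH812.GV2 (Loc exists_locd)
open Pool.Agent.TH812.GV
open Pool.Agent.TH145.GC (Ev Ti tv wv ge_det exists_minor)
open Pool.Agent.T6.H19.DV (ev mnr mna Van Mini)

namespace Pool.Agent.T6.H19.DW

section loc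

variable {k K : Type} [Field k] [Field K] [Algebra k K] [IsAlgClosed k] [CharZero k] [IsFF k K]

theorem loc_sub {P : Place k K} {δ : Derivation ℤ K K} (hδ : Loc P δ) (g : ℤ) (f : K)
    (hf : Ge P g f) : Ge P (g - 1) (δ f) := by
  have hπ := ord_unif P
  have hπ0 : unif P ≠ 0 := by
    intro h
    rw [h, P.ord_zero] at hπ; omega
  obtain ⟨u, hu⟩ : ∃ u, u = f * unif P ^ (-g) := ⟨_, rfl⟩
  have hz : ∀ m : ℤ, Ge P m (unif P ^ m) := fun m => by
    right; rw [P.ord_zpow, hπ, mul_one]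
  have hu0 : Ge P 0 u := by
    rw [hu]
    exact (hf.mul (hz (-g))).mono (by omega)
  have hf' : f = u * unif P ^ g := by
    rw [hu, mul_assoc, ← zpow_add₀ hπ0]; simp
  have e : δ f = unif P ^ g * δ u + u * ((g : K) * unif P ^ (g - 1)) := by
    rw [hf', δ.leibniz, Derivation.leibniz_zpow, hδ.1]
    simp only [smul_eq_mul, zsmul_eq_mul]
    ring
  have hg : Ge P 0 ((g : ℤ) : K) := by
    rcases Int.eq_nat_or_neg g with ⟨m, hm | hm⟩
    · rw [hm, Int.cast_natCast]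
      exact Ge.natCast m
    · rw [hm, Int.cast_neg, Int.cast_natCast]
      exact (Ge.natCast m).neg
  rw [e]
  exact (((hz g).mul (hδ.2.2 u hu0)).mono (by omega)).add
    ((hu0.mul (hg.mul (hz (g - 1)))).mono (by omega))

end loc

variable {A : Type} {R S : A → Type} {k K : Type} [Field k] [Field K] [Algebra k K] {n : ℕ}
  [Fintype A] [∀ a, Fintype (R a)] [∀ a, Fintype (S a)] [∀ a, DecidableEq (R a)]
  [∀ a, DecidableEq (S a)] {ρ r' s' : A → ℕ}
  {F : Ib R S → MvPolynomial (Fin (n + 1)) K} {d : A → ℕ}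
  {D : Ib R S → (Fin (n + 1) →₀ ℕ) → Derivation ℤ K K}
  {α : ∀ a, Fin (ρ a) ⊕ Fin (r' a) ≃ R a} {β : ∀ a, Fin (ρ a) ⊕ Fin (s' a) ≃ S a}
  {s e c : Place k K → ℤ}

variable [IsAlgClosed k] [CharZero k] [IsFF k K]

/-- The data of the inequality. -/
structure SysB (k : Type) {K : Type} [Field k] [Field K] [Algebra k K] [IsAlgClosed k]
    [CharZero k] [IsFF k K] {A : Type} {R S : A → Type} [Fintype A] [∀ a, Fintype (R a)]
    [∀ a, Fintype (S a)] {n : ℕ} (F : Ib R S → MvPolynomial (Fin (n + 1)) K) (d : A → ℕ)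
    (D : Ib R S → (Fin (n + 1) →₀ ℕ) → Derivation ℤ K K) (s e c : Place k K → ℤ) : Prop where
  sys : SysG F (db R S d) Gd D
  snn : ∀ P, 0 ≤ s P
  enn : ∀ P, 0 ≤ e P
  cnn : ∀ P, 0 ≤ c P
  coef : ∀ P p u, Ge P (-(c P)) ((F p).coeff u)
  loss : ∀ P δ, Loc P δ → ∀ p (I : Fin (n + 1) →₀ ℕ), I.degree = db R S d p →
    Loss P (unif P) δ (s P) (e P) (D p I)
  lossE : ∀ P δ, Loc P δ → ∀ ξ, Loss P (unif P) δ (s P) (e P) (Eb F D ξ)
  sfin : {P | s P ≠ 0}.Finite
  efin : {P | e P ≠ 0}.Finite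
  cfin : {P | c P ≠ 0}.Finite

open scoped Classical in
/-- The contribution of a place to the counting function. -/
noncomputable def cntB (F : Ib R S → MvPolynomial (Fin (n + 1)) K) (d : A → ℕ)
    (x : Fin (n + 1) → K) (α : ∀ a, Fin (ρ a) ⊕ Fin (r' a) ≃ R a)
    (β : ∀ a, Fin (ρ a) ⊕ Fin (s' a) ≃ S a) (O : Finset A) (P : Place k K) : ℤ :=
  if ∃ a ∈ O, ((d a * ρ a : ℕ) : ℤ) * pord P x < P.ord (mna (Nb F x a) (α a) (β a)) then 1 else 0

theorem ineqB (hS : SysB k F d D s e c) {x : Fin (n + 1) → K} (hx0 : x ≠ 0) {m : ℕ}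
    (hrk : Module.finrank K (FuA (db R S d) D (Eb F D) x) ≤ m + 1)
    (hv : ∀ a, Van (Nb F x a) (ρ a + 1))
    (hm : ∀ a, mna (Nb F x a) (α a) (β a) ≠ 0) (hrs : ∀ a, s' a ≤ r' a)
    {O : Finset A} (hO : ∀ a ∈ O, r' a = 0 ∧ s' a = 0) :
    (∑ a, ((s' a * (d a * (ρ a + r' a) + r' a) : ℕ) : ℤ) + ∑ a ∈ O, ((d a * ρ a : ℕ) : ℤ) -
      2 * m - 1) * pht k x ≤
      ∑ᶠ P : Place k K, (cntB F d x α β O P + (c P + (e P + ((n + 1) + Bd R S) * s P))) := by
  classical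
  obtain ⟨e0, he0⟩ := Function.ne_iff.1 hx0
  have he0' : x e0 ≠ 0 := he0
  obtain ⟨b, hb0, hbi, hspan, hcard⟩ := exists_rowsA he0' (frameB hS.sys he0' hv hm)
  obtain ⟨σ, hσ⟩ := exists_minor _ hbi
  have hdet : dtA (db R S d) D (Eb F D) x e0 (κb α β) b σ ≠ 0 := by
    rw [← dtA_eq]
    unfold mtA
    convert hσ
  have hpht : 0 ≤ pht k x :=
    (hgt_nonneg _).trans (Pool.Agent.W603.CX.hgt_le_pht (k := k) x he0 he0)
  have hsw := sw_leA (Jb r' s') hb0
  obtain ⟨Θ, hΘ⟩ : ∃ Θ, Θ = Th F d x e0 α β O (dtA (db R S d) D (Eb F D) x e0 (κb α β) b σ) :=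
    ⟨_, rfl⟩
  obtain ⟨w, hw⟩ : ∃ w : ℤ, w = (((swA (Jb r' s') b : ℕ) : ℤ) -
    ∑ a, ((s' a * (d a * (ρ a + r' a)) : ℕ) : ℤ) - ∑ a ∈ O, ((d a * ρ a : ℕ) : ℤ)) := ⟨_, rfl⟩
  obtain ⟨C, hC⟩ : ∃ C : Place k K → ℤ, ∀ P, C P =
    cntB F d x α β O P + (c P + (e P + ((n + 1) + Bd R S) * s P)) := ⟨_, fun _ => rfl⟩
  have hloc : ∀ P : Place k K, w * pord P x - C P ≤ P.ord Θ := by
    intro P
    obtain ⟨δ, hδ⟩ := exists_locd P
    have h1 := local_blk P (loc_sub hδ) hδ.2.2 hS.sys (hS.snn P) (hS.enn P) (hS.cnn P)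
      (hS.coef P) (hS.loss P δ hδ) (hS.lossE P δ hδ) he0' hv hm hrs hb0 σ hspan hcard hdet hO
    rw [← hw, ← hΘ] at h1
    have h2 : cntB F d x α β O P = if ∃ a ∈ O, ((d a * ρ a : ℕ) : ℤ) * pord P x <
      P.ord (mna (Nb F x a) (α a) (β a)) then 1 else 0 := by
      unfold cntB
      congr!
    rw [hC, h2]
    linarith
  have hΘ0 : Θ ≠ 0 := by
    rw [hΘ]
    unfold Th
    exact div_ne_zero hdet (mul_ne_zero (Finset.prod_ne_zero_iff.2 fun a _ =>
      mul_ne_zero (pow_ne_zero _ (hm a)) (pow_ne_zero _ (pow_ne_zero _ he0')))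
      (Finset.prod_ne_zero_iff.2 fun a _ => hm a))
  have hp := pord_finite (k := k) (Function.ne_iff.1 hx0)
  have hCfin : {P | C P ≠ 0}.Finite := by
    have h1 : (⋃ a : A, {P : Place k K | P.ord (mna (Nb F x a) (α a) (β a)) ≠ 0}).Finite :=
      Set.finite_iUnion fun a => finite_ne
    refine ((((h1.union hp).union hS.sfin).union hS.efin).union hS.cfin).subset fun P hP => ?_
    by_contra hcon
    simp only [Set.mem_union, Set.mem_iUnion, Set.mem_ofPred_eq, not_or, not_exists, not_not] at hcon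
    obtain ⟨⟨⟨⟨h2, h3⟩, h4⟩, h5⟩, h6⟩ := hcon
    have h3' : pord P x = 0 := by
      by_contra h
      exact h3 h
    apply hP
    rw [hC, h4, h5, h6, mul_zero, add_zero, add_zero, add_zero]
    unfold cntB
    rw [if_neg]
    rintro ⟨a, -, h7⟩
    rw [h2 a, h3', mul_zero] at h7
    exact lt_irrefl _ h7
  obtain ⟨T1, hT1⟩ := exists_supp (k := k) (Finset.univ : Finset Unit) (fun _ => Θ)
  obtain ⟨U, hU⟩ : ∃ U : Finset (Place k K), U = T1 ∪ (hp.toFinset ∪ hCfin.toFinset) := ⟨_, rfl⟩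
  have g1 : ∑ P ∈ U, P.ord Θ = 0 := sum_ord_finset _ _ fun P hP => by
    rw [hU]; exact Finset.mem_union_left _ (hT1 () (Finset.mem_univ _) P hP)
  have g2 : pht k x = - ∑ P ∈ U, pord P x := by
    unfold pht
    rw [finsum_eq_sum_of_support_subset (s := U)]
    intro P hP
    rw [hU]
    exact Finset.mem_union_right _ (Finset.mem_union_left _ (hp.mem_toFinset.2 hP))
  have g3 : ∑ᶠ P, C P = ∑ P ∈ U, C P := by
    rw [finsum_eq_sum_of_support_subset (s := U)]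
    intro P hP
    rw [hU]
    exact Finset.mem_union_right _ (Finset.mem_union_right _ (hCfin.mem_toFinset.2 hP))
  have g4 := Finset.sum_le_sum (s := U) fun P _ => hloc P
  rw [Finset.sum_sub_distrib, ← Finset.mul_sum, g1, ← g3] at g4
  have g5 : -w * pht k x ≤ ∑ᶠ P, C P := by
    have : w * ∑ P ∈ U, pord P x = -w * pht k x := by rw [g2]; ring
    rw [this] at g4
    linarith
  have g6 : ∑ a, ((s' a * (d a * (ρ a + r' a) + r' a) : ℕ) : ℤ) +
      ∑ a ∈ O, ((d a * ρ a : ℕ) : ℤ) - 2 * m - 1 ≤ -w := by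
    have h1 : ∑ a, ((s' a * (d a * (ρ a + r' a) + r' a) : ℕ) : ℤ) =
        ∑ a, ((s' a * (d a * (ρ a + r' a)) : ℕ) : ℤ) + (Fintype.card (Jb r' s') : ℤ) := by
      rw [Fintype.card_sigma]
      simp only [Fintype.card_prod, Fintype.card_fin]
      push_cast
      rw [← Finset.sum_add_distrib]
      exact Finset.sum_congr rfl fun a _ => by ring
    have h2 : b.card + Fintype.card (Jb r' s') ≤ m + 1 := by rw [← hcard]; exact hrk
    have h3 : ((swA (Jb r' s') b : ℕ) : ℤ) + 1 ≤ 2 * b.card + Fintype.card (Jb r' s') := by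
      exact_mod_cast hsw
    have h4 : (b.card : ℤ) + Fintype.card (Jb r' s') ≤ m + 1 := by exact_mod_cast h2
    rw [h1, hw]
    linarith
  simp only [← hC]
  exact (mul_le_mul_of_nonneg_right g6 hpht).trans g5

/-- The dimension of the space of the derivatives. -/
theorem rankB {k0 : Type} [Field k0] [Algebra k0 K] {x : Fin (n + 1) → K} {m : ℕ}
    (W : Submodule K (Fin (n + 1) → K)) (hWm : Module.finrank K W ≤ m + 1) (hxW : x ∈ W)
    (hDW : ∀ Δ : Derivation ℤ K K, (∀ r : k0, Δ (algebraMap k0 K r) = 0) →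
      (fun l => Δ (x l)) ∈ W)
    (hDk : ∀ p I (r : k0), D p I (algebraMap k0 K r) = 0) :
    Module.finrank K (FuA (db R S d) D (Eb F D) x) ≤ m + 1 := by
  refine (Submodule.finrank_mono ?_).trans hWm
  have hE : ∀ Δ : Derivation ℤ K K, (∀ r : k0, Δ (algebraMap k0 K r) = 0) →
      ev Δ x ∈ W := hDW
  unfold FuA
  rw [Submodule.span_le]
  rintro _ (⟨o, rfl⟩ | ⟨a, I, hI, rfl⟩)
  · rcases o with _ | ξ | t
    · exact hxW
    · refine hE _ fun r => ?_
      unfold Eb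
      rw [Op_apply]
      exact Finset.sum_eq_zero fun b _ => Finset.sum_eq_zero fun b' _ =>
        Finset.sum_eq_zero fun I _ => by rw [hDk, mul_zero]
    · simp only [genA, tv]
      split_ifs
      · exact sub_mem (Submodule.smul_mem _ _ (hE _ (hDk _ _)))
          (Submodule.smul_mem _ _ (hE _ (hDk _ _)))
      · exact zero_mem _
  · exact hE _ (hDk _ _)

omit [IsAlgClosed k] [CharZero k] [IsFF k K] in
/-- The minors of a nonsingular square matrix. -/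
theorem ord_mna_sq (P : Place k K) {T : Type} [Fintype T] [DecidableEq T] (N : Matrix T T K)
    {ρ0 : ℕ} (α0 : Fin ρ0 ⊕ Fin 0 ≃ T) (β0 : Fin ρ0 ⊕ Fin 0 ≃ T) (hN : N.det ≠ 0) :
    P.ord (mna N α0 β0) = P.ord N.det := by
  have hb : ∀ α0 : Fin ρ0 ⊕ Fin 0 ≃ T, Function.Bijective (α0 ∘ Sum.inl : Fin ρ0 → T) := by
    intro α0
    refine ⟨α0.injective.comp Sum.inl_injective, fun i => ?_⟩
    obtain ⟨j, hj⟩ := α0.surjective i
    rcases j with j | j
    · exact ⟨j, hj⟩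
    · exact j.elim0
  obtain ⟨f, hf⟩ : ∃ f : Fin ρ0 ≃ T, f = Equiv.ofBijective _ (hb α0) := ⟨_, rfl⟩
  obtain ⟨g, hg⟩ : ∃ g : Fin ρ0 ≃ T, g = Equiv.ofBijective _ (hb β0) := ⟨_, rfl⟩
  have h1 : mna N α0 β0 = ((N.submatrix f f).submatrix id (g.trans f.symm)).det := by
    unfold mna mnr
    congr 1
    ext i j
    have h3 : f (f.symm (g j)) = g j := Equiv.apply_symm_apply _ _
    have h4 : ∀ i, f i = α0 (Sum.inl i) := fun i => by rw [hf]; rfl
    have h5 : ∀ i, g i = β0 (Sum.inl i) := fun i => by rw [hg]; rfl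
    simp only [Matrix.submatrix_apply, Function.comp_apply, id, Equiv.trans_apply]
    rw [h3, h4, h5]
  have h2 : ∀ σ : Equiv.Perm (Fin ρ0), P.ord ((Equiv.Perm.sign σ : ℤ) : K) = 0 ∧
      ((Equiv.Perm.sign σ : ℤ) : K) ≠ 0 := by
    intro σ
    rcases Int.units_eq_one_or (Equiv.Perm.sign σ) with h | h
    · rw [h]; simp [P.ord_one]
    · rw [h]; simp [P.ord_neg, P.ord_one]
  rw [h1, Matrix.det_permute', Matrix.det_submatrix_equiv_self,
    P.ord_mul (h2 _).2 hN, (h2 _).1, zero_add]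

end Pool.Agent.T6.H19.DW
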