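import Pool.Agent.T6.H19.DW.BFr

/-!
The local inequality for families of matrices of forms.
-/

set_option autoImplicit false

open MvPolynomial Pool.Agent.TH145.GH FF Pool.Agent.W603.LV Pool.Agent.W603.PV
open Pool.Agent.TH145.GC (Ev Ti tv wv ge_det)
open Pool.Agent.T6.H19.DV (ev mnr mna Van Mini pa qa mna_eq exists_mini exists_ext mnr_inj_row
  mnr_inj_col mnr_smul mna_smul van_smul mini_smul)

namespace Pool.Agent.T6.H19.DW

theorem ord_prod {k K : Type} [Field k] [Field K] [Algebra k K] (P : Place k K) {T : Type}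
    (s : Finset T) {f : T → K} (h : ∀ a ∈ s, f a ≠ 0) :
    P.ord (∏ a ∈ s, f a) = ∑ a ∈ s, P.ord (f a) := by
  classical
  induction s using Finset.induction_on with
  | empty => simp [P.ord_one]
  | insert a s ha ih =>
    rw [Finset.prod_insert ha, Finset.sum_insert ha, P.ord_mul (h a (Finset.mem_insert_self _ _))
      (Finset.prod_ne_zero_iff.2 fun b hb => h b (Finset.mem_insert_of_mem hb)),
      ih fun b hb => h b (Finset.mem_insert_of_mem hb)]

section dt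

variable {K : Type} [Field K] {n : ℕ} {ι W J : Type} [Fintype J] {dg : ι → ℕ}
  {D : ι → (Fin (n + 1) →₀ ℕ) → Derivation ℤ K K} {E : W → Derivation ℤ K K}

open scoped Classical in
/-- The determinant of the matrix of the rows. -/
noncomputable def dtA (dg : ι → ℕ) (D : ι → (Fin (n + 1) →₀ ℕ) → Derivation ℤ K K)
    (E : W → Derivation ℤ K K) (x : Fin (n + 1) → K) (e : Fin (n + 1)) (κ : J → ι)
    (b : Finset (Gx n ι W)) (σ : b ⊕ J → Fin (n + 1)) : K := (mtA dg D E x e κ b σ).det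

theorem dtA_eq (x : Fin (n + 1) → K) (e : Fin (n + 1)) (κ : J → ι)
    (b : Finset (Gx n ι W)) (σ : b ⊕ J → Fin (n + 1)) [DecidableEq (b ⊕ J)] :
    (mtA dg D E x e κ b σ).det = dtA dg D E x e κ b σ := by
  unfold dtA
  exact det_inst _ _ _

theorem dtA_lam (x : Fin (n + 1) → K) (lam : K) (e : Fin (n + 1)) (κ : J → ι)
    {b : Finset (Gx n ι W)} (hb : none ∈ b) (σ : b ⊕ J → Fin (n + 1)) :
    dtA dg D E (lam • x) e κ b σ = lam ^ swA J b * dtA dg D E x e κ b σ := by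
  classical
  have := det_lamA (dg := dg) (D := D) (E := E) x lam e κ hb σ
  rw [dtA_eq, dtA_eq] at this
  exact this

end dt

section fam

variable {k K : Type} [Field k] [Field K] [Algebra k K] {R S : Type} [Fintype R] [Fintype S]
  [DecidableEq R] [DecidableEq S]

theorem MFam.mono {P : Place k K} {δ : Derivation ℤ K K} {N : Matrix R S K} {J : Type}
    {κ : J → R × S} {μ μ' : ℤ} (h : μ ≤ μ') {Q : Type} {Y : Q → Matrix R S K →ₗ[K] K}
    {g : Q → Matrix R S K} (hf : MFam P δ N κ μ Y g) : MFam P δ N κ μ' Y g :=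
  ⟨hf.der, hf.left, hf.right, hf.row, fun q => (hf.dir q).mono (by omega), hf.int⟩

open scoped Classical in
theorem exists_fam {P : Place k K} {δ : Derivation ℤ K K}
    (hδ : ∀ (c : ℤ) f, Ge P c f → Ge P (c - 1) (δ f)) (hδ0 : ∀ f, Ge P 0 f → Ge P 0 (δ f))
    {N : Matrix R S K} {ρ r' s' : ℕ} {α α0 : Fin ρ ⊕ Fin r' ≃ R} {β β0 : Fin ρ ⊕ Fin s' ≃ S}
    (hv : Van N (ρ + 1)) (hm : Mini P N (α ∘ Sum.inl) (β ∘ Sum.inl)) (hm0 : mna N α0 β0 ≠ 0)
    (o : Prop) (ho : o → r' = 0 ∧ s' = 0) {μ : ℤ} (hμ : 0 ≤ μ)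
    (hμ1 : o → (μ = 1 ∨ (∀ i j, Ge P 0 (N i j)) ∧ P.ord (mna N α0 β0) ≤ 0)) :
    ∃ (Q : Type) (_ : Fintype Q) (Y : Q → Matrix R S K →ₗ[K] K) (g : Q → Matrix R S K),
      MFam P δ N (fun p : Fin r' × Fin s' => (α (Sum.inr p.1), β (Sum.inr p.2))) μ Y g ∧
      (Matrix.of fun q q' => Y q (g q')).det ≠ 0 ∧
      -(P.ord (Matrix.of fun q q' => Y q (g q')).det) =
        (if o then P.ord (mna N α0 β0) else 0) + s' * P.ord (mna N α β) ∧
      Fintype.card Q ≤ Fintype.card R * Fintype.card S + Fintype.card R := by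
  by_cases h : o
  · obtain ⟨hr, hs⟩ := ho h
    obtain ⟨m, U, V, p, i0, j0, hp⟩ := exists_piv P N
    subst hr hs
    have hE : IsEmpty (Fin 0 × Fin 0) := inferInstance
    have hb1 : Function.Bijective (α0 ∘ Sum.inl : Fin ρ → R) := by
      refine ⟨α0.injective.comp Sum.inl_injective, fun i => ?_⟩
      obtain ⟨j, hj⟩ := α0.surjective i
      rcases j with j | j
      · exact ⟨j, hj⟩
      · exact j.elim0
    have hb2 : Function.Bijective (β0 ∘ Sum.inl : Fin ρ → S) := by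
      refine ⟨β0.injective.comp Sum.inl_injective, fun i => ?_⟩
      obtain ⟨j, hj⟩ := β0.surjective i
      rcases j with j | j
      · exact ⟨j, hj⟩
      · exact j.elim0
    have hord : P.ord (mna N α0 β0) = ∑ k, P.ord (p k) := hp.ord hb1 hb2 hm0
    have hdet := famO_det hp
    refine ⟨Fin m, inferInstance, Yo U V p i0 j0, fun q => Matrix.of fun i j => U i q * V q j,
      (famO hδ hδ0 hp _).mono ?_, ?_, ?_, ?_⟩
    · rcases hμ1 h with h1 | ⟨h1, h2⟩
      · rw [h1]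
        split_ifs <;> norm_num
      · rw [if_pos]
        · exact hμ
        · have h3 : ∀ k, 0 ≤ P.ord (p k) := fun k => (hp.gep h1 k).resolve_left (hp.pne k)
          rw [hord] at h2
          have h4 := (Finset.sum_eq_zero_iff_of_nonneg fun k _ => h3 k).1
            (le_antisymm h2 (Finset.sum_nonneg fun k _ => h3 k))
          exact fun k => h4 k (Finset.mem_univ _)
    · exact fun h0 => hdet.1 ((det_inst _ _ _).trans h0)
    · rw [if_pos h, Nat.cast_zero, zero_mul, add_zero, hord, ← hdet.2]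
      exact congrArg (fun z => -(P.ord z)) (det_inst _ _ _)
    · rw [Fintype.card_fin]
      have h1 := Fintype.card_le_of_injective i0 hp.inj
      rw [Fintype.card_fin] at h1
      omega
  · have hdet := famC_det (P := P) (N := N) (α := α) (β := β) hm.1
    refine ⟨Fin ρ × Fin s', inferInstance, Yc N α β,
      fun q => Matrix.single (α (Sum.inl q.1)) (β (Sum.inr q.2)) 1,
      (famC hδ0 hv hm).mono hμ, ?_, ?_, ?_⟩
    · exact fun h0 => hdet.1 ((det_inst _ _ _).trans h0)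
    · rw [if_neg h, zero_add, ← hdet.2]
      exact congrArg (fun z => -(P.ord z)) (det_inst _ _ _)
    · rw [Fintype.card_prod, Fintype.card_fin, Fintype.card_fin]
      have h1 : ρ ≤ Fintype.card R := by
        rw [← Fintype.card_congr α, Fintype.card_sum, Fintype.card_fin]
        omega
      have h2 : s' ≤ Fintype.card S := by
        rw [← Fintype.card_congr β, Fintype.card_sum, Fintype.card_fin, Fintype.card_fin]
        omega
      exact (Nat.mul_le_mul h1 h2).trans (Nat.le_add_right _ _)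

end fam

variable {A : Type} {R S : A → Type} {k K : Type} [Field k] [Field K] [Algebra k K] {n : ℕ}
  [Fintype A] [∀ a, Fintype (R a)] [∀ a, Fintype (S a)] [∀ a, DecidableEq (R a)]
  [∀ a, DecidableEq (S a)] {ρ r' s' : A → ℕ}
  {F : Ib R S → MvPolynomial (Fin (n + 1)) K} {d : A → ℕ}
  {D : Ib R S → (Fin (n + 1) →₀ ℕ) → Derivation ℤ K K}
  {α : ∀ a, Fin (ρ a) ⊕ Fin (r' a) ≃ R a} {β : ∀ a, Fin (ρ a) ⊕ Fin (s' a) ≃ S a}

omit [Fintype A] [∀ a, Fintype (R a)] [∀ a, Fintype (S a)] [∀ a, DecidableEq (R a)]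
  [∀ a, DecidableEq (S a)] in
theorem Nb_smul (hF : ∀ p, (F p).IsHomogeneous (db R S d p)) (x : Fin (n + 1) → K) (lam : K)
    (a : A) : Nb F (lam • x) a = lam ^ d a • Nb F x a := by
  ext i j
  exact eval_smul_hom (hF ⟨a, (i, j)⟩) x lam

/-- The bound for the number of the functionals. -/
def Bd (R S : A → Type) [Fintype A] [∀ a, Fintype (R a)] [∀ a, Fintype (S a)] : ℕ :=
  ∑ a, (Fintype.card (R a) * Fintype.card (S a) + Fintype.card (R a))

open scoped Classical in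
/-- The quotient of the determinant by the minors. -/
noncomputable def Th (F : Ib R S → MvPolynomial (Fin (n + 1)) K) (d : A → ℕ)
    (x : Fin (n + 1) → K) (e0 : Fin (n + 1))
    (α : ∀ a, Fin (ρ a) ⊕ Fin (r' a) ≃ R a) (β : ∀ a, Fin (ρ a) ⊕ Fin (s' a) ≃ S a)
    (O : Finset A) (M : K) : K :=
  M / ((∏ a, (mna (Nb F x a) (α a) (β a) ^ s' a * (x e0 ^ d a) ^ (r' a * s' a))) *
    ∏ a ∈ O, mna (Nb F x a) (α a) (β a))

open scoped Classical in
theorem local_blk (P : Place k K) {π : K} {δ : Derivation ℤ K K}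
    (hδ : ∀ (c : ℤ) f, Ge P c f → Ge P (c - 1) (δ f)) (hδ0 : ∀ f, Ge P 0 f → Ge P 0 (δ f))
    (hF : SysG F (db R S d) Gd D) {s e c : ℤ} (hs : 0 ≤ s) (he : 0 ≤ e) (hc : 0 ≤ c)
    (hFc : ∀ p u, Ge P (-c) ((F p).coeff u))
    (hD : ∀ p (I : Fin (n + 1) →₀ ℕ), I.degree = db R S d p → Loss P π δ s e (D p I))
    (hE : ∀ ξ, Loss P π δ s e (Eb F D ξ)) {x : Fin (n + 1) → K} {e0 : Fin (n + 1)}
    (he0 : x e0 ≠ 0) (hv : ∀ a, Van (Nb F x a) (ρ a + 1))
    (hm : ∀ a, mna (Nb F x a) (α a) (β a) ≠ 0) (hrs : ∀ a, s' a ≤ r' a)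
    {b : Finset (Gx n (Ib R S) (Wb R S))} (hb : none ∈ b) (σ : b ⊕ Jb r' s' → Fin (n + 1))
    (hspan : SpA (db R S d) D (Eb F D) x ≤
      Submodule.span K (genA (db R S d) D (Eb F D) x '' b))
    (hcard : Module.finrank K (FuA (db R S d) D (Eb F D) x) =
      b.card + Fintype.card (Jb r' s'))
    (hdet : dtA (db R S d) D (Eb F D) x e0 (κb α β) b σ ≠ 0)
    {O : Finset A} (hO : ∀ a ∈ O, r' a = 0 ∧ s' a = 0) :
    (((swA (Jb r' s') b : ℕ) : ℤ) - ∑ a, ((s' a * (d a * (ρ a + r' a)) : ℕ) : ℤ) -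
      ∑ a ∈ O, ((d a * ρ a : ℕ) : ℤ)) * pord P x -
      (if ∃ a ∈ O, ((d a * ρ a : ℕ) : ℤ) * pord P x < P.ord (mna (Nb F x a) (α a) (β a))
        then 1 else 0) - c - e - ((n + 1) + Bd R S) * s ≤
      P.ord (Th F d x e0 α β O (dtA (db R S d) D (Eb F D) x e0 (κb α β) b σ)) := by
  have hx0 : x ≠ 0 := by
    rintro rfl
    exact he0 rfl
  obtain ⟨lam, x', hlam, hlamP, hxx, hx', e1, he1⟩ := exists_scaled P hx0
  have hld : ∀ a, lam ^ d a ≠ 0 := fun a => pow_ne_zero _ hlam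
  have hNN : ∀ a, Nb F x a = lam ^ d a • Nb F x' a := fun a => by rw [hxx, Nb_smul hF.hom]
  have hNN' : ∀ a, Nb F x' a = (lam ^ d a)⁻¹ • Nb F x a := fun a => by
    rw [hNN, smul_smul, inv_mul_cancel₀ (hld a), one_smul]
  have hv' : ∀ a, Van (Nb F x' a) (ρ a + 1) := fun a => by
    rw [hNN']
    exact van_smul (hv a)
  have hm' : ∀ a, mna (Nb F x' a) (α a) (β a) ≠ 0 := fun a => by
    rw [hNN', mna_smul]
    exact mul_ne_zero (pow_ne_zero _ (inv_ne_zero (hld a))) (hm a)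
  have hcR : ∀ a, Fintype.card (R a) = ρ a + r' a := fun a => by
    rw [← Fintype.card_congr (α a), Fintype.card_sum, Fintype.card_fin, Fintype.card_fin]
  have hcS : ∀ a, Fintype.card (S a) = ρ a + s' a := fun a => by
    rw [← Fintype.card_congr (β a), Fintype.card_sum, Fintype.card_fin, Fintype.card_fin]
  have hex : ∀ a, ∃ (α1 : Fin (ρ a) ⊕ Fin (r' a) ≃ R a) (β1 : Fin (ρ a) ⊕ Fin (s' a) ≃ S a),
      Mini P (Nb F x' a) (α1 ∘ Sum.inl) (β1 ∘ Sum.inl) := by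
    intro a
    obtain ⟨f1, g1, hfg⟩ := exists_mini P ⟨_, _, hm' a⟩
    obtain ⟨α1, hα1⟩ := exists_ext (mnr_inj_row hfg.1) (hcR a)
    obtain ⟨β1, hβ1⟩ := exists_ext (mnr_inj_col hfg.1) (hcS a)
    have hα1' : α1 ∘ Sum.inl = f1 := funext hα1
    have hβ1' : β1 ∘ Sum.inl = g1 := funext hβ1
    exact ⟨α1, β1, by rw [hα1', hβ1']; exact hfg⟩
  choose α1 β1 hfg using hex
  have hfgx : ∀ a, Mini P (Nb F x a) (α1 a ∘ Sum.inl) (β1 a ∘ Sum.inl) := fun a => by
    rw [hNN]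
    exact mini_smul (hld a) (hfg a)
  have hm1 : ∀ a, mna (Nb F x a) (α1 a) (β1 a) ≠ 0 := fun a => (hfgx a).1
  have hm1' : ∀ a, mna (Nb F x' a) (α1 a) (β1 a) ≠ 0 := fun a => (hfg a).1
  have hxe1 : x e1 = lam := by
    rw [hxx, Pi.smul_apply, he1, smul_eq_mul, mul_one]
  obtain ⟨ε, hε, h1⟩ := det_changeB (α0 := α) (β0 := β) (α1 := α1) (β1 := β1) hF e0
    (by rw [hxe1]; exact hlam) hm1 σ hspan
  rw [dtA_eq, dtA_eq] at h1
  have h2 := dtA_lam (dg := db R S d) (D := D) (E := Eb F D) x' lam e1 (κb α1 β1) hb σ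
  rw [← hxx] at h2
  have h3 : ∀ a, mna (Nb F x a) (α a) (β a) =
      ((pa (Nb F x a) (α1 a) (β1 a)).submatrix (α a ∘ Sum.inl) id).det *
        mna (Nb F x a) (α1 a) (β1 a) *
        ((qa (Nb F x a) (α1 a) (β1 a)).submatrix id (β a ∘ Sum.inl)).det := fun a =>
    mna_eq (hv a) (hm1 a)
  have h4 : ∀ a, mna (Nb F x a) (α1 a) (β1 a) =
      (lam ^ d a) ^ ρ a * mna (Nb F x' a) (α1 a) (β1 a) := fun a => by
    rw [hNN, mna_smul]
  have h4' : ∀ a, mna (Nb F x a) (α a) (β a) =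
      (lam ^ d a) ^ ρ a * mna (Nb F x' a) (α a) (β a) := fun a => by
    rw [hNN, mna_smul]
  obtain ⟨P0, hP0⟩ : ∃ P0 : A → K, ∀ a, P0 a =
    ((pa (Nb F x a) (α1 a) (β1 a)).submatrix (α a ∘ Sum.inl) id).det := ⟨_, fun _ => rfl⟩
  obtain ⟨Q0, hQ0⟩ : ∃ Q0 : A → K, ∀ a, Q0 a =
    ((qa (Nb F x a) (α1 a) (β1 a)).submatrix id (β a ∘ Sum.inl)).det := ⟨_, fun _ => rfl⟩
  have hQge : ∀ a, Ge P 0 (Q0 a) := fun a => by
    have := ge_det P ((qa (Nb F x a) (α1 a) (β1 a)).submatrix id (β a ∘ Sum.inl)) (c := 0)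
      (fun i j => by rw [neg_zero]; exact (hfgx a).ge_qf _ _)
    rw [mul_zero, neg_zero] at this
    rw [hQ0]
    exact this
  simp only [← hP0, ← hQ0] at h1 h3
  have hP00 : ∀ a, P0 a ≠ 0 := by
    intro a h0
    have := h3 a
    rw [h0, zero_mul, zero_mul] at this
    exact hm a this
  have hQ00 : ∀ a, Q0 a ≠ 0 := by
    intro a h0
    have := h3 a
    rw [h0, mul_zero] at this
    exact hm a this
  have hQo : ∀ a, 0 ≤ P.ord (Q0 a) := fun a => (hQge a).resolve_left (hQ00 a)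
  obtain ⟨M0, hM0⟩ : ∃ M0, M0 = dtA (db R S d) D (Eb F D) x e0 (κb α β) b σ := ⟨_, rfl⟩
  obtain ⟨M1, hM1⟩ : ∃ M1, M1 = dtA (db R S d) D (Eb F D) x' e1 (κb α1 β1) b σ := ⟨_, rfl⟩
  rw [h2, ← hM1, ← hM0, hxe1] at h1
  rw [← hM0] at hdet ⊢
  have hε0 : ∀ a, ε a ≠ 0 := by
    intro a
    rcases hε a with h | h
    · rw [h]; exact one_ne_zero
    · rw [h]; exact neg_ne_zero.2 one_ne_zero
  have hεo : ∀ a, P.ord (ε a) = 0 := by
    intro a
    rcases hε a with h | h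
    · rw [h]; exact P.ord_one
    · rw [h, P.ord_neg, P.ord_one]
  have hxe : ∀ a, x e0 ^ d a ≠ 0 := fun a => pow_ne_zero _ he0
  have hM10 : M1 ≠ 0 := by
    rintro h0
    rw [h0, mul_zero, mul_zero] at h1
    exact hdet h1
  -- the order of the determinant
  have hT0 : ∀ a, ε a * ((x e0 ^ d a / lam ^ d a) ^ (r' a * s' a) *
      (P0 a ^ s' a * Q0 a ^ r' a)) ≠ 0 := fun a =>
    mul_ne_zero (hε0 a) (mul_ne_zero (pow_ne_zero _ (div_ne_zero (hxe a) (hld a)))
      (mul_ne_zero (pow_ne_zero _ (hP00 a)) (pow_ne_zero _ (hQ00 a))))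
  have hTo : ∀ a, P.ord (ε a * ((x e0 ^ d a / lam ^ d a) ^ (r' a * s' a) *
      (P0 a ^ s' a * Q0 a ^ r' a))) = (r' a * s' a) * (P.ord (x e0 ^ d a) - d a * pord P x) +
        s' a * P.ord (P0 a) + r' a * P.ord (Q0 a) := fun a => by
    rw [P.ord_mul (hε0 a) (mul_ne_zero (pow_ne_zero _ (div_ne_zero (hxe a) (hld a)))
      (mul_ne_zero (pow_ne_zero _ (hP00 a)) (pow_ne_zero _ (hQ00 a)))), hεo,
      P.ord_mul (pow_ne_zero _ (div_ne_zero (hxe a) (hld a)))
      (mul_ne_zero (pow_ne_zero _ (hP00 a)) (pow_ne_zero _ (hQ00 a))),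
      P.ord_mul (pow_ne_zero _ (hP00 a)) (pow_ne_zero _ (hQ00 a)),
      P.ord_pow (x e0 ^ d a / lam ^ d a), P.ord_div (hxe a) (hld a), P.ord_pow lam,
      P.ord_pow (P0 a), P.ord_pow (Q0 a), hlamP]
    push_cast
    ring
  have hor : ∀ a, P.ord (mna (Nb F x a) (α a) (β a)) = P.ord (P0 a) +
      (ρ a * (d a * pord P x) + P.ord (mna (Nb F x' a) (α1 a) (β1 a))) + P.ord (Q0 a) := by
    intro a
    have hp : (lam ^ d a) ^ ρ a * mna (Nb F x' a) (α1 a) (β1 a) ≠ 0 :=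
      mul_ne_zero (pow_ne_zero _ (hld a)) (hm1' a)
    rw [h3, h4, P.ord_mul (mul_ne_zero (hP00 a) hp) (hQ00 a), P.ord_mul (hP00 a) hp,
      P.ord_mul (pow_ne_zero _ (hld a)) (hm1' a), P.ord_pow, P.ord_pow, hlamP]
  have hor' : ∀ a, P.ord (mna (Nb F x a) (α a) (β a)) =
      d a * ρ a * pord P x + P.ord (mna (Nb F x' a) (α a) (β a)) := by
    intro a
    rw [h4', P.ord_mul (pow_ne_zero _ (hld a)) (hm' a), P.ord_pow, P.ord_pow, hlamP]
    ring
  have hM0o : P.ord M0 = ∑ a, ((r' a * s' a) * (P.ord (x e0 ^ d a) - d a * pord P x) +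
        s' a * P.ord (P0 a) + r' a * P.ord (Q0 a)) +
      (swA (Jb r' s') b * pord P x + P.ord M1) := by
    rw [h1, P.ord_mul (Finset.prod_ne_zero_iff.2 fun a _ => hT0 a)
      (mul_ne_zero (pow_ne_zero _ hlam) hM10), P.ord_mul (pow_ne_zero _ hlam) hM10,
      ord_prod P _ fun a _ => hT0 a, P.ord_pow, hlamP]
    congr 1
    exact Finset.sum_congr rfl fun a _ => hTo a
  have hD0 : ∀ a, mna (Nb F x a) (α a) (β a) ^ s' a * (x e0 ^ d a) ^ (r' a * s' a) ≠ 0 := fun a =>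
    mul_ne_zero (pow_ne_zero _ (hm a)) (pow_ne_zero _ (hxe a))
  have hΘo : P.ord (Th F d x e0 α β O M0) = P.ord M0 -
      (∑ a, (s' a * P.ord (mna (Nb F x a) (α a) (β a)) + (r' a * s' a) * P.ord (x e0 ^ d a)) +
        ∑ a ∈ O, P.ord (mna (Nb F x a) (α a) (β a))) := by
    unfold Th
    rw [P.ord_div hdet (mul_ne_zero (Finset.prod_ne_zero_iff.2 fun a _ => hD0 a)
      (Finset.prod_ne_zero_iff.2 fun a _ => hm a)),
      P.ord_mul (Finset.prod_ne_zero_iff.2 fun a _ => hD0 a)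
      (Finset.prod_ne_zero_iff.2 fun a _ => hm a), ord_prod P _ fun a _ => hD0 a,
      ord_prod P _ fun a _ => hm a]
    congr 2
    refine Finset.sum_congr rfl fun a _ => ?_
    rw [P.ord_mul (pow_ne_zero _ (hm a)) (pow_ne_zero _ (hxe a)),
      P.ord_pow (mna (Nb F x a) (α a) (β a)), P.ord_pow (x e0 ^ d a)]
    push_cast
    ring
  -- the families of functionals
  obtain ⟨μ, hμ⟩ : ∃ μ : ℤ, μ = if c = 0 ∧ ¬ ∃ a ∈ O, ((d a * ρ a : ℕ) : ℤ) * pord P x <
      P.ord (mna (Nb F x a) (α a) (β a)) then 0 else 1 := ⟨_, rfl⟩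
  have hμ0 : 0 ≤ μ := by
    rw [hμ]
    split_ifs <;> norm_num
  have hμle : μ ≤ (if ∃ a ∈ O, ((d a * ρ a : ℕ) : ℤ) * pord P x <
      P.ord (mna (Nb F x a) (α a) (β a)) then 1 else 0) + c := by
    rw [hμ]
    by_cases h5 : ∃ a ∈ O, ((d a * ρ a : ℕ) : ℤ) * pord P x <
      P.ord (mna (Nb F x a) (α a) (β a))
    · rw [if_neg (fun h => h.2 h5), if_pos h5]
      omega
    · rw [if_neg (c := ∃ a ∈ O, ((d a * ρ a : ℕ) : ℤ) * pord P x <
        P.ord (mna (Nb F x a) (α a) (β a))) h5]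
      split_ifs with h6
      · omega
      · have : c ≠ 0 := fun h => h6 ⟨h, h5⟩
        omega
  have hfam := fun a => exists_fam hδ hδ0 (α0 := α a) (β0 := β a) (hv' a) (hfg a) (hm' a)
    (a ∈ O) (hO a) hμ0 (fun ha => by
      by_cases h5 : c = 0 ∧ ¬ ∃ a ∈ O, ((d a * ρ a : ℕ) : ℤ) * pord P x <
          P.ord (mna (Nb F x a) (α a) (β a))
      · right
        refine ⟨fun i j => ?_, ?_⟩
        · have h6 := ge_eval P hx' (hFc ⟨a, (i, j)⟩)
          rw [h5.1, neg_zero] at h6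
          exact h6
        · have h6 : ¬ ((d a * ρ a : ℕ) : ℤ) * pord P x < P.ord (mna (Nb F x a) (α a) (β a)) :=
            fun h => h5.2 ⟨a, ha, h⟩
          rw [hor'] at h6
          push_cast at h6
          omega
      · left
        rw [hμ, if_neg h5])
  choose Q iQ Y g hY hYd hYo hYc using hfam
  have hFam := Fam.ofBlocks (d := d) (z := zv F x')
    (fun a (p : Fin (r' a) × Fin (s' a)) => (α1 a (Sum.inr p.1), β1 a (Sum.inr p.2))) Y g hY
  have hdb := det_ofBlocks Y g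
  have hA0 : (Matrix.of fun q q' : (a : A) × Q a => ((Y q.1 q.2).comp (prb q.1))
      (∑ p, bkb q'.1 (g q'.1 q'.2) p • Gd p)).det ≠ 0 := by
    rw [hdb]
    exact Finset.prod_ne_zero_iff.2 fun a _ h0 => hYd a ((det_inst _ _ _).trans h0)
  have hAo : -(P.ord (Matrix.of fun q q' : (a : A) × Q a => ((Y q.1 q.2).comp (prb q.1))
      (∑ p, bkb q'.1 (g q'.1 q'.2) p • Gd p)).det) =
      ∑ a, ((if a ∈ O then P.ord (mna (Nb F x' a) (α a) (β a)) else 0) +
        s' a * P.ord (mna (Nb F x' a) (α1 a) (β1 a))) := by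
    rw [hdb, ord_prod P _ fun a _ h0 => hYd a ((det_inst _ _ _).trans h0),
      ← Finset.sum_neg_distrib]
    refine Finset.sum_congr rfl fun a _ => ?_
    refine (congrArg (fun z => -(P.ord z)) (det_inst _ _ _)).trans ((hYo a).trans ?_)
    by_cases h0 : a ∈ O
    · rw [if_pos h0, if_pos h0]
    · rw [if_neg h0, if_neg h0]
  have h8 := ord_detA (x := x') (e1 := e1) (κ := κb α1 β1) (π := π) hF
    (fun ξ p p' h => had_b ξ p p' h) hδ0 hx' he1 hs he hμ0 hD hE hFam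
    (fun h0 => hA0 ((det_inst _ _ _).trans h0)) σ (by
      rw [show (fun ξ : Wb R S => Op F D (aop ξ)) = Eb F D from rfl, ← hcard, hxx,
        Fu_scale_eqA x' hlam]) (by
      rw [dtA_eq, show (fun ξ : Wb R S => Op F D (aop ξ)) = Eb F D from rfl, ← hM1]
      exact hM10)
  rw [dtA_eq, show (fun ξ : Wb R S => Op F D (aop ξ)) = Eb F D from rfl, ← hM1] at h8
  have hcQ : (Fintype.card ((a : A) × Q a) : ℤ) * s ≤ Bd R S * s := by
    refine mul_le_mul_of_nonneg_right ?_ hs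
    have h10 : Fintype.card ((a : A) × Q a) ≤ Bd R S := by
      rw [Fintype.card_sigma]
      exact Finset.sum_le_sum fun a _ => hYc a
    exact_mod_cast h10
  have hk1 : ∀ a, -((s' a * (d a * (ρ a + r' a)) : ℕ) : ℤ) * pord P x -
      s' a * P.ord (mna (Nb F x' a) (α1 a) (β1 a)) ≤
      ((r' a * s' a) * (P.ord (x e0 ^ d a) - d a * pord P x) +
        s' a * P.ord (P0 a) + r' a * P.ord (Q0 a)) -
      (s' a * P.ord (mna (Nb F x a) (α a) (β a)) + (r' a * s' a) * P.ord (x e0 ^ d a)) := by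
    intro a
    have h9 : 0 ≤ ((r' a : ℤ) - s' a) * P.ord (Q0 a) := mul_nonneg (by
      have : (s' a : ℤ) ≤ r' a := by exact_mod_cast hrs a
      linarith) (hQo a)
    rw [hor]
    push_cast
    linarith
  have hk2 := Finset.sum_le_sum (s := Finset.univ) fun a _ => hk1 a
  rw [Finset.sum_sub_distrib, Finset.sum_sub_distrib, ← Finset.sum_mul,
    Finset.sum_neg_distrib] at hk2
  have hk3 : ∑ a ∈ O, P.ord (mna (Nb F x a) (α a) (β a)) =
      (∑ a ∈ O, ((d a * ρ a : ℕ) : ℤ)) * pord P x +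
        ∑ a ∈ O, P.ord (mna (Nb F x' a) (α a) (β a)) := by
    rw [Finset.sum_mul, ← Finset.sum_add_distrib]
    refine Finset.sum_congr rfl fun a _ => ?_
    rw [hor']
    push_cast
    ring
  have hk4 : ∑ a, ((if a ∈ O then P.ord (mna (Nb F x' a) (α a) (β a)) else 0) +
        s' a * P.ord (mna (Nb F x' a) (α1 a) (β1 a))) =
      ∑ a ∈ O, P.ord (mna (Nb F x' a) (α a) (β a)) +
        ∑ a, s' a * P.ord (mna (Nb F x' a) (α1 a) (β1 a)) := by
    rw [Finset.sum_add_distrib, Finset.sum_ite_mem, Finset.univ_inter]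
  have h8' : (∑ a, ((if a ∈ O then P.ord (mna (Nb F x' a) (α a) (β a)) else 0) +
        s' a * P.ord (mna (Nb F x' a) (α1 a) (β1 a)))) -
      ((n + 1) + Fintype.card ((a : A) × Q a)) * s - e - μ ≤ P.ord M1 := by
    rw [← hAo]
    refine le_trans (le_of_eq ?_) h8
    exact congrArg (fun z => -(P.ord z) - ((n + 1) + (Fintype.card ((a : A) × Q a) : ℤ)) * s -
      e - μ) (det_inst _ _ _)
  rw [hk4, add_mul] at h8'
  rw [hΘo, hM0o, hk3, add_mul, sub_mul, sub_mul]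
  linarith

end Pool.Agent.T6.H19.DW
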