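import Pool.Agent.T6.H19.DW.MFam

/-!
Families of matrices of forms.
-/

set_option autoImplicit false

open MvPolynomial Pool.Agent.TH145.GH FF Pool.Agent.W603.LV Pool.Agent.W603.PV
open Pool.Agent.TH145.GC (Ev Ti tv wv)
open Pool.Agent.T6.H19.DV (ev mnr mna Van Mini wa va wva_der mul_va wa_mul single_both mod_both
  single_mul_entry mul_single_entry wa_inr va_inr)

namespace Pool.Agent.T6.H19.DW

theorem det_inst {K T : Type} [Field K] [Fintype T] (i1 i2 : DecidableEq T) (M : Matrix T T K) :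
    @Matrix.det T i1 _ K _ M = @Matrix.det T i2 _ K _ M := by
  rw [Subsingleton.elim i1 i2]

/-- The determinant of a matrix that is the sum of blocks. -/
theorem det_blk {K A : Type} [Field K] [Fintype A] [DecidableEq A] {T : A → Type}
    [∀ a, Fintype (T a)] [∀ a, DecidableEq (T a)] (M : Matrix ((a : A) × T a) ((a : A) × T a) K)
    (B : ∀ a, Matrix (T a) (T a) K) (h1 : ∀ a i j, M ⟨a, i⟩ ⟨a, j⟩ = B a i j)
    (h2 : ∀ a a' i j, a ≠ a' → M ⟨a, i⟩ ⟨a', j⟩ = 0) : M.det = ∏ a, (B a).det := by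
  obtain ⟨e⟩ : Nonempty (A ≃ Fin (Fintype.card A)) := ⟨Fintype.equivFin A⟩
  have hbt : Matrix.BlockTriangular M (fun p => e p.1) := by
    rintro ⟨a, i⟩ ⟨a', j⟩ h
    exact h2 _ _ _ _ (fun h' => by subst h'; exact lt_irrefl _ h)
  rw [hbt.det_fintype, ← Equiv.prod_comp e]
  refine Finset.prod_congr rfl fun a _ => ?_
  let f : T a ≃ {p : (a : A) × T a // e p.1 = e a} :=
   { toFun := fun i => ⟨⟨a, i⟩, rfl⟩
     invFun := fun p => (e.injective p.2) ▸ p.1.2
     left_inv := fun i => rfl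
     right_inv := by
      rintro ⟨⟨a', i⟩, h⟩
      obtain rfl := e.injective h
      rfl }
  rw [← Matrix.det_submatrix_equiv_self f]
  congr 1
  ext i j
  exact h1 a i j

variable {A : Type} {R S : A → Type} {K : Type} [Field K]

/-- The indices of the entries. -/
abbrev Ib (R S : A → Type) : Type := (a : A) × (R a × S a)

/-- The indices of the row and column operations. -/
abbrev Wb (R S : A → Type) : Type := (a : A) × ((R a × R a) ⊕ (S a × S a))

/-- The matrix number `a`. -/
def prb (a : A) : (Ib R S → K) →ₗ[K] Matrix (R a) (S a) K where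
  toFun z := Matrix.of fun i j => z ⟨a, (i, j)⟩
  map_add' _ _ := rfl
  map_smul' _ _ := rfl

theorem prb_apply (a : A) (z : Ib R S → K) (i : R a) (j : S a) : prb a z i j = z ⟨a, (i, j)⟩ := rfl

open Classical in
/-- The family of matrices with only one nonzero matrix. -/
noncomputable def bkb (a : A) (C : Matrix (R a) (S a) K) : Ib R S → K :=
  fun p => if h : p.1 = a then C (h ▸ p.2.1) (h ▸ p.2.2) else 0

theorem bkb_same (a : A) (C : Matrix (R a) (S a) K) (q : R a × S a) :
    bkb a C ⟨a, q⟩ = C q.1 q.2 := by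
  simp [bkb]

theorem bkb_ne {a a' : A} (h : a' ≠ a) (C : Matrix (R a) (S a) K) (q : R a' × S a') :
    bkb a C ⟨a', q⟩ = 0 := by
  simp [bkb, h]

theorem prb_bkb (a : A) (C : Matrix (R a) (S a) K) : prb a (bkb a C) = C := by
  ext i j
  rw [prb_apply, bkb_same]

theorem prb_bkb_ne {a a' : A} (h : a' ≠ a) (C : Matrix (R a) (S a) K) :
    prb a' (bkb a C) = 0 := by
  ext i j
  rw [prb_apply, bkb_ne h]
  rfl

open Classical in
/-- The elementary vectors. -/
noncomputable def Gd (p p' : Ib R S) : K := if p = p' then 1 else 0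

section

variable [Fintype A] [∀ a, Fintype (R a)] [∀ a, Fintype (S a)]

theorem sum_Gd (c : Ib R S → K) : ∑ p, c p • Gd p = c := by
  classical
  funext q
  rw [Finset.sum_apply, Finset.sum_eq_single q]
  · simp [Gd]
  · intro b _ hb
    simp [Gd, hb]
  · intro h; exact absurd (Finset.mem_univ _) h

theorem sum_bkb {M : Type} [AddCommGroup M] [Module K M] (a : A) (C : Matrix (R a) (S a) K)
    (f : Ib R S → M) : ∑ p, bkb a C p • f p = ∑ i, ∑ j, C i j • f ⟨a, (i, j)⟩ := by
  classical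
  rw [Fintype.sum_sigma, Finset.sum_eq_single a]
  · rw [Fintype.sum_prod_type]
    exact Finset.sum_congr rfl fun i _ => Finset.sum_congr rfl fun j _ => by rw [bkb_same]
  · intro b _ hb
    exact Finset.sum_eq_zero fun q _ => by rw [bkb_ne hb, zero_smul]
  · intro h; exact absurd (Finset.mem_univ _) h

end

theorem ge_Gd {k : Type} [Field k] [Algebra k K] (P : Place k K) (p p' : Ib R S) :
    Ge P 0 (Gd p p' : K) := by
  unfold Gd
  split_ifs
  · exact Ge.one
  · exact Ge.zero

open Classical in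
/-- The row and column operations. -/
noncomputable def aop : Wb R S → Ib R S → Ib R S → K
  | ⟨a, Sum.inl q⟩, p, p' => if ∃ j, p = ⟨a, (q.1, j)⟩ ∧ p' = ⟨a, (q.2, j)⟩ then 1 else 0
  | ⟨a, Sum.inr q⟩, p, p' => if ∃ i, p = ⟨a, (i, q.1)⟩ ∧ p' = ⟨a, (i, q.2)⟩ then 1 else 0

open Classical in
theorem aop_inl (a : A) (q : R a × R a) (p p' : Ib R S) : (aop ⟨a, Sum.inl q⟩ p p' : K) =
    if ∃ j, p = ⟨a, (q.1, j)⟩ ∧ p' = ⟨a, (q.2, j)⟩ then 1 else 0 := rfl

open Classical in
theorem aop_inr (a : A) (q : S a × S a) (p p' : Ib R S) : (aop ⟨a, Sum.inr q⟩ p p' : K) =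
    if ∃ i, p = ⟨a, (i, q.1)⟩ ∧ p' = ⟨a, (i, q.2)⟩ then 1 else 0 := rfl

theorem ge_aop {k : Type} [Field k] [Algebra k K] (P : Place k K) (ξ : Wb R S) (p p' : Ib R S) :
    Ge P 0 (aop ξ p p' : K) := by
  rcases ξ with ⟨a, q | q⟩
  · rw [aop_inl]
    split_ifs
    · exact Ge.one
    · exact Ge.zero
  · rw [aop_inr]
    split_ifs
    · exact Ge.one
    · exact Ge.zero

theorem aop_deg {d : A → ℕ} (ξ : Wb R S) (p p' : Ib R S) (h : d p.1 ≠ d p'.1) :
    (aop ξ p p' : K) = 0 := by
  rcases ξ with ⟨a, q | q⟩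
  · rw [aop_inl]
    rw [if_neg]
    rintro ⟨j, rfl, rfl⟩
    exact h rfl
  · rw [aop_inr]
    rw [if_neg]
    rintro ⟨j, rfl, rfl⟩
    exact h rfl

section

variable [Fintype A] [∀ a, Fintype (R a)] [∀ a, Fintype (S a)] [∀ a, DecidableEq (R a)]
  [∀ a, DecidableEq (S a)]

theorem aop_left (a : A) (i i' : R a) (z : Ib R S → K) :
    (fun p => ∑ p', aop ⟨a, Sum.inl (i, i')⟩ p p' * z p') =
      bkb a ((Matrix.single i i' (1 : K) : Matrix (R a) (R a) K) * prb a z) := by
  classical
  funext ⟨a1, i1, j1⟩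
  by_cases h : a1 = a
  · subst h
    rw [bkb_same, single_mul_entry, prb_apply]
    by_cases hi : i = i1
    · subst hi
      rw [if_pos rfl, Finset.sum_eq_single ⟨a1, (i', j1)⟩]
      · rw [aop_inl]
        rw [if_pos ⟨j1, rfl, rfl⟩, one_mul]
      · intro b _ hb
        rw [aop_inl]
        rw [if_neg, zero_mul]
        rintro ⟨j, h1, h2⟩
        apply hb
        rw [h2]
        have h3 : j1 = j := by simpa using h1
        rw [h3]
      · intro h; exact absurd (Finset.mem_univ _) h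
    · rw [if_neg hi]
      refine Finset.sum_eq_zero fun b _ => ?_
      rw [aop_inl]
      rw [if_neg, zero_mul]
      rintro ⟨j, h1, h2⟩
      apply hi
      have h3 : i1 = i ∧ j1 = j := by simpa using h1
      exact h3.1.symm
  · rw [bkb_ne h]
    refine Finset.sum_eq_zero fun b _ => ?_
    rw [aop_inl]
    rw [if_neg, zero_mul]
    rintro ⟨j, h1, h2⟩
    exact h (congrArg Sigma.fst h1)

theorem aop_right (a : A) (j j' : S a) (z : Ib R S → K) :
    (fun p => ∑ p', aop ⟨a, Sum.inr (j, j')⟩ p p' * z p') =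
      bkb a (prb a z * (Matrix.single j' j (1 : K) : Matrix (S a) (S a) K)) := by
  classical
  funext ⟨a1, i1, j1⟩
  by_cases h : a1 = a
  · subst h
    rw [bkb_same, mul_single_entry, prb_apply]
    by_cases hi : j = j1
    · subst hi
      rw [if_pos rfl, Finset.sum_eq_single ⟨a1, (i1, j')⟩]
      · rw [aop_inr]
        rw [if_pos ⟨i1, rfl, rfl⟩, one_mul]
      · intro b _ hb
        rw [aop_inr]
        rw [if_neg, zero_mul]
        rintro ⟨i, h1, h2⟩
        apply hb
        rw [h2]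
        have h3 : i1 = i := by simpa using h1
        rw [h3]
      · intro h; exact absurd (Finset.mem_univ _) h
    · rw [if_neg hi]
      refine Finset.sum_eq_zero fun b _ => ?_
      rw [aop_inr]
      rw [if_neg, zero_mul]
      rintro ⟨i, h1, h2⟩
      apply hi
      have h3 : i1 = i ∧ j1 = j := by simpa using h1
      exact h3.2.symm
  · rw [bkb_ne h]
    refine Finset.sum_eq_zero fun b _ => ?_
    rw [aop_inr]
    rw [if_neg, zero_mul]
    rintro ⟨i, h1, h2⟩
    exact h (congrArg Sigma.fst h1)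

omit [Fintype A] [∀ a, Fintype (R a)] [∀ a, Fintype (S a)] in
theorem prb_Gd (a : A) (i : R a) (j : S a) :
    prb a (Gd ⟨a, (i, j)⟩ : Ib R S → K) = Matrix.single i j (1 : K) := by
  ext i' j'
  rw [prb_apply, Matrix.single_apply]
  unfold Gd
  by_cases h : i = i' ∧ j = j'
  · rw [if_pos h, if_pos (by rw [h.1, h.2])]
  · rw [if_neg h, if_neg]
    intro h'
    apply h
    simpa using h'

omit [Fintype A] [∀ a, Fintype (R a)] [∀ a, Fintype (S a)] [∀ a, DecidableEq (R a)]
  [∀ a, DecidableEq (S a)] in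
theorem prb_Gd_ne {a a' : A} (h : a' ≠ a) (q : R a × S a) :
    prb a' (Gd ⟨a, q⟩ : Ib R S → K) = 0 := by
  ext i' j'
  rw [prb_apply]
  unfold Gd
  rw [if_neg]
  · rfl
  · intro h'
    exact h (congrArg Sigma.fst h').symm

/-- The families of functionals for the matrices together. -/
theorem Fam.ofBlocks {k : Type} [Field k] [Algebra k K] {P : Place k K} {δ : Derivation ℤ K K}
    {d : A → ℕ} {μ : ℤ} {z : Ib R S → K} {Q J : A → Type} (κ : ∀ a, J a → R a × S a)
    (Y : ∀ a, Q a → Matrix (R a) (S a) K →ₗ[K] K) (g : ∀ a, Q a → Matrix (R a) (S a) K)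
    (h : ∀ a, MFam P δ (prb a z) (κ a) μ (Y a) (g a)) :
    Fam P δ (fun p : Ib R S => d p.1) z Gd
      (fun j : (a : A) × J a => (⟨j.1, κ j.1 j.2⟩ : Ib R S)) aop μ
      (fun q : (a : A) × Q a => (Y q.1 q.2).comp (prb q.1)) (fun q => bkb q.1 (g q.1 q.2)) := by
  refine ⟨fun s Δ hs hΔ q => (h q.1).der s Δ hs hΔ q.2, fun q => ?_, fun q ξ => ?_, fun q j => ?_,
    fun q => (h q.1).dir q.2, fun q p => ?_⟩
  · have h1 : prb q.1 (fun p : Ib R S => (d p.1 : K) * z p) = (d q.1 : K) • prb q.1 z := rfl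
    rw [LinearMap.comp_apply, h1, map_smul, smul_eq_mul]
    have := (Ge.natCast (P := P) (d q.1)).mul ((h q.1).self q.2)
    rwa [zero_add] at this
  · rw [sum_Gd, LinearMap.comp_apply]
    rcases ξ with ⟨a, ⟨i, i'⟩ | ⟨j, j'⟩⟩
    · rw [aop_left]
      by_cases hq : q.1 = a
      · subst hq
        rw [prb_bkb]
        exact (h q.1).left q.2 i i'
      · rw [prb_bkb_ne hq, map_zero]
        exact Ge.zero
    · rw [aop_right]
      by_cases hq : q.1 = a
      · subst hq
        rw [prb_bkb]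
        exact (h q.1).right q.2 j' j
      · rw [prb_bkb_ne hq, map_zero]
        exact Ge.zero
  · rw [LinearMap.comp_apply]
    rcases j with ⟨a, j⟩
    by_cases hq : q.1 = a
    · subst hq
      have h1 := prb_Gd (K := K) (R := R) (S := S) q.1 (κ q.1 j).1 (κ q.1 j).2
      dsimp only
      rw [h1]
      exact (h q.1).row q.2 j
    · dsimp only
      rw [prb_Gd_ne hq, map_zero]
      exact Ge.zero
  · rcases p with ⟨a, p⟩
    by_cases hq : a = q.1
    · subst hq
      rw [bkb_same]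
      exact (h q.1).int q.2 _ _
    · rw [bkb_ne hq]
      exact Ge.zero

open scoped Classical in
/-- The determinant of the families of functionals. -/
theorem det_ofBlocks {Q : A → Type} [∀ a, Fintype (Q a)]
    (Y : ∀ a, Q a → Matrix (R a) (S a) K →ₗ[K] K) (g : ∀ a, Q a → Matrix (R a) (S a) K) :
    (Matrix.of fun q q' : (a : A) × Q a => ((Y q.1 q.2).comp (prb q.1))
      (∑ p, bkb q'.1 (g q'.1 q'.2) p • Gd p)).det =
      ∏ a, (Matrix.of fun q q' : Q a => Y a q (g a q')).det := by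
  refine det_blk _ _ (fun a i j => ?_) (fun a a' i j h => ?_)
  · rw [Matrix.of_apply, sum_Gd, LinearMap.comp_apply, prb_bkb, Matrix.of_apply]
  · rw [Matrix.of_apply, sum_Gd, LinearMap.comp_apply, prb_bkb_ne h, map_zero]

end

end Pool.Agent.T6.H19.DW
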