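import Pool.Agent.T6.H19.DW.Ops
import Pool.Agent.TH812.GV2.Loss

/-!
The local estimate, from a family of functionals on the values of the forms.
-/

set_option autoImplicit false

open MvPolynomial Pool.Agent.TH145.GH FF Pool.Agent.W603.LV Pool.Agent.W603.PV
open Pool.Agent.TH145.GC (Ev Ti tv wv Ev_mod)
open Pool.Agent.T6.H19.DV (ev ev_scale)

namespace Pool.Agent.T6.H19.DW

variable {k K : Type} [Field k] [Field K] [Algebra k K] {n : ℕ} {ι W J : Type} [Fintype ι]
  {F : ι → MvPolynomial (Fin (n + 1)) K} {dg : ι → ℕ} {G : ι → ι → K}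
  {D : ι → (Fin (n + 1) →₀ ℕ) → Derivation ℤ K K} {a : W → ι → ι → K}

/-- The loss of a derivation at a place: `e` in the direction of the curve, and `s` in the other
directions. -/
structure Loss (P : Place k K) (π : K) (δ : Derivation ℤ K K) (s e : ℤ)
    (Δ : Derivation ℤ K K) : Prop where
  dir : Ge P (-e) (Δ π)
  loss : ∀ (g : ℤ) (f : K), Ge P g f → Ge P (g - s) (Δ f - Δ π * δ f)

/-- The loss of an operation. -/
theorem Loss.op {P : Place k K} {π : K} {δ : Derivation ℤ K K} {s e c : ℤ}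
    (hD : ∀ p (I : Fin (n + 1) →₀ ℕ), I.degree = dg p → Loss P π δ s e (D p I))
    (hhom : ∀ p, (F p).IsHomogeneous (dg p))
    (hF : ∀ p u, Ge P (-c) ((F p).coeff u)) {a : ι → ι → K} (ha : ∀ p p', Ge P 0 (a p p'))
    (had : ∀ p p', dg p ≠ dg p' → a p p' = 0) :
    Loss P π δ (s + c) (e + c) (Op F D a) := by
  refine ⟨?_, fun g f hf => ?_⟩
  · rw [Op_apply]
    refine Ge.sum _ _ fun p _ => Ge.sum _ _ fun p' _ => Ge.sum _ _ fun I hI => ?_
    by_cases hd : dg p = dg p'
    · have h1 := ((ha p p').mul (hF p' I)).mul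
        (hD p I ((deg_of_mem (hhom p') hI).trans hd.symm)).dir
      exact h1.mono (by omega)
    · rw [had p p' hd, zero_mul, zero_mul]
      exact Ge.zero
  · have h2 : Op F D a f - Op F D a π * δ f = ∑ p, ∑ p', ∑ I ∈ (F p').support,
        (a p p' * (F p').coeff I) * (D p I f - D p I π * δ f) := by
      rw [Op_apply, Op_apply]
      simp only [mul_sub, Finset.sum_sub_distrib, Finset.sum_mul]
      congr 1
      refine Finset.sum_congr rfl fun p _ => Finset.sum_congr rfl fun p' _ =>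
        Finset.sum_congr rfl fun I _ => by ring
    rw [h2]
    refine Ge.sum _ _ fun p _ => Ge.sum _ _ fun p' _ => Ge.sum _ _ fun I hI => ?_
    by_cases hd : dg p = dg p'
    · have h1 := ((ha p p').mul (hF p' I)).mul
        ((hD p I ((deg_of_mem (hhom p') hI).trans hd.symm)).loss g f hf)
      exact h1.mono (by omega)
    · rw [had p p' hd, zero_mul, zero_mul]
      exact Ge.zero

/-- A family of functionals `Y q` on the values `z` of the forms that are integral on the derivatives
and on the operations, and vectors `g q`. -/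
structure Fam (P : Place k K) (δ : Derivation ℤ K K) (dg : ι → ℕ) (z : ι → K) (G : ι → ι → K)
    (κ : J → ι) (a : W → ι → ι → K) (μ : ℤ) {Q : Type} (Y : Q → (ι → K) →ₗ[K] K)
    (g : Q → ι → K) : Prop where
  der : ∀ (s : ℤ) (Δ : Derivation ℤ K K), 0 ≤ s → (∀ (c : ℤ) f, Ge P c f → Ge P (c - s) (Δ f)) →
    ∀ q, Ge P (-s) (Y q fun p => Δ (z p))
  self : ∀ q, Ge P 0 (Y q fun p => (dg p : K) * z p)
  op : ∀ q ξ, Ge P 0 (Y q (∑ p, (∑ p', a ξ p p' * z p') • G p))
  row : ∀ q j, Ge P 0 (Y q (G (κ j)))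
  dir : ∀ q, Ge P (-μ) (Y q fun p => δ (z p))
  int : ∀ q p, Ge P 0 (g q p)

open scoped Classical in
theorem ord_detA [Fintype J] (hF : SysG F dg G D) (had : ∀ ξ p p', dg p ≠ dg p' → a ξ p p' = 0)
    {P : Place k K} {π : K} {δ : Derivation ℤ K K} (hδ : ∀ f, Ge P 0 f → Ge P 0 (δ f))
    {x : Fin (n + 1) → K} (hx : ∀ l, Ge P 0 (x l)) {e1 : Fin (n + 1)} (he1 : x e1 = 1)
    {κ : J → ι} {s e μ : ℤ} (hs : 0 ≤ s) (he : 0 ≤ e) (hμ : 0 ≤ μ)
    (hD : ∀ p (I : Fin (n + 1) →₀ ℕ), I.degree = dg p → Loss P π δ s e (D p I))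
    (hE : ∀ ξ, Loss P π δ s e (Op F D (a ξ))) {Q : Type} [Fintype Q]
    {Y : Q → (ι → K) →ₗ[K] K} {g : Q → ι → K} (hfam : Fam P δ dg (zv F x) G κ a μ Y g)
    (hA : (Matrix.of fun q q' => Y q (∑ p, g q' p • G p)).det ≠ 0)
    {b : Finset (Gx n ι W)} (σ : b ⊕ J → Fin (n + 1))
    (hcard : Module.finrank K (FuA dg D (fun ξ => Op F D (a ξ)) x) = b.card + Fintype.card J)
    (hdet : (mtA dg D (fun ξ => Op F D (a ξ)) x e1 κ b σ).det ≠ 0) :
    -(P.ord (Matrix.of fun q q' => Y q (∑ p, g q' p • G p)).det) -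
      ((n + 1) + Fintype.card Q) * s - e - μ ≤
        P.ord (mtA dg D (fun ξ => Op F D (a ξ)) x e1 κ b σ).det := by
  choose y hy using fun q : Q => exists_coordA σ hcard hdet ((Y q).comp (dV F x))
  have hy' : ∀ q, ∀ z ∈ FuA dg D (fun ξ => Op F D (a ξ)) x,
      ∑ j, y q j * z (σ j) = Y q (dV F x z) := hy
  -- the general derivation
  have hder : ∀ Δ : Derivation ℤ K K, Loss P π δ s e Δ → ∀ q,
      Ge P (-s) (Y q (fun p => Δ (zv F x p)) - Δ π * Y q fun p => δ (zv F x p)) := by
    intro Δ hΔ q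
    have h1 := hfam.der s (Δ - Δ π • δ) hs (fun c f hf => by
      have := hΔ.loss c f hf
      rwa [Derivation.sub_apply, Derivation.smul_apply, smul_eq_mul]) q
    have h2 : (fun p => (Δ - Δ π • δ) (zv F x p)) =
        (fun p => Δ (zv F x p)) - Δ π • fun p => δ (zv F x p) := by
      funext p
      rw [Derivation.sub_apply, Derivation.smul_apply, Pi.sub_apply, Pi.smul_apply]
    rw [h2, map_sub, map_smul, smul_eq_mul] at h1
    exact h1
  obtain ⟨I1, hI1⟩ : ∃ I1 : ι → Fin (n + 1) →₀ ℕ, ∀ p, I1 p = Finsupp.single e1 (dg p) :=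
    ⟨_, fun _ => rfl⟩
  have hI1d : ∀ p, (I1 p).degree = dg p := fun p => by rw [hI1, Finsupp.degree_single]
  have hmon : ∀ p, mon x (I1 p) = 1 := fun p => by rw [hI1, mon_single, he1, one_pow]
  -- the coefficients of the direction of the curve
  obtain ⟨c, hc⟩ : ∃ c : Gx n ι W ⊕ J → K, ∀ i, c i = match i with
      | Sum.inl none => 0
      | Sum.inl (some (Sum.inl ξ)) => Op F D (a ξ) π
      | Sum.inl (some (Sum.inr t)) => if t.2.1.degree + 1 = dg t.1 then
          x t.2.2.2 * D t.1 (t.2.1 + Finsupp.single t.2.2.1 1) π -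
            x t.2.2.1 * D t.1 (t.2.1 + Finsupp.single t.2.2.2 1) π else 0
      | Sum.inr j => D (κ j) (Finsupp.single e1 (dg (κ j))) π := ⟨_, fun _ => rfl⟩
  have hcge : ∀ i, Ge P (-e) (c i) := by
    rintro ((_ | ξ | t) | j)
    · rw [hc]; exact Ge.zero
    · rw [hc]; exact (hE ξ).dir
    · rw [hc]
      dsimp only
      split_ifs with ht
      · refine Ge.mono (by omega : -e ≤ 0 + -e) (Ge.sub ?_ ?_)
        · exact (hx _).mul (hD _ _ (by rw [map_add, Finsupp.degree_single, ht])).dir
        · exact (hx _).mul (hD _ _ (by rw [map_add, Finsupp.degree_single, ht])).dir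
      · exact Ge.zero
    · rw [hc]; exact (hD _ _ (Finsupp.degree_single _ _)).dir
  have hrow : ∀ i l, Ge P (-s) (rvA dg D (fun ξ => Op F D (a ξ)) x e1 κ i l -
      c i * δ (x l)) := by
    have h0 : ∀ Δ : Derivation ℤ K K, Loss P π δ s e Δ → ∀ l,
        Ge P (-s) (Δ (x l) - Δ π * δ (x l)) := fun Δ hΔ l =>
      (hΔ.loss 0 _ (hx l)).mono (by omega)
    rintro ((_ | ξ | t) | j) l
    · rw [hc, zero_mul, sub_zero]
      exact (hx l).mono (by omega)
    · rw [hc]; exact h0 _ (hE ξ) l
    · rw [hc]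
      simp only [rvA, genA, tv]
      split_ifs with ht
      · have h3 := (hx t.2.2.2).mul (h0 _ (hD t.1 (t.2.1 + Finsupp.single t.2.2.1 1)
          (by rw [map_add, Finsupp.degree_single, ht])) l)
        have h4 := (hx t.2.2.1).mul (h0 _ (hD t.1 (t.2.1 + Finsupp.single t.2.2.2 1)
          (by rw [map_add, Finsupp.degree_single, ht])) l)
        have h5 := (h3.sub h4).mono (by omega : -s ≤ 0 + -s)
        convert h5 using 1
        simp only [Pi.sub_apply, Pi.smul_apply, smul_eq_mul, Ev]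
        ring
      · rw [zero_mul, sub_zero]
        exact Ge.zero
    · rw [hc]; exact h0 _ (hD _ _ (Finsupp.degree_single _ _)) l
  have hval : ∀ i q, Ge P (-s) (Y q (dV F x (rvA dg D (fun ξ => Op F D (a ξ)) x e1 κ i)) -
      c i * Y q fun p => δ (zv F x p)) := by
    rintro ((_ | ξ | t) | j) q
    · rw [hc, zero_mul, sub_zero]
      simp only [rvA, genA]
      rw [dV_self hF]
      exact (hfam.self q).mono (by omega)
    · rw [hc]
      simp only [rvA, genA]
      rw [dV_ev, map_sub, mcv_Op hF (had ξ)]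
      have h1 := (hder _ (hE ξ) q).sub ((hfam.op q ξ).mono (by omega : -s ≤ 0))
      convert h1 using 1
      ring
    · rw [hc]
      simp only [rvA, genA]
      rw [dV_tv hF]
      split_ifs with ht
      · have h3 := (hx t.2.2.2).mul (hder _ (hD t.1 (t.2.1 + Finsupp.single t.2.2.1 1)
          (by rw [map_add, Finsupp.degree_single, ht])) q)
        have h4 := (hx t.2.2.1).mul (hder _ (hD t.1 (t.2.1 + Finsupp.single t.2.2.2 1)
          (by rw [map_add, Finsupp.degree_single, ht])) q)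
        have h5 := (h3.sub h4).mono (by omega : -s ≤ 0 + -s)
        convert h5 using 1
        rw [map_sub, map_smul, map_smul, smul_eq_mul, smul_eq_mul]
        ring
      · rw [map_zero, zero_mul, sub_zero]
        exact Ge.zero
    · rw [hc]
      simp only [rvA]
      rw [dV_Ev hF x (κ j) (Finsupp.degree_single _ _), map_sub, map_smul]
      have h0 := hmon (κ j)
      rw [hI1] at h0
      rw [h0, one_smul]
      have h1 := (hder _ (hD (κ j) _ (Finsupp.degree_single e1 _)) q).sub
        ((hfam.row q j).mono (by omega : -s ≤ 0))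
      convert h1 using 1
      ring
  -- the other vectors
  obtain ⟨Z, hZ⟩ : ∃ Z : Q → Fin (n + 1) → K, ∀ q, Z q = ∑ p, g q p • Ev D x p (I1 p) :=
    ⟨_, fun _ => rfl⟩
  have hZF : ∀ q, Z q ∈ FuA dg D (fun ξ => Op F D (a ξ)) x := by
    intro q
    rw [hZ]
    exact Submodule.sum_mem _ fun p _ => Submodule.smul_mem _ _ (Ev_mem_FuA x p (hI1d p))
  have hcard' : b.card + Fintype.card J ≤ n + 1 := by
    rw [← hcard]
    have := Submodule.finrank_le (FuA dg D (fun ξ => Op F D (a ξ)) x)
    rwa [Module.finrank_fin_fun] at this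
  have key := det_lattice_dir P (mtA dg D (fun ξ => Op F D (a ξ)) x e1 κ b σ) (Matrix.of y)
    (Matrix.of fun q j => Z q (σ j)) (Matrix.of fun q q' => Y q (∑ p, g q' p • G p))
    (fun j => δ (x (σ j))) (fun i => c (riA i)) (fun q => ∑ p, g q p * D p (I1 p) π)
    (fun q => Y q fun p => δ (zv F x p)) hs he hμ (fun j => hδ _ (hx _)) (fun i => hcge _)
    (fun q => Ge.sum _ _ fun p _ => ((hfam.int q p).mul (hD p _ (hI1d p)).dir).mono (by omega))
    (fun i j => hrow (riA i) (σ j)) (fun q j => by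
      rw [Matrix.of_apply, hZ, Finset.sum_apply, Finset.sum_mul, ← Finset.sum_sub_distrib]
      refine Ge.sum _ _ fun p _ => ?_
      have h1 := (hfam.int q p).mul (((hD p _ (hI1d p)).loss 0 _ (hx (σ j))).mono
        (by omega : -s ≤ 0 - s))
      refine Ge.mono (by omega : -s ≤ 0 + -s) ?_
      convert h1 using 1
      simp only [Pi.smul_apply, smul_eq_mul, Ev]
      ring) (fun q => hfam.dir q) (fun q i => by
      have h2 : (Matrix.of y * (mtA dg D (fun ξ => Op F D (a ξ)) x e1 κ b σ).transpose) q i =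
        ∑ j, y q j * rvA dg D (fun ξ => Op F D (a ξ)) x e1 κ (riA i) (σ j) := rfl
      rw [h2, hy' q _ (rv_mem_FuA x _ _ _)]
      exact hval _ q) (fun q q' => by
      have h2 : (Matrix.of y * (Matrix.of fun q j => Z q (σ j)).transpose) q q' =
        ∑ j, y q j * Z q' (σ j) := rfl
      rw [h2, hy' q _ (hZF q'), Matrix.of_apply, hZ, map_sum, map_sum, map_sum]
      have h3 : ∀ p, Y q (g q' p • G p) + Y q (dV F x (g q' p • Ev D x p (I1 p))) =
          g q' p * Y q fun r => D p (I1 p) (zv F x r) := by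
        intro p
        rw [map_smul, map_smul, dV_Ev hF x p (hI1d p), hmon, one_smul, map_smul, map_sub,
          smul_eq_mul, smul_eq_mul]
        ring
      rw [← Finset.sum_add_distrib, Finset.sum_congr rfl fun p _ => h3 p, Finset.sum_mul,
        ← Finset.sum_sub_distrib]
      refine Ge.sum _ _ fun p _ => ?_
      have h1 := (hfam.int q' p).mul (hder _ (hD p _ (hI1d p)) q)
      refine Ge.mono (by omega : -s ≤ 0 + -s) ?_
      convert h1 using 1
      ring) hA hdet
  have h5 : (((Fintype.card (b ⊕ J) : ℕ) : ℤ) + Fintype.card Q) * s ≤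
      ((n + 1) + Fintype.card Q) * s := by
    refine mul_le_mul_of_nonneg_right ?_ hs
    rw [Fintype.card_sum, Fintype.card_coe]
    have : ((b.card + Fintype.card J : ℕ) : ℤ) ≤ n + 1 := by exact_mod_cast hcard'
    push_cast at this ⊢
    linarith
  linarith

end Pool.Agent.T6.H19.DW
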