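import Pool.Agent.T6.H19.DV.Chg
import Pool.Agent.T6.H19.DW.Lat

/-!
Diagonalisation of a matrix with integral entries at a place by complete pivoting.
-/

set_option autoImplicit false

open FF Pool.Agent.W603.LV Matrix
open Pool.Agent.T6.H19.DV (ge_mul ge_one_apply mnr)

namespace Pool.Agent.T6.H19.DW

variable {k K : Type} [Field k] [Field K] [Algebra k K] {R S : Type}

/-- The matrix `N` is the sum of the matrices `p k • U k * V k`, with pivots `p k`, and integral
columns `U k` and rows `V k` that are triangular with respect to `i0` and `j0`. -/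
structure Piv (P : Place k K) (N : Matrix R S K) (m : ℕ) (U : Matrix R (Fin m) K)
    (V : Matrix (Fin m) S K) (p : Fin m → K) (i0 : Fin m → R) (j0 : Fin m → S) : Prop where
  geU : ∀ i k, Ge P 0 (U i k)
  geV : ∀ k j, Ge P 0 (V k j)
  pne : ∀ k, p k ≠ 0
  U1 : ∀ k, U (i0 k) k = 1
  U0 : ∀ l k, l < k → U (i0 l) k = 0
  V1 : ∀ k, V k (j0 k) = 1
  V0 : ∀ l k, l < k → V k (j0 l) = 0
  Uz : ∀ i, (∀ j, N i j = 0) → ∀ k, U i k = 0
  Vz : ∀ j, (∀ i, N i j = 0) → ∀ k, V k j = 0
  eq : ∀ i j, N i j = ∑ k, U i k * p k * V k j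

theorem exists_piv_aux [Finite R] [Finite S] (P : Place k K) : ∀ (c : ℕ) (N : Matrix R S K),
    {i | ∃ j, N i j ≠ 0}.ncard ≤ c → ∃ m U V p i0 j0, Piv P N m U V p i0 j0 := by
  classical
  have := Fintype.ofFinite R
  have := Fintype.ofFinite S
  intro c
  induction c with
  | zero =>
    intro N hc
    have h0 : ∀ i j, N i j = 0 := by
      intro i j
      by_contra h
      have h1 : {i | ∃ j, N i j ≠ 0} = ∅ := by
        rw [Nat.le_zero, Set.ncard_eq_zero] at hc
        exact hc
      have h2 : i ∈ {i | ∃ j, N i j ≠ 0} := ⟨j, h⟩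
      rw [h1] at h2
      exact h2
    refine ⟨0, fun _ => Fin.elim0, Fin.elim0, Fin.elim0, Fin.elim0, Fin.elim0,
      ⟨fun _ k => k.elim0, fun k => k.elim0, fun k => k.elim0,
        fun k => k.elim0, fun k => k.elim0, fun k => k.elim0, fun k => k.elim0,
        fun _ _ k => k.elim0, fun _ _ k => k.elim0, fun i j => by simp [h0]⟩⟩
  | succ c ih =>
    intro N hc
    by_cases hz : ∀ i j, N i j = 0
    · exact ih N (by
        have h1 : {i | ∃ j, N i j ≠ 0} = ∅ := by
          ext i
          simp [hz]
        rw [h1, Set.ncard_empty]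
        exact Nat.zero_le _)
    push Not at hz
    obtain ⟨a, b, hab⟩ := hz
    obtain ⟨⟨i1, j1⟩, hij, hmin⟩ := Finset.exists_min_image
      (Finset.univ.filter fun q : R × S => N q.1 q.2 ≠ 0) (fun q => P.ord (N q.1 q.2))
      ⟨(a, b), Finset.mem_filter.2 ⟨Finset.mem_univ _, hab⟩⟩
    have hne : N i1 j1 ≠ 0 := (Finset.mem_filter.1 hij).2
    have hge : ∀ i j, Ge P (P.ord (N i1 j1)) (N i j) := by
      intro i j
      by_cases h : N i j = 0
      · exact Or.inl h
      · exact Or.inr (hmin (i, j) (Finset.mem_filter.2 ⟨Finset.mem_univ _, h⟩))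
    have hdiv : ∀ i j, Ge P 0 (N i j / N i1 j1) := by
      intro i j
      by_cases h : N i j = 0
      · rw [h, zero_div]; exact Ge.zero
      · right
        rw [P.ord_div h hne]
        have := (hge i j).resolve_left h
        omega
    obtain ⟨N', hN'⟩ : ∃ N' : Matrix R S K, ∀ i j, N' i j =
      N i j - N i j1 / N i1 j1 * N i1 j := ⟨fun i j => N i j - N i j1 / N i1 j1 * N i1 j,
        fun _ _ => rfl⟩
    have hrow : ∀ j, N' i1 j = 0 := fun j => by
      rw [hN', div_self hne, one_mul, sub_self]
    have hcol : ∀ i, N' i j1 = 0 := fun i => by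
      rw [hN', div_mul_cancel₀ _ hne, sub_self]
    have hsub : {i | ∃ j, N' i j ≠ 0} ⊆ {i | ∃ j, N i j ≠ 0} \ {i1} := by
      rintro i ⟨j, hj⟩
      refine ⟨?_, ?_⟩
      · by_contra hcon
        simp only [Set.mem_ofPred_eq, not_exists, not_not] at hcon
        apply hj
        rw [hN', hcon, hcon, zero_div, zero_mul, sub_zero]
      · rintro rfl
        exact hj (hrow j)
    have hcard : {i | ∃ j, N' i j ≠ 0}.ncard ≤ c := by
      have h1 := Set.ncard_le_ncard hsub (Set.toFinite _)
      have h2 : i1 ∈ {i | ∃ j, N i j ≠ 0} := ⟨j1, hne⟩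
      have h3 := Set.ncard_sdiff_singleton_of_mem h2
      omega
    obtain ⟨m, U, V, p, i0, j0, h⟩ := ih N' hcard
    refine ⟨m + 1, fun i => Fin.cons (N i j1 / N i1 j1) (U i),
      Fin.cons (fun j => N i1 j / N i1 j1) V, Fin.cons (N i1 j1) p, Fin.cons i1 i0,
      Fin.cons j1 j0, ?_⟩
    refine ⟨fun i k => ?_, fun k j => ?_, fun k => ?_, fun k => ?_, fun l k => ?_,
      fun k => ?_, fun l k => ?_, fun i hi k => ?_, fun j hj k => ?_, fun i j => ?_⟩
    · refine Fin.cases ?_ (fun k => ?_) k
      · exact hdiv i j1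
      · exact h.geU i k
    · refine Fin.cases ?_ (fun k => ?_) k
      · exact hdiv i1 j
      · exact h.geV k j
    · refine Fin.cases ?_ (fun k => ?_) k
      · exact hne
      · exact h.pne k
    · refine Fin.cases ?_ (fun k => ?_) k
      · simp only [Fin.cons_zero]
        exact div_self hne
      · simp only [Fin.cons_succ]
        exact h.U1 k
    · refine Fin.cases ?_ (fun k => ?_) k
      · intro hl
        exact absurd hl (Fin.not_lt_zero _)
      · refine Fin.cases ?_ (fun l => ?_) l
        · intro _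
          simp only [Fin.cons_zero, Fin.cons_succ]
          exact h.Uz i1 hrow k
        · intro hl
          simp only [Fin.cons_succ]
          exact h.U0 l k (Fin.succ_lt_succ_iff.1 hl)
    · refine Fin.cases ?_ (fun k => ?_) k
      · simp only [Fin.cons_zero]
        exact div_self hne
      · simp only [Fin.cons_succ]
        exact h.V1 k
    · refine Fin.cases ?_ (fun k => ?_) k
      · intro hl
        exact absurd hl (Fin.not_lt_zero _)
      · refine Fin.cases ?_ (fun l => ?_) l
        · intro _
          simp only [Fin.cons_zero, Fin.cons_succ]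
          exact h.Vz j1 hcol k
        · intro hl
          simp only [Fin.cons_succ]
          exact h.V0 l k (Fin.succ_lt_succ_iff.1 hl)
    · refine Fin.cases ?_ (fun k => ?_) k
      · simp only [Fin.cons_zero]
        rw [hi, zero_div]
      · simp only [Fin.cons_succ]
        exact h.Uz i (fun j => by rw [hN', hi, hi, zero_div, zero_mul, sub_zero]) k
    · refine Fin.cases ?_ (fun k => ?_) k
      · simp only [Fin.cons_zero]
        rw [hj, zero_div]
      · simp only [Fin.cons_succ]
        exact h.Vz j (fun i => by rw [hN', hj, hj, mul_zero, sub_zero]) k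
    · rw [Fin.sum_univ_succ]
      simp only [Fin.cons_zero, Fin.cons_succ]
      rw [← h.eq, hN']
      field_simp
      ring

theorem exists_piv [Finite R] [Finite S] (P : Place k K) (N : Matrix R S K) :
    ∃ m U V p i0 j0, Piv P N m U V p i0 j0 := exists_piv_aux P _ N le_rfl

/-- A matrix with integral entries and determinant one has an integral inverse. -/
theorem ge_inv (P : Place k K) {m : ℕ} {T : Matrix (Fin m) (Fin m) K}
    (hT : ∀ i j, Ge P 0 (T i j)) (hdet : T.det = 1) (i j : Fin m) : Ge P 0 (T⁻¹ i j) := by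
  rw [Matrix.inv_def, hdet, Ring.inverse_one, one_smul, Matrix.adjugate_apply]
  have h1 := ge_det_w P (T.updateRow j (Pi.single i 1)) (fun _ => 0) (fun _ => 0)
    (fun a b => by
      rw [neg_zero, sub_zero]
      by_cases ha : a = j
      · rw [ha, Matrix.updateRow_self]
        by_cases hb : b = i
        · rw [hb, Pi.single_eq_same]; exact Ge.one
        · rw [Pi.single_eq_of_ne hb]; exact Ge.zero
      · rw [Matrix.updateRow_ne ha]
        exact hT a b)
  simpa using h1

section

variable {P : Place k K} {N : Matrix R S K} {m : ℕ} {U : Matrix R (Fin m) K}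
  {V : Matrix (Fin m) S K} {p : Fin m → K} {i0 : Fin m → R} {j0 : Fin m → S}

theorem Piv.eq' (h : Piv P N m U V p i0 j0) : N = U * Matrix.diagonal p * V := by
  ext i j
  rw [h.eq, Matrix.mul_apply]
  refine Finset.sum_congr rfl fun k _ => ?_
  rw [Matrix.mul_diagonal]

theorem Piv.detU (h : Piv P N m U V p i0 j0) : (U.submatrix i0 id).det = 1 := by
  rw [← Matrix.det_transpose, Matrix.det_of_isUpperTriangular]
  · refine Finset.prod_eq_one fun k _ => ?_
    exact h.U1 k
  · intro i j hij
    exact h.U0 _ _ hij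

theorem Piv.detV (h : Piv P N m U V p i0 j0) : (V.submatrix id j0).det = 1 := by
  rw [Matrix.det_of_isUpperTriangular]
  · refine Finset.prod_eq_one fun k _ => ?_
    exact h.V1 k
  · intro i j hij
    exact h.V0 _ _ hij

theorem Piv.inj (h : Piv P N m U V p i0 j0) : Function.Injective i0 := by
  intro l k hlk
  rcases lt_trichotomy l k with h1 | h1 | h1
  · have h2 := h.U0 l k h1
    rw [hlk, h.U1] at h2
    exact absurd h2 one_ne_zero
  · exact h1
  · have h2 := h.U0 k l h1
    rw [← hlk, h.U1] at h2
    exact absurd h2 one_ne_zero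

theorem Piv.inj' (h : Piv P N m U V p i0 j0) : Function.Injective j0 := by
  intro l k hlk
  rcases lt_trichotomy l k with h1 | h1 | h1
  · have h2 := h.V0 l k h1
    rw [hlk, h.V1] at h2
    exact absurd h2 one_ne_zero
  · exact h1
  · have h2 := h.V0 k l h1
    rw [← hlk, h.V1] at h2
    exact absurd h2 one_ne_zero

/-- For a nonsingular square matrix, the product of the pivots is the determinant up to sign. -/
theorem Piv.ord (h : Piv P N m U V p i0 j0) {ρ : ℕ} {f : Fin ρ → R} {g : Fin ρ → S}
    (hf : Function.Bijective f) (hg : Function.Bijective g) (hfg : mnr N f g ≠ 0) :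
    P.ord (mnr N f g) = ∑ k, P.ord (p k) := by
  classical
  have hR : Finite R := Finite.of_surjective f hf.2
  have := Fintype.ofFinite R
  have hmρ : m = ρ := by
    apply le_antisymm
    · have h1 := Fintype.card_le_of_injective i0 h.inj
      have h2 := Fintype.card_of_bijective hf
      rw [Fintype.card_fin] at h1 h2
      omega
    · have h1 : (N.submatrix f g).rank = ρ := by
        have h2 := Matrix.rank_of_isUnit (N.submatrix f g)
          ((Matrix.isUnit_iff_isUnit_det _).2 (isUnit_iff_ne_zero.2 hfg))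
        rwa [Fintype.card_fin] at h2
      have h2 : N.submatrix f g = U.submatrix f id * (Matrix.diagonal p * V.submatrix id g) := by
        rw [h.eq', Matrix.mul_assoc]
        rfl
      rw [h2] at h1
      rw [← h1]
      exact (Matrix.rank_mul_le_left _ _).trans (Matrix.rank_le_width _)
  subst hmρ
  have hbi : Function.Bijective i0 := (Fintype.bijective_iff_injective_and_card i0).2
    ⟨h.inj, Fintype.card_of_bijective hf⟩
  have hS : Finite S := Finite.of_surjective g hg.2
  have := Fintype.ofFinite S
  have hbj : Function.Bijective j0 := (Fintype.bijective_iff_injective_and_card j0).2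
    ⟨h.inj', Fintype.card_of_bijective hg⟩
  obtain ⟨σ, hσ⟩ : ∃ σ : Equiv.Perm (Fin m), ∀ l, i0 (σ l) = f l :=
    ⟨(Equiv.ofBijective f hf).trans (Equiv.ofBijective i0 hbi).symm, fun l => by
      exact (Equiv.ofBijective i0 hbi).apply_symm_apply (f l)⟩
  obtain ⟨τ, hτ⟩ : ∃ τ : Equiv.Perm (Fin m), ∀ l, j0 (τ l) = g l :=
    ⟨(Equiv.ofBijective g hg).trans (Equiv.ofBijective j0 hbj).symm, fun l => by
      exact (Equiv.ofBijective j0 hbj).apply_symm_apply (g l)⟩
  have h3 : N.submatrix f g = ((U.submatrix i0 id).submatrix σ id) * (Matrix.diagonal p *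
      ((V.submatrix id j0).submatrix id τ)) := by
    have e1 : (U.submatrix i0 id).submatrix σ id = U.submatrix f id := by
      ext a b
      simp [hσ]
    have e2 : (V.submatrix id j0).submatrix id τ = V.submatrix id g := by
      ext a b
      simp [hτ]
    rw [e1, e2, h.eq', Matrix.mul_assoc]
    rfl
  have h4 : mnr N f g = (Equiv.Perm.sign σ : K) * ((∏ k, p k) * (Equiv.Perm.sign τ : K)) := by
    have e0 : mnr N f g = (N.submatrix f g).det := rfl
    rw [e0, h3, Matrix.det_mul, Matrix.det_mul, Matrix.det_diagonal, Matrix.det_permute,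
      Matrix.det_permute', h.detU, h.detV, mul_one, mul_one]
  have hs : ∀ σ : Equiv.Perm (Fin m), ((Equiv.Perm.sign σ : ℤ) : K) ≠ 0 ∧
      P.ord ((Equiv.Perm.sign σ : ℤ) : K) = 0 := by
    intro σ
    rcases Int.units_eq_one_or (Equiv.Perm.sign σ) with h | h
    · rw [h]; simp [P.ord_one]
    · rw [h]; simp [P.ord_neg, P.ord_one]
  have hprod : ∀ s : Finset (Fin m), P.ord (∏ k ∈ s, p k) = ∑ k ∈ s, P.ord (p k) := by
    intro s
    induction s using Finset.induction_on with
    | empty => simp [P.ord_one]
    | insert a s ha ih =>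
      rw [Finset.prod_insert ha, Finset.sum_insert ha, P.ord_mul (h.pne a)
        (Finset.prod_ne_zero_iff.2 fun b _ => h.pne b), ih]
  have hp0 : ∏ k, p k ≠ 0 := Finset.prod_ne_zero_iff.2 fun b _ => h.pne b
  rw [h4, P.ord_mul (hs σ).1 (mul_ne_zero hp0 (hs τ).1), P.ord_mul hp0 (hs τ).1, (hs σ).2,
    (hs τ).2, hprod, zero_add, add_zero]

end

end Pool.Agent.T6.H19.DW
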