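import Pool.Agent.T6.H19.DV.Est
import Pool.Agent.T6.H19.DW.Piv
import Pool.Agent.T6.H19.DW.Est

/-!
Families of functionals on a matrix at a place: for degenerate matrices, and for the determinant.
-/

set_option autoImplicit false

open FF Pool.Agent.W603.LV Pool.Agent.W603.PV Matrix
open Pool.Agent.T6.H19.DV (ge_mul ge_one_apply mnr mna Van Mini Hm Hm_add Hm_sub Hm_smul Hm_left
  Hm_right Hm_single_inl Hm_single_inr ge_Hm_der map_mul_der)

namespace Pool.Agent.T6.H19.DW

variable {k K : Type} [Field k] [Field K] [Algebra k K] {R S : Type} [Fintype R] [Fintype S]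
  [DecidableEq R] [DecidableEq S]

/-- A family of functionals on the matrices that are integral on the derivatives of `N`, and on the
row and column operations. -/
structure MFam (P : Place k K) (δ : Derivation ℤ K K) (N : Matrix R S K) {J : Type}
    (κ : J → R × S) (μ : ℤ) {Q : Type} (Y : Q → Matrix R S K →ₗ[K] K) (g : Q → Matrix R S K) :
    Prop where
  der : ∀ (s : ℤ) (Δ : Derivation ℤ K K), 0 ≤ s → (∀ (c : ℤ) f, Ge P c f → Ge P (c - s) (Δ f)) →
    ∀ q, Ge P (-s) (Y q (N.map Δ))
  left : ∀ q (i i' : R), Ge P 0 (Y q ((Matrix.single i i' (1 : K) : Matrix R R K) * N))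
  right : ∀ q (j' j : S), Ge P 0 (Y q (N * (Matrix.single j' j (1 : K) : Matrix S S K)))
  row : ∀ q j, Ge P 0 (Y q (Matrix.single (κ j).1 (κ j).2 (1 : K) : Matrix R S K))
  dir : ∀ q, Ge P (-μ) (Y q (N.map δ))
  int : ∀ q i j, Ge P 0 (g q i j)

theorem sum_single_mul (N : Matrix R S K) :
    N = ∑ i : R, ((Matrix.single i i (1 : K) : Matrix R R K) * N : Matrix R S K) := by
  ext a b
  rw [Matrix.sum_apply, Finset.sum_eq_single a]
  · have := Pool.Agent.T6.H19.DV.single_mul_entry N a a a b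
    rw [this, if_pos rfl]
  · intro i _ hi
    have := Pool.Agent.T6.H19.DV.single_mul_entry N i i a b
    rw [this, if_neg hi]
  · intro h; exact absurd (Finset.mem_univ _) h

theorem MFam.self {P : Place k K} {δ : Derivation ℤ K K} {N : Matrix R S K} {J : Type}
    {κ : J → R × S} {μ : ℤ} {Q : Type} {Y : Q → Matrix R S K →ₗ[K] K} {g : Q → Matrix R S K}
    (h : MFam P δ N κ μ Y g) (q : Q) : Ge P 0 (Y q N) := by
  rw [sum_single_mul N, map_sum]
  exact Ge.sum _ _ fun i _ => h.left q i i

/-- The functionals for a degenerate matrix. -/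
noncomputable def Yc (N : Matrix R S K) {ρ r' s' : ℕ} (α : Fin ρ ⊕ Fin r' ≃ R)
    (β : Fin ρ ⊕ Fin s' ≃ S) (q : Fin ρ × Fin s') : Matrix R S K →ₗ[K] K where
  toFun C := Hm N (α ∘ Sum.inl) (β ∘ Sum.inl) (β ∘ Sum.inr) C q.1 q.2
  map_add' C C' := by rw [Hm_add]; rfl
  map_smul' c C := by rw [Hm_smul]; rfl

theorem Yc_apply (N : Matrix R S K) {ρ r' s' : ℕ} (α : Fin ρ ⊕ Fin r' ≃ R)
    (β : Fin ρ ⊕ Fin s' ≃ S) (q : Fin ρ × Fin s') (C : Matrix R S K) : Yc N α β q C =
      Hm N (α ∘ Sum.inl) (β ∘ Sum.inl) (β ∘ Sum.inr) C q.1 q.2 := rfl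

theorem famC {P : Place k K} {δ : Derivation ℤ K K} (hδ : ∀ f, Ge P 0 f → Ge P 0 (δ f))
    {N : Matrix R S K} {ρ r' s' : ℕ} {α : Fin ρ ⊕ Fin r' ≃ R} {β : Fin ρ ⊕ Fin s' ≃ S}
    (hv : Van N (ρ + 1)) (hm : Mini P N (α ∘ Sum.inl) (β ∘ Sum.inl)) :
    MFam P δ N (fun p : Fin r' × Fin s' => (α (Sum.inr p.1), β (Sum.inr p.2))) 0 (Yc N α β)
      (fun q => Matrix.single (α (Sum.inl q.1)) (β (Sum.inr q.2)) 1) where
  der s Δ hs hΔ q := ge_Hm_der hv hm Δ (fun f hf => (hΔ 0 f hf).mono (by omega)) _ _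
  left q i i' := by
    rw [Yc_apply, Hm_left hv hm.1]
    exact Ge.zero
  right q j' j := by
    rw [Yc_apply, Hm_right]
    have h1 := ge_mul P (A := DV.qf N (α ∘ Sum.inl) (β ∘ Sum.inl))
      (B := (Matrix.single j' j (1 : K) : Matrix S S K) *
        DV.vm N (α ∘ Sum.inl) (β ∘ Sum.inl) (β ∘ Sum.inr))
      (a := 0) (b := 0) (fun i j => hm.ge_qf i j) (fun a b => by
        have := ge_mul P (A := (Matrix.single j' j (1 : K) : Matrix S S K))
          (B := DV.vm N (α ∘ Sum.inl) (β ∘ Sum.inl) (β ∘ Sum.inr)) (a := 0) (b := 0)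
          (fun a b => by
            rw [Matrix.single_apply]
            split_ifs
            · exact Ge.one
            · exact Ge.zero) (fun i j => hm.ge_vm _ i j) a b
        rwa [zero_add] at this) q.1 q.2
    rwa [zero_add] at h1
  row q j := by
    rw [Yc_apply, Hm_single_inr]
    exact Ge.zero
  dir q := by
    rw [neg_zero]
    exact ge_Hm_der hv hm δ hδ _ _
  int q i j := by
    rw [Matrix.single_apply]
    split_ifs
    · exact Ge.one
    · exact Ge.zero

open scoped Classical in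
theorem famC_det {P : Place k K} {N : Matrix R S K} {ρ r' s' : ℕ} {α : Fin ρ ⊕ Fin r' ≃ R}
    {β : Fin ρ ⊕ Fin s' ≃ S} (hm : mna N α β ≠ 0) :
    (Matrix.of fun q q' : Fin ρ × Fin s' => Yc N α β q
      (Matrix.single (α (Sum.inl q'.1)) (β (Sum.inr q'.2)) 1)).det ≠ 0 ∧
    -(P.ord (Matrix.of fun q q' : Fin ρ × Fin s' => Yc N α β q
      (Matrix.single (α (Sum.inl q'.1)) (β (Sum.inr q'.2)) 1)).det) =
        s' * P.ord (mna N α β) := by
  obtain ⟨N1, hN1⟩ : ∃ N1, N1 = N.submatrix (α ∘ Sum.inl) (β ∘ Sum.inl) := ⟨_, rfl⟩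
  have hN1d : N1.det = mna N α β := by rw [hN1]; rfl
  have hA : (Matrix.of fun q q' : Fin ρ × Fin s' => Yc N α β q
      (Matrix.single (α (Sum.inl q'.1)) (β (Sum.inr q'.2)) 1)) =
      Matrix.kroneckerMap (· * ·) N1⁻¹ (1 : Matrix (Fin s') (Fin s') K) := by
    ext q q'
    rw [Matrix.of_apply, Yc_apply, Hm_single_inl, hN1]
    rfl
  have hAd : (Matrix.of fun q q' : Fin ρ × Fin s' => Yc N α β q
      (Matrix.single (α (Sum.inl q'.1)) (β (Sum.inr q'.2)) 1)).det =
        ((mna N α β)⁻¹) ^ s' := by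
    have h1 := Matrix.det_kronecker N1⁻¹ (1 : Matrix (Fin s') (Fin s') K)
    rw [Matrix.det_one, one_pow, mul_one, Fintype.card_fin, Matrix.det_nonsing_inv,
      Ring.inverse_eq_inv', hN1d] at h1
    rw [hA, ← h1]
  rw [hAd]
  refine ⟨pow_ne_zero _ (inv_ne_zero hm), ?_⟩
  rw [P.ord_pow, P.ord_inv]
  ring

section open'

variable {P : Place k K} {N : Matrix R S K} {m : ℕ} {U : Matrix R (Fin m) K}
  {V : Matrix (Fin m) S K} {p : Fin m → K} {i0 : Fin m → R} {j0 : Fin m → S}

/-- The left inverse of the columns. -/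
noncomputable def Ui (U : Matrix R (Fin m) K) (i0 : Fin m → R) : Matrix (Fin m) R K :=
  (U.submatrix i0 id)⁻¹ * (1 : Matrix R R K).submatrix i0 id

/-- The right inverse of the rows. -/
noncomputable def Vi (V : Matrix (Fin m) S K) (j0 : Fin m → S) : Matrix S (Fin m) K :=
  (1 : Matrix S S K).submatrix id j0 * (V.submatrix id j0)⁻¹

omit [Fintype S] [DecidableEq S] in
theorem Piv.UiU (h : Piv P N m U V p i0 j0) : Ui U i0 * U = 1 := by
  have h1 : (1 : Matrix R R K).submatrix i0 id * U = U.submatrix i0 id := by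
    ext i j
    simp [Matrix.mul_apply, Matrix.one_apply]
  rw [Ui, Matrix.mul_assoc, h1]
  exact Matrix.nonsing_inv_mul _ (by rw [h.detU]; exact isUnit_one)

omit [Fintype R] [DecidableEq R] in
theorem Piv.VVi (h : Piv P N m U V p i0 j0) : V * Vi V j0 = 1 := by
  have h1 : V * (1 : Matrix S S K).submatrix id j0 = V.submatrix id j0 := by
    ext i j
    simp [Matrix.mul_apply, Matrix.one_apply]
  rw [Vi, ← Matrix.mul_assoc, h1]
  exact Matrix.mul_nonsing_inv _ (by rw [h.detV]; exact isUnit_one)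

omit [Fintype S] [DecidableEq S] in
theorem Piv.geUi (h : Piv P N m U V p i0 j0) (k : Fin m) (i : R) : Ge P 0 (Ui U i0 k i) := by
  have h1 := ge_mul P (A := (U.submatrix i0 id)⁻¹) (B := (1 : Matrix R R K).submatrix i0 id)
    (a := 0) (b := 0) (fun a b => ge_inv P (fun i j => h.geU _ _) h.detU a b)
    (fun a b => ge_one_apply P _ _) k i
  rwa [zero_add] at h1

omit [Fintype R] [DecidableEq R] in
theorem Piv.geVi (h : Piv P N m U V p i0 j0) (j : S) (k : Fin m) : Ge P 0 (Vi V j0 j k) := by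
  have h1 := ge_mul P (A := (1 : Matrix S S K).submatrix id j0) (B := (V.submatrix id j0)⁻¹)
    (a := 0) (b := 0) (fun a b => ge_one_apply P _ _)
    (fun a b => ge_inv P (fun i j => h.geV _ _) h.detV a b) j k
  rwa [zero_add] at h1

/-- The functionals for a nonsingular matrix. -/
noncomputable def Yo (U : Matrix R (Fin m) K) (V : Matrix (Fin m) S K) (p : Fin m → K)
    (i0 : Fin m → R) (j0 : Fin m → S) (q : Fin m) : Matrix R S K →ₗ[K] K where
  toFun C := (p q)⁻¹ * (Ui U i0 * C * Vi V j0) q q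
  map_add' C C' := by rw [Matrix.mul_add, Matrix.add_mul, Matrix.add_apply, mul_add]
  map_smul' c C := by
    rw [Matrix.mul_smul, Matrix.smul_mul, Matrix.smul_apply, smul_eq_mul, RingHom.id_apply,
      smul_eq_mul]
    ring

theorem Yo_apply (q : Fin m) (C : Matrix R S K) :
    Yo U V p i0 j0 q C = (p q)⁻¹ * (Ui U i0 * C * Vi V j0) q q := rfl

theorem Piv.Yo_mid (h : Piv P N m U V p i0 j0) (q : Fin m) (B : Matrix (Fin m) (Fin m) K) :
    Yo U V p i0 j0 q (U * B * V) = (p q)⁻¹ * B q q := by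
  rw [Yo_apply]
  have h1 : Ui U i0 * (U * B * V) * Vi V j0 = (Ui U i0 * U) * B * (V * Vi V j0) := by
    simp only [Matrix.mul_assoc]
  rw [h1, h.UiU, h.VVi, Matrix.one_mul, Matrix.mul_one]

theorem Piv.Yo_left (h : Piv P N m U V p i0 j0) (q : Fin m) (B : Matrix R (Fin m) K) :
    Yo U V p i0 j0 q (B * Matrix.diagonal p * V) = (Ui U i0 * B) q q := by
  rw [Yo_apply]
  have h1 : Ui U i0 * (B * Matrix.diagonal p * V) * Vi V j0 =
      (Ui U i0 * B) * Matrix.diagonal p * (V * Vi V j0) := by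
    simp only [Matrix.mul_assoc]
  rw [h1, h.VVi, Matrix.mul_one, Matrix.mul_diagonal]
  have := h.pne q
  field_simp

theorem Piv.Yo_right (h : Piv P N m U V p i0 j0) (q : Fin m) (B : Matrix (Fin m) S K) :
    Yo U V p i0 j0 q (U * Matrix.diagonal p * B) = (B * Vi V j0) q q := by
  rw [Yo_apply]
  have h1 : Ui U i0 * (U * Matrix.diagonal p * B) * Vi V j0 =
      (Ui U i0 * U) * (Matrix.diagonal p * (B * Vi V j0)) := by
    simp only [Matrix.mul_assoc]
  rw [h1, h.UiU, Matrix.one_mul, Matrix.diagonal_mul]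
  have := h.pne q
  field_simp

theorem Piv.Yo_der (h : Piv P N m U V p i0 j0) (q : Fin m) (Δ : Derivation ℤ K K) :
    Yo U V p i0 j0 q (N.map Δ) = (Ui U i0 * U.map Δ) q q + (p q)⁻¹ * Δ (p q) +
      (V.map Δ * Vi V j0) q q := by
  have h1 : N.map Δ = U.map Δ * Matrix.diagonal p * V +
      U * Matrix.diagonal (fun k => Δ (p k)) * V + U * Matrix.diagonal p * V.map Δ := by
    have h2 : (Matrix.diagonal p).map Δ = Matrix.diagonal (fun k => Δ (p k)) := by
      rw [Matrix.diagonal_map (map_zero Δ)]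
    conv_lhs => rw [h.eq']
    rw [map_mul_der, map_mul_der, h2, Matrix.add_mul]
  rw [h1, map_add, map_add, h.Yo_left, h.Yo_mid, h.Yo_right, Matrix.diagonal_apply_eq]

open scoped Classical in
theorem famO {δ : Derivation ℤ K K} (hδ : ∀ (c : ℤ) f, Ge P c f → Ge P (c - 1) (δ f))
    (hδ0 : ∀ f, Ge P 0 f → Ge P 0 (δ f)) (h : Piv P N m U V p i0 j0) {J : Type} [IsEmpty J]
    (κ : J → R × S) :
    MFam P δ N κ (if ∀ k, P.ord (p k) = 0 then 0 else 1) (Yo U V p i0 j0)
      (fun q => Matrix.of fun i j => U i q * V q j) where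
  der s Δ hs hΔ q := by
    rw [h.Yo_der]
    have hΔ0 : ∀ f, Ge P 0 f → Ge P (-s) (Δ f) := fun f hf => (hΔ 0 f hf).mono (by omega)
    refine (Ge.add ?_ ?_).add ?_
    · have := ge_mul P (A := Ui U i0) (B := U.map Δ) (a := 0) (b := -s)
        (fun i j => h.geUi i j) (fun i j => hΔ0 _ (h.geU i j)) q q
      rwa [zero_add] at this
    · have h1 := hΔ (P.ord (p q)) (p q) (Or.inr le_rfl)
      have h2 : Ge P (-(P.ord (p q))) (p q)⁻¹ := Or.inr (by rw [P.ord_inv])
      exact (h2.mul h1).mono (by omega)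
    · have := ge_mul P (A := V.map Δ) (B := Vi V j0) (a := -s) (b := 0)
        (fun i j => hΔ0 _ (h.geV i j)) (fun i j => h.geVi i j) q q
      rwa [add_zero] at this
  left q i i' := by
    have h1 : (Matrix.single i i' (1 : K) : Matrix R R K) * N =
        (Matrix.single i i' (1 : K) : Matrix R R K) * U * Matrix.diagonal p * V := by
      conv_lhs => rw [h.eq']
      simp only [Matrix.mul_assoc]
    rw [h1, h.Yo_left]
    have h2 := ge_mul P (A := Ui U i0) (B := (Matrix.single i i' (1 : K) : Matrix R R K) * U)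
      (a := 0) (b := 0)
      (fun i j => h.geUi i j) (fun a b => by
        have := ge_mul P (A := (Matrix.single i i' (1 : K) : Matrix R R K)) (B := U)
          (a := 0) (b := 0)
          (fun a b => by
            rw [Matrix.single_apply]
            split_ifs
            · exact Ge.one
            · exact Ge.zero) (fun i j => h.geU i j) a b
        rwa [zero_add] at this) q q
    rwa [zero_add] at h2
  right q j' j := by
    have h1 : N * (Matrix.single j' j (1 : K) : Matrix S S K) =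
        U * Matrix.diagonal p * (V * (Matrix.single j' j (1 : K) : Matrix S S K)) := by
      conv_lhs => rw [h.eq']
      simp only [Matrix.mul_assoc]
    rw [h1, h.Yo_right]
    have h2 := ge_mul P (A := V * (Matrix.single j' j (1 : K) : Matrix S S K))
      (B := Vi V j0) (a := 0) (b := 0)
      (fun a b => by
        have := ge_mul P (A := V) (B := (Matrix.single j' j (1 : K) : Matrix S S K))
          (a := 0) (b := 0)
          (fun i j => h.geV i j) (fun a b => by
            rw [Matrix.single_apply]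
            split_ifs
            · exact Ge.one
            · exact Ge.zero) a b
        rwa [zero_add] at this) (fun i j => h.geVi i j) q q
    rwa [zero_add] at h2
  row q j := isEmptyElim j
  dir q := by
    rw [h.Yo_der]
    have hm0 : -(if ∀ k, P.ord (p k) = 0 then (0 : ℤ) else 1) ≤ 0 := by split_ifs <;> norm_num
    refine (Ge.add ?_ ?_).add ?_
    · have := ge_mul P (A := Ui U i0) (B := U.map δ) (a := 0) (b := 0)
        (fun i j => h.geUi i j) (fun i j => hδ0 _ (h.geU i j)) q q
      exact this.mono (by omega)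
    · split_ifs with hk
      · have h1 : Ge P 0 (p q)⁻¹ := Or.inr (by rw [P.ord_inv, hk]; simp)
        exact (h1.mul (hδ0 _ (Or.inr (hk q).ge))).mono (by omega)
      · have h1 := hδ (P.ord (p q)) (p q) (Or.inr le_rfl)
        have h2 : Ge P (-(P.ord (p q))) (p q)⁻¹ := Or.inr (by rw [P.ord_inv])
        exact (h2.mul h1).mono (by omega)
    · have := ge_mul P (A := V.map δ) (B := Vi V j0) (a := 0) (b := 0)
        (fun i j => hδ0 _ (h.geV i j)) (fun i j => h.geVi i j) q q
      exact this.mono (by omega)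
  int q i j := by
    rw [Matrix.of_apply]
    have := (h.geU i q).mul (h.geV q j)
    rwa [zero_add] at this

/-- The pivots of a matrix with integral entries are integral. -/
theorem Piv.gep (h : Piv P N m U V p i0 j0) (hN : ∀ i j, Ge P 0 (N i j)) (q : Fin m) :
    Ge P 0 (p q) := by
  have h1 : Ui U i0 * N * Vi V j0 = Matrix.diagonal p := by
    have h2 : Ui U i0 * N * Vi V j0 = (Ui U i0 * U) * Matrix.diagonal p * (V * Vi V j0) := by
      conv_lhs => rw [h.eq']
      simp only [Matrix.mul_assoc]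
    rw [h2, h.UiU, h.VVi, Matrix.one_mul, Matrix.mul_one]
  have h3 : p q = (Ui U i0 * N * Vi V j0) q q := by rw [h1, Matrix.diagonal_apply_eq]
  rw [h3]
  have h4 := ge_mul P (A := Ui U i0 * N) (B := Vi V j0) (a := 0) (b := 0) (fun i j => by
    have := ge_mul P (A := Ui U i0) (B := N) (a := 0) (b := 0) (fun i j => h.geUi i j) hN i j
    rwa [zero_add] at this) (fun i j => h.geVi i j) q q
  rwa [zero_add] at h4

open scoped Classical in
theorem famO_det (h : Piv P N m U V p i0 j0) :
    (Matrix.of fun q q' : Fin m => Yo U V p i0 j0 q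
      (Matrix.of fun i j => U i q' * V q' j)).det ≠ 0 ∧
    -(P.ord (Matrix.of fun q q' : Fin m => Yo U V p i0 j0 q
      (Matrix.of fun i j => U i q' * V q' j)).det) = ∑ k, P.ord (p k) := by
  have hA : (Matrix.of fun q q' : Fin m => Yo U V p i0 j0 q
      (Matrix.of fun i j => U i q' * V q' j)) = Matrix.diagonal fun k => (p k)⁻¹ := by
    ext q q'
    have h1 : (Matrix.of fun i j => U i q' * V q' j) =
        U * Matrix.single q' q' (1 : K) * V := by
      ext i j
      rw [Matrix.mul_assoc, Matrix.mul_apply, Finset.sum_eq_single q']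
      · rw [Pool.Agent.T6.H19.DV.single_mul_entry, if_pos rfl]
        rfl
      · intro l _ hl
        rw [Pool.Agent.T6.H19.DV.single_mul_entry, if_neg hl.symm, mul_zero]
      · intro h; exact absurd (Finset.mem_univ _) h
    rw [Matrix.of_apply, h1, h.Yo_mid, Matrix.single_apply, Matrix.diagonal_apply]
    by_cases hq : q = q'
    · rw [if_pos ⟨hq.symm, hq.symm⟩, if_pos hq, mul_one]
    · rw [if_neg (fun h => hq h.1.symm), if_neg hq, mul_zero]
  have hprod : ∀ s : Finset (Fin m), P.ord (∏ k ∈ s, (p k)⁻¹) = -∑ k ∈ s, P.ord (p k) := by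
    intro s
    induction s using Finset.induction_on with
    | empty => simp [P.ord_one]
    | insert a s ha ih =>
      rw [Finset.prod_insert ha, Finset.sum_insert ha, P.ord_mul (inv_ne_zero (h.pne a))
        (Finset.prod_ne_zero_iff.2 fun b _ => inv_ne_zero (h.pne b)), ih, P.ord_inv]
      ring
  rw [hA, Matrix.det_diagonal]
  refine ⟨Finset.prod_ne_zero_iff.2 fun b _ => inv_ne_zero (h.pne b), ?_⟩
  rw [hprod, neg_neg]

end open'

end Pool.Agent.T6.H19.DW
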