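import Pool.Agent.T6.H19.DW.Abs

/-!
Systems of forms with derivations that change their coefficients, and linear operations on them.
-/

set_option autoImplicit false

open MvPolynomial Pool.Agent.TH145.GH FF Pool.Agent.W603.LV
open Pool.Agent.TH145.GC (Ev Ti tv wv Ev_mod dF_sub dF_self)
open Pool.Agent.T6.H19.DV (ev ev_scale sum_der)

namespace Pool.Agent.T6.H19.DW

variable {K : Type} [Field K] {n : ℕ} {ι W J : Type} {F : ι → MvPolynomial (Fin (n + 1)) K}
  {dg : ι → ℕ} {G : ι → ι → K} {D : ι → (Fin (n + 1) →₀ ℕ) → Derivation ℤ K K}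
  {E : W → Derivation ℤ K K}

open Classical in
/-- The derivation `D p I` changes the coefficient of the monomial `I` of `F p'` by `G p p'`, and
no other coefficients. -/
structure SysG (F : ι → MvPolynomial (Fin (n + 1)) K) (dg : ι → ℕ) (G : ι → ι → K)
    (D : ι → (Fin (n + 1) →₀ ℕ) → Derivation ℤ K K) : Prop where
  hom : ∀ p, (F p).IsHomogeneous (dg p)
  dual : ∀ (p p' : ι) (I J : Fin (n + 1) →₀ ℕ), I.degree = dg p →
    D p I ((F p').coeff J) = if I = J then G p p' else 0

/-- The effect of the derivation `Δ` on the coefficients of the forms. -/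
noncomputable def mcv (F : ι → MvPolynomial (Fin (n + 1)) K) (x : Fin (n + 1) → K)
    (Δ : Derivation ℤ K K) (p : ι) : K := ∑ u ∈ (F p).support, Δ ((F p).coeff u) * mon x u

/-- The values of the forms. -/
noncomputable def zv (F : ι → MvPolynomial (Fin (n + 1)) K) (x : Fin (n + 1) → K) (p : ι) : K :=
  eval x (F p)

/-- The differential of the values of the forms. -/
noncomputable def dV (F : ι → MvPolynomial (Fin (n + 1)) K) (x : Fin (n + 1) → K) :
    (Fin (n + 1) → K) →ₗ[K] (ι → K) where
  toFun z := fun p => dF (F p) x z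
  map_add' y z := by
    funext p
    exact dF_add _ _ _ _
  map_smul' c z := by
    funext p
    exact dF_smul _ _ _ _

theorem dV_apply (x z : Fin (n + 1) → K) (p : ι) : dV F x z p = dF (F p) x z := rfl

theorem dV_ev (Δ : Derivation ℤ K K) (x : Fin (n + 1) → K) :
    dV F x (ev Δ x) = (fun p => Δ (zv F x p)) - mcv F x Δ := by
  funext p
  have h1 := chainM Δ x (F p)
  rw [dV_apply, Pi.sub_apply]
  change dF (F p) x (ev Δ x) = Δ (eval x (F p)) - mcv F x Δ p
  rw [h1]
  unfold dF mcv ev
  ring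

theorem dV_self (hF : SysG F dg G D) (x : Fin (n + 1) → K) :
    dV F x x = fun p => (dg p : K) * zv F x p := by
  funext p
  rw [dV_apply, dF_self (hF.hom p)]
  rfl

theorem mcv_D (hF : SysG F dg G D) (x : Fin (n + 1) → K) (p : ι) {I : Fin (n + 1) →₀ ℕ}
    (hI : I.degree = dg p) : mcv F x (D p I) = mon x I • G p := by
  classical
  funext p'
  unfold mcv
  have h1 : ∀ u ∈ (F p').support, D p I ((F p').coeff u) * mon x u =
      if I = u then G p p' * mon x u else 0 := by
    intro u _
    rw [hF.dual p p' I u hI]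
    split_ifs
    · rfl
    · rw [zero_mul]
  rw [Finset.sum_congr rfl h1, Finset.sum_ite_eq, Pi.smul_apply, smul_eq_mul]
  split_ifs with h
  · ring
  · have h2 := hF.dual p p' I I hI
    rw [notMem_support_iff.1 h, map_zero, if_pos rfl] at h2
    rw [← h2, mul_zero]

section op

variable [Fintype ι]

/-- The derivation of the linear operation `a` on the forms: it adds `∑ a p p' F p'` to `F p`. -/
noncomputable def Op (F : ι → MvPolynomial (Fin (n + 1)) K)
    (D : ι → (Fin (n + 1) →₀ ℕ) → Derivation ℤ K K) (a : ι → ι → K) : Derivation ℤ K K :=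
  ∑ p, ∑ p', ∑ I ∈ (F p').support, (a p p' * (F p').coeff I) • D p I

theorem Op_apply (a : ι → ι → K) (f : K) :
    Op F D a f = ∑ p, ∑ p', ∑ I ∈ (F p').support, (a p p' * (F p').coeff I) * D p I f := by
  unfold Op
  rw [sum_der]
  refine Finset.sum_congr rfl fun b _ => ?_
  rw [sum_der]
  refine Finset.sum_congr rfl fun b _ => ?_
  rw [sum_der]
  rfl

theorem ev_Op (a : ι → ι → K) (x : Fin (n + 1) → K) : ev (Op F D a) x =
    ∑ p, ∑ p', ∑ I ∈ (F p').support, (a p p' * (F p').coeff I) • Ev D x p I := by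
  funext l
  simp only [Finset.sum_apply, Pi.smul_apply, smul_eq_mul]
  exact Op_apply a (x l)

theorem mcv_Op (hF : SysG F dg G D) {a : ι → ι → K} (ha : ∀ p p', dg p ≠ dg p' → a p p' = 0)
    (x : Fin (n + 1) → K) :
    mcv F x (Op F D a) = ∑ p, (∑ p', a p p' * zv F x p') • G p := by
  funext q
  have h1 : ∀ Δ : Derivation ℤ K K, mcv F x Δ q =
      ∑ u ∈ (F q).support, Δ ((F q).coeff u) * mon x u := fun _ => rfl
  have h2 : mcv F x (Op F D a) q = ∑ p, ∑ p', ∑ I ∈ (F p').support,
      (a p p' * (F p').coeff I) * mcv F x (D p I) q := by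
    rw [h1]
    simp only [Op_apply, Finset.sum_mul, h1, Finset.mul_sum]
    rw [Finset.sum_comm]
    refine Finset.sum_congr rfl fun p _ => ?_
    rw [Finset.sum_comm]
    refine Finset.sum_congr rfl fun p' _ => ?_
    rw [Finset.sum_comm]
    refine Finset.sum_congr rfl fun I _ => Finset.sum_congr rfl fun u _ => ?_
    ring
  rw [h2, Finset.sum_apply]
  refine Finset.sum_congr rfl fun p _ => ?_
  rw [Pi.smul_apply, smul_eq_mul, Finset.sum_mul]
  refine Finset.sum_congr rfl fun p' _ => ?_
  by_cases hd : dg p = dg p'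
  · have h3 : zv F x p' = ∑ I ∈ (F p').support, (F p').coeff I * mon x I :=
      (Pool.Agent.T6.H19.DV.eval_sum _ _).symm
    rw [h3, Finset.mul_sum, Finset.sum_mul]
    refine Finset.sum_congr rfl fun I hI => ?_
    rw [mcv_D hF x p ((deg_of_mem (hF.hom p') hI).trans hd.symm), Pi.smul_apply, smul_eq_mul]
    ring
  · rw [ha p p' hd, zero_mul, zero_mul]
    exact Finset.sum_eq_zero fun I _ => by rw [zero_mul, zero_mul]

/-- The normalised derivatives. -/
noncomputable def vn (dg : ι → ℕ) (D : ι → (Fin (n + 1) →₀ ℕ) → Derivation ℤ K K)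
    (x : Fin (n + 1) → K) (e : Fin (n + 1)) (p : ι) : Fin (n + 1) → K :=
  (x e ^ dg p)⁻¹ • Ev D x p (Finsupp.single e (dg p))

omit [Fintype ι] in
theorem Ev_vn (x : Fin (n + 1) → K) {e : Fin (n + 1)} (he : x e ≠ 0) (p : ι)
    {I : Fin (n + 1) →₀ ℕ} (hI : I.degree = dg p) :
    Ev D x p I - mon x I • vn dg D x e p ∈ SpA dg D E x := by
  have h1 := Ev_modA (dg := dg) (D := D) (E := E) x he p hI
  rw [vn, smul_smul, ← div_eq_mul_inv]
  exact h1

omit [Fintype ι] in
theorem vn_change (x : Fin (n + 1) → K) {e e' : Fin (n + 1)} (he : x e ≠ 0) (he' : x e' ≠ 0)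
    (p : ι) : vn dg D x e' p - vn dg D x e p ∈ SpA dg D E x := by
  have h1 := Ev_vn (dg := dg) (D := D) (E := E) x he p (I := Finsupp.single e' (dg p))
    (Finsupp.degree_single _ _)
  have h2 := Submodule.smul_mem _ (x e' ^ dg p)⁻¹ h1
  rw [smul_sub, smul_smul, mon_single, inv_mul_cancel₀ (pow_ne_zero _ he'), one_smul] at h2
  exact h2

/-- The relation between the derivatives that is given by an operation. -/
theorem rel_Op (hF : SysG F dg G D) {a : ι → ι → K} (ha : ∀ p p', dg p ≠ dg p' → a p p' = 0)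
    (x : Fin (n + 1) → K) {e : Fin (n + 1)} (he : x e ≠ 0)
    (hm : ev (Op F D a) x ∈ SpA dg D E x) :
    ∑ p, (∑ p', a p p' * zv F x p') • vn dg D x e p ∈ SpA dg D E x := by
  have h2 : ev (Op F D a) x - ∑ p, (∑ p', a p p' * zv F x p') • vn dg D x e p ∈
      SpA dg D E x := by
    have h3 : ev (Op F D a) x - ∑ p, (∑ p', a p p' * zv F x p') • vn dg D x e p =
        ∑ p, ∑ p', ∑ I ∈ (F p').support, (a p p' * (F p').coeff I) •
          (Ev D x p I - mon x I • vn dg D x e p) := by
      rw [ev_Op, ← Finset.sum_sub_distrib]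
      refine Finset.sum_congr rfl fun p _ => ?_
      rw [Finset.sum_smul, ← Finset.sum_sub_distrib]
      refine Finset.sum_congr rfl fun p' _ => ?_
      have h3 : zv F x p' = ∑ I ∈ (F p').support, (F p').coeff I * mon x I :=
        (Pool.Agent.T6.H19.DV.eval_sum _ _).symm
      rw [h3, Finset.mul_sum, Finset.sum_smul, ← Finset.sum_sub_distrib]
      refine Finset.sum_congr rfl fun I _ => ?_
      rw [smul_sub, smul_smul, mul_assoc]
    rw [h3]
    refine sum_mem fun p _ => sum_mem fun p' _ => sum_mem fun I hI => ?_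
    by_cases hd : dg p = dg p'
    · exact Submodule.smul_mem _ _ (Ev_vn x he p ((deg_of_mem (hF.hom p') hI).trans hd.symm))
    · rw [ha p p' hd, zero_mul, zero_smul]
      exact zero_mem _
  have h3 := sub_mem hm h2
  rwa [sub_sub_cancel] at h3

end op

theorem dV_tv (hF : SysG F dg G D) (x : Fin (n + 1) → K) (t : Ti n ι) :
    dV F x (tv dg D x t) = if t.2.1.degree + 1 = dg t.1 then
      (x t.2.2.2 • (fun p => D t.1 (t.2.1 + Finsupp.single t.2.2.1 1) (zv F x p)) -
        x t.2.2.1 • (fun p => D t.1 (t.2.1 + Finsupp.single t.2.2.2 1) (zv F x p))) else 0 := by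
  unfold tv
  split_ifs with ht
  · have h1 : ∀ l, dV F x (Ev D x t.1 (t.2.1 + Finsupp.single l 1)) =
        (fun p => D t.1 (t.2.1 + Finsupp.single l 1) (zv F x p)) -
          mon x (t.2.1 + Finsupp.single l 1) • G t.1 := by
      intro l
      have h2 := dV_ev (F := F) (D t.1 (t.2.1 + Finsupp.single l 1)) x
      rw [mcv_D hF x t.1 (by rw [map_add, Finsupp.degree_single, ht])] at h2
      exact h2
    rw [map_sub, map_smul, map_smul, h1, h1, mon_add, mon_add, mon_single, mon_single]
    funext p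
    simp only [Pi.sub_apply, Pi.smul_apply, smul_eq_mul]
    ring
  · exact map_zero _

theorem dV_Ev (hF : SysG F dg G D) (x : Fin (n + 1) → K) (p : ι) {I : Fin (n + 1) →₀ ℕ}
    (hI : I.degree = dg p) :
    dV F x (Ev D x p I) = (fun q => D p I (zv F x q)) - mon x I • G p := by
  have h2 := dV_ev (F := F) (D p I) x
  rw [mcv_D hF x p hI] at h2
  exact h2

end Pool.Agent.T6.H19.DW
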