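import Pool.Agent.T6.H19.DW.BGlob
import Pool.Agent.T6.H19.DV.Cond
import Pool.Agent.TH812.GV2.Vojta

/-!
Vojta's height inequality for generic determinantal varieties and their complements.
-/

set_option autoImplicit false

open MvPolynomial FF Pool.Agent.W603.LV Pool.Agent.W603.PV Pool.Agent.TH145.GH
  Pool.Agent.TH145.MG Pool.Agent.W602.GT Pool.Agent.W603.CZ

namespace Pool.Agent.T6.H19.DW

open Pool.Agent.TH812.GV Pool.Agent.TH812.GV2
open Pool.Agent.T6.H19.DV (mnr mna Van exists_rank van_of_rank rank_of_van exists_ext mnr_inj_row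
  mnr_inj_col)

theorem Loss.mono {k K : Type} [Field k] [Field K] [Algebra k K] {P : Place k K} {π : K}
    {δ : Derivation ℤ K K} {s e s' e' : ℤ} {Δ : Derivation ℤ K K} (h : Loss P π δ s e Δ)
    (hs : s ≤ s') (he : e ≤ e') : Loss P π δ s' e' Δ :=
  ⟨h.dir.mono (by omega), fun g f hf => (h.loss g f hf).mono (by omega)⟩

/-- The minors of a matrix of rank `ρ`. -/
theorem exists_of_rank {K : Type} [Field K] {R S : Type} [Fintype R] [Fintype S]
    (N : Matrix R S K) : Van N (N.rank + 1) ∧
      ∃ (α : Fin N.rank ⊕ Fin (Fintype.card R - N.rank) ≃ R)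
        (β : Fin N.rank ⊕ Fin (Fintype.card S - N.rank) ≃ S), mna N α β ≠ 0 := by
  classical
  have hv : Van N (N.rank + 1) := van_of_rank (Nat.lt_succ_self _)
  refine ⟨hv, ?_⟩
  obtain ⟨ρ, hρ, hv', f, g, hfg⟩ := exists_rank hv
  have h1 := rank_of_van hv'
  have h2 : ρ = N.rank := by omega
  subst h2
  have hR : N.rank ≤ Fintype.card R := Matrix.rank_le_card_height N
  have hS : N.rank ≤ Fintype.card S := Matrix.rank_le_card_width N
  obtain ⟨α, hα⟩ := exists_ext (r' := Fintype.card R - N.rank) (mnr_inj_row hfg) (by omega)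
  obtain ⟨β, hβ⟩ := exists_ext (r' := Fintype.card S - N.rank) (mnr_inj_col hfg) (by omega)
  refine ⟨α, β, ?_⟩
  have hα' : α ∘ Sum.inl = f := funext hα
  have hβ' : β ∘ Sum.inl = g := funext hβ
  unfold mna
  rw [hα', hβ']
  exact hfg

theorem vojta_det {k0 k F0 F : Type} [Field k0] [Field k] [Field F0] [Field F] [IsAlgClosed k]
    [CharZero k] [Algebra k0 k] [Algebra k F] [Algebra k0 F] [IsScalarTower k0 k F]
    [Algebra k0 F0] [Algebra F0 F] [IsScalarTower k0 F0 F] [IsFF k F]
    (hfg : ∃ S : Finset F0, IntermediateField.adjoin k0 (S : Set F0) = ⊤) {n m : ℕ}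
    (V : Set (MvPolynomial (Fin (n + 1)) F0)) (hV : DimLE F0 V m) {A : Type} [Fintype A]
    {R S : A → Type} [∀ a, Fintype (R a)] [∀ a, Fintype (S a)] [∀ a, DecidableEq (R a)]
    [∀ a, DecidableEq (S a)] (hRS : ∀ a, Fintype.card (S a) ≤ Fintype.card (R a))
    (H : Ib R S → MvPolynomial (Fin (n + 1)) F) (d : A → ℕ)
    (hH : ∀ p, (H p).IsHomogeneous (db R S d p))
    (hgen : AlgebraicIndependent F0
      fun p : (q : Ib R S) × {I : Fin (n + 1) →₀ ℕ // I.degree = db R S d q} =>
        (H p.1).coeff p.2.1) :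
    ∃ C : ℕ, ∀ (L : Type) [Field L] [Algebra k L] [Algebra F L]
      [IsScalarTower k F L] [FiniteDimensional F L] (x : Fin (n + 1) → L), x ≠ 0 →
      (∀ f ∈ V, aeval x (map (algebraMap F0 F) f) = 0) →
      ∀ (N : ∀ a, Matrix (R a) (S a) L), (∀ a i j, N a i j = aeval x (H ⟨a, (i, j)⟩)) →
      ∀ (O : Finset A) (u : A → L), (∀ a ∈ O, (N a).rank = Fintype.card (R a) ∧
        (N a).rank = Fintype.card (S a)) →
      (∀ a ∈ O, ∀ (P : Place k L) (ρ0 r0 s0 : ℕ) (α0 : Fin ρ0 ⊕ Fin r0 ≃ R a)
        (β0 : Fin ρ0 ⊕ Fin s0 ≃ S a), r0 = 0 → s0 = 0 → mna (N a) α0 β0 ≠ 0 →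
          P.ord (mna (N a) α0 β0) = P.ord (u a)) →
      (∑ a, (((Fintype.card (S a) - (N a).rank) * (d a * Fintype.card (R a) +
        (Fintype.card (R a) - (N a).rank)) : ℕ) : ℤ) +
        ∑ a ∈ O, ((d a * Fintype.card (R a) : ℕ) : ℤ) - 2 * m - 1) * pht k x ≤
        {P : Place k L | ∃ a ∈ O, ((d a * Fintype.card (R a) : ℕ) : ℤ) * pord P x <
          P.ord (u a)}.ncard +
          canDeg k L + C * Module.finrank F L := by
  classical
  have hF : CharZero F := charZero_of_injective_algebraMap (algebraMap k F).injective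
  obtain ⟨Ix, hIx⟩ : ∃ Ix : Type, Ix = ((q : Ib R S) ×
    {I : Fin (n + 1) →₀ ℕ // I.degree = db R S d q}) := ⟨_, rfl⟩
  subst hIx
  have hfinI : ∀ q : Ib R S, {I : Fin (n + 1) →₀ ℕ | I.degree = db R S d q}.Finite := fun q =>
    (Finsupp.finite_of_degree_le (db R S d q)).subset fun I hI => le_of_eq hI
  have hfs : ∀ q : Ib R S, Finite {I : Fin (n + 1) →₀ ℕ // I.degree = db R S d q} :=
    fun q => hfinI q
  have hfx : Finite ((q : Ib R S) × {I : Fin (n + 1) →₀ ℕ // I.degree = db R S d q}) :=
    inferInstance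
  obtain ⟨Db, hDbg, hDbk, hDb⟩ := exists_duals2 (k0 := k0) (k := k) (F0 := F0) (F := F) hfg
    (fun p : (q : Ib R S) × {I : Fin (n + 1) →₀ ℕ // I.degree = db R S d q} =>
      (H p.1).coeff p.2.1) hgen
  obtain ⟨D, hD⟩ : ∃ D : Ib R S → (Fin (n + 1) →₀ ℕ) → Derivation ℤ F F, ∀ a I,
    D a I = if h : I.degree = db R S d a then Db ⟨a, I, h⟩ else 0 := ⟨_, fun _ _ => rfl⟩
  have hdual : ∀ (p p' : Ib R S) (I J : Fin (n + 1) →₀ ℕ), I.degree = db R S d p →
      D p I ((H p').coeff J) = if I = J then Gd p p' else 0 := by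
    intro a b I J hI
    rw [hD, dif_pos hI]
    unfold Gd
    by_cases hJ : J.degree = db R S d b
    · have h1 := hDb ⟨a, I, hI⟩ ⟨b, J, hJ⟩
      by_cases hab : a = b
      · subst hab
        rw [if_pos (c := a = a) rfl]
        by_cases hIJ : I = J
        · subst hIJ
          rw [if_pos rfl, h1.1 rfl]
        · rw [if_neg hIJ]
          exact h1.2 (by
            intro h
            apply hIJ
            simpa using h)
      · rw [if_neg (c := a = b) hab, ite_self]
        exact h1.2 (by
          intro h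
          apply hab
          exact congrArg Sigma.fst h)
    · have h2 : (H b).coeff J = 0 := by
        by_contra h
        exact hJ (deg_of_mem (hH b) (mem_support_iff.2 h))
      rw [h2, map_zero]
      by_cases hIJ : I = J
      · subst hIJ
        have hab : a ≠ b := by
          rintro rfl
          exact hJ hI
        rw [if_neg (c := a = b) hab, ite_self]
      · rw [if_neg hIJ]
  have hgood : ∀ a I, GoodS k (D a I) := by
    intro a I
    rw [hD]
    split_ifs
    · exact hDbg _
    · exact GoodS.zero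
  have hDk : ∀ a I (r : F0), D a I (algebraMap F0 F r) = 0 := by
    intro a I r
    rw [hD]
    split_ifs
    · exact hDbk _ r
    · rfl
  -- the loss
  choose q hq0 hqf hq using hgood
  obtain ⟨Q, hQ⟩ : ∃ Q : Place k F → ℤ, ∀ v, Q v = ∑ a, ∑ I ∈ (hfinI a).toFinset, q a I v :=
    ⟨_, fun _ => rfl⟩
  have hQ0 : ∀ v, 0 ≤ Q v := fun v => by
    rw [hQ]
    exact Finset.sum_nonneg fun a _ => Finset.sum_nonneg fun I _ => hq0 a I v
  have hQf : {v | Q v ≠ 0}.Finite := by
    have h1 : (⋃ a : Ib R S, ⋃ I ∈ (hfinI a).toFinset, {v | q a I v ≠ 0}).Finite :=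
      Set.finite_iUnion fun a => (hfinI a).toFinset.finite_toSet.biUnion fun I _ => hqf a I
    refine h1.subset fun v hv => ?_
    by_contra hcon
    simp only [Set.mem_iUnion, not_exists, Set.mem_ofPred_eq, not_not] at hcon
    apply hv
    rw [hQ]
    exact Finset.sum_eq_zero fun a _ => Finset.sum_eq_zero fun I hI => hcon a I hI
  have hQle : ∀ a (I : Fin (n + 1) →₀ ℕ), I.degree = db R S d a → ∀ v, q a I v ≤ Q v := by
    intro a I hI v
    rw [hQ]
    refine le_trans ?_ (Finset.single_le_sum (f := fun a => ∑ I ∈ (hfinI a).toFinset, q a I v)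
      (fun a _ => Finset.sum_nonneg fun I _ => hq0 a I v) (Finset.mem_univ a))
    exact Finset.single_le_sum (f := fun I => q a I v) (fun I _ => hq0 a I v)
      (by rw [Set.Finite.mem_toFinset]; exact hI)
  -- the poles of the coefficients
  obtain ⟨Z, hZ⟩ : ∃ Z : Place k F → ℤ, ∀ v, Z v = ∑ a, ∑ I ∈ (H a).support,
    max (-v.ord ((H a).coeff I)) 0 := ⟨_, fun _ => rfl⟩
  have hZ0 : ∀ v, 0 ≤ Z v := fun v => by
    rw [hZ]
    exact Finset.sum_nonneg fun a _ => Finset.sum_nonneg fun I _ => le_max_right _ _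
  have hZf : {v | Z v ≠ 0}.Finite := by
    have h1 : (⋃ a : Ib R S, ⋃ I ∈ (H a).support, {v : Place k F |
        v.ord ((H a).coeff I) ≠ 0}).Finite :=
      Set.finite_iUnion fun a => (H a).support.finite_toSet.biUnion fun I _ =>
        finite_support (k := k) _
    refine h1.subset fun v hv => ?_
    by_contra hcon
    simp only [Set.mem_iUnion, not_exists, Set.mem_ofPred_eq, not_not] at hcon
    apply hv
    rw [hZ]
    refine Finset.sum_eq_zero fun a _ => Finset.sum_eq_zero fun I hI => ?_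
    rw [hcon a I hI]
    simp
  have hZle : ∀ a I, ∀ v : Place k F, Ge v (-(Z v)) ((H a).coeff I) := by
    intro a I v
    by_cases hI : I ∈ (H a).support
    · right
      have h1 : max (-v.ord ((H a).coeff I)) 0 ≤ Z v := by
        rw [hZ]
        refine le_trans ?_ (Finset.single_le_sum
          (f := fun a => ∑ I ∈ (H a).support, max (-v.ord ((H a).coeff I)) 0)
          (fun a _ => Finset.sum_nonneg fun I _ => le_max_right _ _) (Finset.mem_univ a))
        exact Finset.single_le_sum (f := fun I => max (-v.ord ((H a).coeff I)) 0)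
          (fun I _ => le_max_right _ _) hI
      have h2 := le_max_left (-v.ord ((H a).coeff I)) 0
      omega
    · left
      exact notMem_support_iff.1 hI
  obtain ⟨B, hB⟩ : ∃ B : ℕ, B = n + 1 + Bd R S := ⟨_, rfl⟩
  obtain ⟨Y, hY⟩ : ∃ Y : Place k F → ℤ, ∀ v, Y v = B * Q v + (B + 2) * Z v := ⟨_, fun _ => rfl⟩
  have hY0 : ∀ v, 0 ≤ Y v := fun v => by
    rw [hY]
    have := hQ0 v
    have := hZ0 v
    positivity
  have hYf : {v | Y v ≠ 0}.Finite := by
    refine (hQf.union hZf).subset fun v hv => ?_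
    by_contra hcon
    simp only [Set.mem_union, Set.mem_ofPred_eq, not_or, not_not] at hcon
    apply hv
    rw [hY, hcon.1, hcon.2, mul_zero, mul_zero, add_zero]
  obtain ⟨C1, hC1⟩ := sum_loss (k := k) hQ0 hQf
  obtain ⟨C3, hC3⟩ := sum_under (k := k) hY0 hYf
  refine ⟨C1 + C3, ?_⟩
  intro L _ _ _ _ _ x hx hxV N hN O u hO hu
  have hL : IsFF k L := isFF_of_finite (F := F)
  have hLz : CharZero L := charZero_of_injective_algebraMap (algebraMap k L).injective
  let _ : Algebra F0 L := ((algebraMap F L).comp (algebraMap F0 F)).toAlgebra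
  choose D' hD' hDl using fun a I => hq a I L
  obtain ⟨HL, hHL⟩ : ∃ HL : Ib R S → MvPolynomial (Fin (n + 1)) L, ∀ a,
    HL a = map (algebraMap F L) (H a) := ⟨_, fun _ => rfl⟩
  obtain ⟨hefin, hesum⟩ := hC1 L
  obtain ⟨hufin, husum⟩ := hC3 L
  obtain ⟨el, hel⟩ : ∃ el : Place k L → ℤ, ∀ P, el P =
    ((ram F P : ℤ) - 1) + ram F P * Q (under F P) := ⟨_, fun _ => rfl⟩
  obtain ⟨ql, hql⟩ : ∃ ql : Place k L → ℤ, ∀ P, ql P = ram F P * Q (under F P) :=
    ⟨_, fun _ => rfl⟩
  obtain ⟨cl, hcl⟩ : ∃ cl : Place k L → ℤ, ∀ P, cl P = ram F P * Z (under F P) :=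
    ⟨_, fun _ => rfl⟩
  have hql0 : ∀ P, 0 ≤ ql P := fun P => by
    rw [hql]
    exact mul_nonneg (by positivity) (hQ0 _)
  have hcl0 : ∀ P, 0 ≤ cl P := fun P => by
    rw [hcl]
    exact mul_nonneg (by positivity) (hZ0 _)
  have hel0 : ∀ P, 0 ≤ el P := fun P => by
    rw [hel]
    have h1 := (ram_spec (F := F) P).1
    have h2 := hql0 P
    rw [hql] at h2
    omega
  have hqlf : {P | ql P ≠ 0}.Finite := by
    refine (finite_over_set (L := L) hQf).subset fun P hP => ?_
    rw [Set.mem_ofPred_eq, hql] at hP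
    exact right_ne_zero_of_mul hP
  have hclf : {P | cl P ≠ 0}.Finite := by
    refine (finite_over_set (L := L) hZf).subset fun P hP => ?_
    rw [Set.mem_ofPred_eq, hcl] at hP
    exact right_ne_zero_of_mul hP
  have helf : {P | el P ≠ 0}.Finite := by
    simp only [hel]
    exact hefin
  have hcoef : ∀ P p v, Ge P (-(cl P)) ((HL p).coeff v) := by
    intro P p v
    rw [hHL, coeff_map, hcl]
    rcases hZle p v (under F P) with h | h
    · left
      rw [h, map_zero]
    · right
      rw [ord_under]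
      have h2 : (0 : ℤ) ≤ ram F P := by positivity
      nlinarith
  have hloss : ∀ P δ, Loc P δ → ∀ p (I : Fin (n + 1) →₀ ℕ), I.degree = db R S d p →
      Loss P (unif P) δ (ql P) (el P) (D' p I) := by
    intro P δ hδ p I hI
    have h1 := hQle p I hI (under F P)
    have h2 : (0 : ℤ) ≤ ram F P := by positivity
    refine ⟨(hDl p I P).1.mono ?_, fun g f hf => ((hDl p I P).2 δ hδ g f hf).mono ?_⟩
    · rw [hel]
      nlinarith
    · rw [hql]
      nlinarith
  have hhom : ∀ p, (HL p).IsHomogeneous (db R S d p) := fun p => by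
    rw [hHL]
    exact (hH p).map _
  have hsys : SysB k HL d D' (fun P => ql P + cl P) (fun P => el P + cl P) cl := by
    refine ⟨⟨hhom, ?_⟩, fun P => add_nonneg (hql0 P) (hcl0 P),
      fun P => add_nonneg (hel0 P) (hcl0 P), hcl0, hcoef, fun P δ hδ p I hI =>
        (hloss P δ hδ p I hI).mono (by have := hcl0 P; omega) (by have := hcl0 P; omega),
      fun P δ hδ ξ => Loss.op (hloss P δ hδ) hhom (fun p v => hcoef P p v)
        (fun p p' => ge_aop P ξ p p') (fun p p' h => had_b ξ p p' h), ?_, ?_, hclf⟩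
    · intro a b I J hI
      rw [hHL, coeff_map, hD', hdual a b I J hI]
      unfold Gd
      split_ifs <;> simp
    · refine (hqlf.union hclf).subset fun P hP => ?_
      by_contra hcon
      simp only [Set.mem_union, Set.mem_ofPred_eq, not_or, not_not] at hcon
      apply hP
      rw [hcon.1, hcon.2, add_zero]
    · refine (helf.union hclf).subset fun P hP => ?_
      by_contra hcon
      simp only [Set.mem_union, Set.mem_ofPred_eq, not_or, not_not] at hcon
      apply hP
      rw [hcon.1, hcon.2, add_zero]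
  have hDk' : ∀ a I (r : F0), D' a I (algebraMap F0 L r) = 0 := by
    intro a I r
    change D' a I (algebraMap F L (algebraMap F0 F r)) = 0
    rw [hD', hDk, map_zero]
  have htr : Algebra.trdeg F0 (coords F0 x) ≤ m := by
    refine hV L x hx fun f hf => ?_
    have h1 := hxV f hf
    rw [aeval_eq_eval_map, map_map, eval_map] at h1
    rw [aeval_def]
    exact h1
  obtain ⟨W, hWm, hxW, hDW⟩ := exists_W hx htr
  have hrk := rankB (d := d) (F := HL) (D := D') W hWm hxW hDW hDk'
  have hNb : ∀ a, Nb HL x a = N a := by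
    intro a
    ext i j
    rw [hN, aeval_eq_eval_map, ← hHL]
    rfl
  have hex := fun a => exists_of_rank (N a)
  choose hv α β hm using hex
  have hcR : ∀ a, (N a).rank ≤ Fintype.card (R a) := fun a => Matrix.rank_le_card_height _
  have key := ineqB hsys hx hrk (ρ := fun a => (N a).rank)
    (r' := fun a => Fintype.card (R a) - (N a).rank)
    (s' := fun a => Fintype.card (S a) - (N a).rank) (α := α) (β := β)
    (fun a => by rw [hNb]; exact hv a) (fun a => by rw [hNb]; exact hm a)
    (fun a => by have := hRS a; omega) (O := O) (fun a ha => by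
      obtain ⟨h1, h2⟩ := hO a ha
      constructor
      · omega
      · omega)
  have e1 : ∀ a, (Fintype.card (S a) - (N a).rank) * (d a * ((N a).rank +
      (Fintype.card (R a) - (N a).rank)) + (Fintype.card (R a) - (N a).rank)) =
      (Fintype.card (S a) - (N a).rank) * (d a * Fintype.card (R a) +
        (Fintype.card (R a) - (N a).rank)) := by
    intro a
    have := hcR a
    congr 3
    omega
  simp only [e1] at key
  have e2 : ∑ a ∈ O, ((d a * (N a).rank : ℕ) : ℤ) =
      ∑ a ∈ O, ((d a * Fintype.card (R a) : ℕ) : ℤ) :=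
    Finset.sum_congr rfl fun a ha => by rw [(hO a ha).1]
  rw [e2] at key
  -- the counting function
  obtain ⟨cnt, hcnt⟩ : ∃ cnt : Place k L → ℤ, ∀ P, cnt P = cntB HL d x α β O P :=
    ⟨_, fun _ => rfl⟩
  obtain ⟨E, hE⟩ : ∃ E : Set (Place k L), E = {P : Place k L | ∃ a ∈ O,
    ((d a * Fintype.card (R a) : ℕ) : ℤ) * pord P x < P.ord (u a)} := ⟨_, rfl⟩
  have hEfin : E.Finite := by
    have hp := pord_finite (k := k) (Function.ne_iff.1 hx)
    have h1 : (⋃ a : A, {P : Place k L | P.ord (u a) ≠ 0}).Finite :=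
      Set.finite_iUnion fun a => finite_support _
    refine (h1.union hp).subset fun P hP => ?_
    by_contra hcon
    simp only [Set.mem_union, Set.mem_iUnion, Set.mem_ofPred_eq, not_or, not_exists, not_not] at hcon
    obtain ⟨h2, h3⟩ := hcon
    have h3' : pord P x = 0 := by
      by_contra h
      exact h3 h
    rw [hE] at hP
    obtain ⟨a, -, ha⟩ := hP
    rw [h3', mul_zero, h2 a] at ha
    exact lt_irrefl _ ha
  have hcle : ∀ P, cnt P ≤ 1 := by
    intro P
    rw [hcnt]
    unfold cntB
    split_ifs <;> norm_num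
  have hcsupp : ∀ P, cnt P ≠ 0 → P ∈ E := by
    intro P hP
    rw [hcnt] at hP
    unfold cntB at hP
    rw [hE]
    by_contra hcon
    apply hP
    rw [if_neg]
    rintro ⟨a, ha, h⟩
    apply hcon
    refine ⟨a, ha, ?_⟩
    obtain ⟨h1, h2⟩ := hO a ha
    rw [hNb, hu a ha P _ _ _ (α a) (β a) (by omega) (by omega) (hm a)] at h
    rw [← h1]
    exact h
  have hcfin : {P | cnt P ≠ 0}.Finite := hEfin.subset hcsupp
  have hcsum : ∑ᶠ P, cnt P ≤ E.ncard := by
    have h1 := finsum_le_card hEfin (M := 1) hcle hcsupp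
    rw [one_mul] at h1
    exact h1
  have hfun : ∀ P : Place k L, cntB HL d x α β O P +
      (cl P + (el P + cl P + (((n : ℤ) + 1) + Bd R S) * (ql P + cl P))) =
      cnt P + (el P + ram F P * Y (under F P)) := by
    intro P
    rw [hcnt, hY, hql, hcl, hB]
    push_cast
    ring
  rw [finsum_congr hfun] at key
  have hfY : {P : Place k L | (ram F P : ℤ) * Y (under F P) ≠ 0}.Finite := hufin
  rw [finsum_add_distrib hcfin ((helf.union hfY).subset fun P hP => by
      by_contra hcon
      simp only [Set.mem_union, Set.mem_ofPred_eq, not_or, not_not] at hcon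
      apply hP
      dsimp only
      rw [hcon.1, hcon.2, add_zero]), finsum_add_distrib helf hfY] at key
  have hes : ∑ᶠ P, el P ≤ canDeg k L + C1 * Module.finrank F L := by
    have h1 : el = fun P => ((ram F P : ℤ) - 1) + ram F P * Q (under F P) := funext hel
    rw [h1]
    exact hesum
  have hfinal : (E.ncard : ℤ) + ((canDeg k L + C1 * Module.finrank F L) +
      C3 * Module.finrank F L) =
      E.ncard + canDeg k L + (C1 + C3 : ℕ) * Module.finrank F L := by
    push_cast
    ring
  rw [← hE, ← hfinal]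
  exact key.trans (add_le_add hcsum (add_le_add hes husum))

end Pool.Agent.T6.H19.DW
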